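import Pool.Agent.Y938.RD.Stm

/-!
# RD16: the identity theorem for the generating functions (helper688)
-/

set_option autoImplicit false
namespace Pool.Agent.Y938.RD
open Filter Topology
open scoped ENNReal NNReal

lemma pow_ana (c : ℕ → ℝ) (z1 : ℝ≥0) (h : Summable fun n => ‖c n‖ * (z1 : ℝ) ^ n) {z : ℝ}
    (hz : ‖z‖ < z1) : AnalyticAt ℝ (fun z : ℝ => ∑' n, c n * z ^ n) z := by
  set P := FormalMultilinearSeries.ofScalars ℝ c with hP
  have h1 : (z1 : ℝ≥0∞) ≤ P.radius := by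
    apply FormalMultilinearSeries.le_radius_of_summable
    simpa only [hP, FormalMultilinearSeries.ofScalars_norm] using h
  have hz1 : (0 : ℝ) < z1 := lt_of_le_of_lt (norm_nonneg z) hz
  have h2 : 0 < P.radius := lt_of_lt_of_le (by exact_mod_cast hz1) h1
  have h3 := (P.hasFPowerSeriesOnBall h2).analyticAt_of_mem (y := z) (by
    rw [Metric.mem_eball, edist_zero_right]
    refine lt_of_lt_of_le ?_ h1
    rw [← ofReal_norm, ENNReal.ofReal_lt_coe_iff]
    · exact hz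
    · exact norm_nonneg z)
  have h4 : P.sum = fun z : ℝ => ∑' n, c n * z ^ n := by
    have := FormalMultilinearSeries.ofScalarsSum_eq_tsum (𝕜 := ℝ) (E := ℝ) c
    rw [FormalMultilinearSeries.ofScalarsSum] at this
    rw [hP, this]
    simp only [smul_eq_mul]
  rw [h4] at h3
  exact h3

lemma sum_ana (q : ℕ → ℝ) (r : ℝ) (hr : 0 ≤ r) (hq : ∀ n, 0 ≤ q n)
    (hs : ∀ X : ℝ, r < X → Summable (fun n : ℕ => q n / X ^ (n + 1))) (X : ℝ) (hX : r < X) :
    AnalyticAt ℝ (fun X : ℝ => ∑' n : ℕ, q n / X ^ (n + 1)) X := by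
  have hX0 : 0 < X := lt_of_le_of_lt hr hX
  set X1 : ℝ := (r + X) / 2 with hX1
  have h1 : r < X1 := by rw [hX1]; linarith
  have h2 : X1 < X := by rw [hX1]; linarith
  have h10 : 0 < X1 := lt_of_le_of_lt hr h1
  have h3 : (fun X : ℝ => ∑' n : ℕ, q n / X ^ (n + 1)) =
      fun X : ℝ => X⁻¹ * (fun z : ℝ => ∑' n : ℕ, q n * z ^ n) X⁻¹ := by
    funext Y
    show _ = Y⁻¹ * ∑' n : ℕ, q n * Y⁻¹ ^ n
    rw [← tsum_mul_left]
    refine tsum_congr fun n => ?_
    rw [div_eq_mul_inv, ← inv_pow, pow_succ]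
    ring
  rw [h3]
  have h4 : AnalyticAt ℝ (fun X : ℝ => X⁻¹) X := analyticAt_inv hX0.ne'
  refine h4.mul (AnalyticAt.fun_comp (g := fun z : ℝ => ∑' n : ℕ, q n * z ^ n) ?_ h4)
  refine pow_ana q (Real.toNNReal X1⁻¹) ?_ ?_
  · rw [Real.coe_toNNReal _ (by positivity)]
    have h5 := (hs X1 h1).mul_left X1
    refine h5.congr fun n => ?_
    rw [Real.norm_eq_abs, abs_of_nonneg (hq n), inv_pow, pow_succ]
    field_simp
  · rw [Real.coe_toNNReal _ (by positivity), Real.norm_eq_abs, abs_of_pos (by positivity)]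
    exact (inv_lt_inv₀ hX0 h10).2 h2

/-- The identity theorem. -/
theorem anal_spec (h0 : S_G0) : S_anal := by
  intro p q α lam r hp hq hα hlam hr hs hlt hs0 s hs1
  obtain ⟨s0, hs0⟩ := hs0
  have h1 := h0 p hp
  have hG : ∀ s : ℝ, 1 < s → AnalyticAt ℝ (Gf p) s := fun s hs =>
    sum_ana p 1 zero_le_one hp.nonneg (fun X hX => h1.2.1 X hX.le) s hs
  have hGpos : ∀ s : ℝ, 1 < s → 0 < Gf p s := fun s hs => h1.2.2.1 s hs.le
  have hchi : ∀ s : ℝ, 1 < s → AnalyticAt ℝ (chi p lam) s := by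
    intro s hs
    have h2 : AnalyticAt ℝ (fun s => (Gf p s)⁻¹) s := (hG s hs).inv (hGpos s hs).ne'
    have h3 : AnalyticAt ℝ (fun s => lam ^ 2 + (Gf p s)⁻¹ ^ 2) s :=
      analyticAt_const.add (h2.pow 2)
    have h4 : AnalyticAt ℝ Real.sqrt (lam ^ 2 + (Gf p s)⁻¹ ^ 2) := by
      have : 0 < lam ^ 2 + (Gf p s)⁻¹ ^ 2 := by positivity
      exact (Real.contDiffAt_sqrt (n := ⊤) this.ne').analyticAt
    exact (analyticAt_id.add (AnalyticAt.fun_comp (g := Real.sqrt)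
      (f := fun s => lam ^ 2 + (Gf p s)⁻¹ ^ 2) h4 h3)).sub h2
  have hF : AnalyticOnNhd ℝ (fun s => ∑' n : ℕ, q n / (α * chi p lam s) ^ (n + 1)) (Set.Ioi 1) := by
    intro s hs'
    exact AnalyticAt.fun_comp (g := fun X : ℝ => ∑' n : ℕ, q n / X ^ (n + 1))
      (f := fun s => α * chi p lam s)
      (sum_ana q r hr hq hs (α * chi p lam s) (hlt s hs')) (analyticAt_const.mul (hchi s hs'))
  have hF2 : AnalyticOnNhd ℝ (fun s => Gf p s / α) (Set.Ioi 1) := by
    intro s hs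
    exact (hG s hs).div analyticAt_const hα.ne'
  have hpre : IsPreconnected (Set.Ioi (1 : ℝ)) := isPreconnected_Ioi
  have hmem : max s0 1 + 1 ∈ Set.Ioi (1 : ℝ) := by
    show 1 < max s0 1 + 1
    have := le_max_right s0 1
    linarith
  refine AnalyticOnNhd.eqOn_of_preconnected_of_eventuallyEq hF hF2 hpre hmem ?_ hs1
  have h5 : Set.Ioi s0 ∈ 𝓝 (max s0 1 + 1) := Ioi_mem_nhds (by
    have := le_max_left s0 1
    linarith)
  filter_upwards [h5] with s hs
  exact hs0 s (le_of_lt hs)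

end Pool.Agent.Y938.RD
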