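import Pool.Agent.Y938.RD.Stm

set_option autoImplicit false

/-! Project RD (frozen S19332): assembly. -/

namespace Pool.Agent.Y938.RD

open Filter Topology

theorem main_spec (hRD : S_RDfin) (hnu : S_nu) (hrho : S_rho) (hret : S_ret) (hodd : S_odd) (hFG : S_FG)
    (hpp : S_pp) (hchi : S_chi) (hG1 : S_G1) (hanal : S_anal) (hfinal : S_final) :
    ¬ (∀ (G : Type) [Group G],
      (∃ S : Finset G, Subgroup.closure (S : Set G) = ⊤ ∧
        ∃ (C : ℝ) (s : ℕ), ∀ f g : G →₀ ℝ, ∀ T : Finset G,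
          ∑ x ∈ T, (f.sum (fun y a => a * g (y⁻¹ * x))) ^ 2 ≤
            C * (f.sum (fun x a => a ^ 2 *
                  (1 + ((sInf {n : ℕ | ∃ l : List G, l.length = n ∧
                      (∀ y ∈ l, y ∈ S ∨ y⁻¹ ∈ S) ∧ l.prod = x} : ℕ) : ℝ)) ^ (2 * s)))
              * g.sum (fun _ a => a ^ 2)) →
      ∀ ν : G →₀ ℝ,
        (∀ x, 0 ≤ ν x) →
        ν.sum (fun _ a => a) = 1 →
        (∀ x, ν x⁻¹ = ν x) →
        ∀ ρ : ℝ, 0 ≤ ρ →
          (∀ g : G →₀ ℝ, ∀ T : Finset G,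
            ∑ x ∈ T, (ν.sum (fun y a => a * g (y⁻¹ * x))) ^ 2 ≤
              ρ ^ 2 * g.sum (fun _ a => a ^ 2)) →
          (∀ r : ℝ, 0 ≤ r → r < ρ → ∃ g : G →₀ ℝ, ∃ T : Finset G,
            r ^ 2 * g.sum (fun _ a => a ^ 2) <
              ∑ x ∈ T, (ν.sum (fun y a => a * g (y⁻¹ * x))) ^ 2) →
          ∃ c d : ℝ, 0 < c ∧
            Asymptotics.IsEquivalent Filter.atTop
              (fun n : ℕ =>
                ((fun (h : G → ℝ) (x : G) => ν.sum (fun y a => a * h (y⁻¹ * x)))^[2 * n]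
                  (Set.indicator ({1} : Set G) (fun _ => (1 : ℝ)))) 1)
              (fun n : ℕ => c * (n : ℝ) ^ (-d) * ρ ^ (2 * n))) := by
  intro H
  obtain ⟨lam, hlam, hchi1, hchigt, hchilow, hchiup⟩ := hchi pp hpp
  obtain ⟨c0, C0, hc0, hcC⟩ := hG1 pp hpp
  set α : ℝ := 1 / (1 + lam) with hα
  set β : ℝ := lam / (1 + lam) with hβ
  have hα0 : 0 < α := by positivity
  have hβ0 : 0 < β := by positivity
  have hαβ : α + β = 1 := by rw [hα, hβ]; field_simp
  have hβα : β / α = lam := by rw [hα, hβ]; field_simp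
  obtain ⟨hn0, hn1, hn2, -⟩ := hnu α β hα0 hβ0 hαβ
  obtain ⟨ρ, hρ0, hρ1, hρ2⟩ := hrho Gam (nu α β) hn0 hn1
  obtain ⟨c, d, hc, hcd⟩ := H Gam hRD (nu α β) hn0 hn1 hn2 ρ hρ0 hρ1 hρ2
  have hFG' := hFG α β hα0 hβ0 hαβ
  rw [hβα] at hFG'
  set q : ℕ → ℝ := ret (nu α β) with hq
  have hq0 : ∀ n, 0 ≤ q n := hret Gam (nu α β) hn0
  set r : ℝ := α * chi pp lam 1 with hr
  have hr0 : 0 < r := by positivity
  set δ : ℝ → ℝ := fun t => α * (chi pp lam (1 + t) - chi pp lam 1) with hδ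
  have hδpos : ∀ t : ℝ, 0 < t → t ≤ 1 → 0 < δ t := by
    intro t ht _
    have := hchigt (1 + t) (by linarith)
    exact mul_pos hα0 (by linarith)
  have hδup : ∀ η : ℝ, 0 < η → η < 1 → ∃ C : ℝ, 0 ≤ C ∧ ∀ t : ℝ, 0 < t → t ≤ 1 → δ t ≤ C * t ^ (2 - η) := by
    intro η h1 h2
    obtain ⟨C, hC0, hC⟩ := hchiup η h1 h2
    refine ⟨α * C, by positivity, fun t ht ht1 => ?_⟩
    have := hC t ht ht1
    calc δ t = α * (chi pp lam (1 + t) - chi pp lam 1) := rfl
      _ ≤ α * (C * t ^ (2 - η)) := mul_le_mul_of_nonneg_left this hα0.le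
      _ = α * C * t ^ (2 - η) := by ring
  have hrδ : ∀ t, r + δ t = α * chi pp lam (1 + t) := by
    intro t; simp only [hr, hδ]; ring
  -- summability to the right of r
  have hsum : ∀ X : ℝ, r < X → Summable (fun n : ℕ => q n / X ^ (n + 1)) := by
    intro X hX
    obtain ⟨C, hC0, hC⟩ := hδup (1 / 2) (by norm_num) (by norm_num)
    -- choose t with δ t ≤ X - r
    obtain ⟨t, ht0, ht1, htX⟩ : ∃ t : ℝ, 0 < t ∧ t ≤ 1 ∧ C * t ^ ((2 : ℝ) - 1 / 2) ≤ X - r := by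
      have hlim : Tendsto (fun t : ℝ => C * t ^ ((2 : ℝ) - 1 / 2)) (𝓝[>] 0) (𝓝 0) := by
        have h1 : Tendsto (fun t : ℝ => t ^ ((2 : ℝ) - 1 / 2)) (𝓝[>] 0) (𝓝 0) := by
          have := (Real.continuousAt_rpow_const (0 : ℝ) ((2 : ℝ) - 1 / 2) (Or.inr (by norm_num))).tendsto
          rw [Real.zero_rpow (by norm_num)] at this
          exact this.mono_left nhdsWithin_le_nhds
        simpa using h1.const_mul C
      have h2 : ∀ᶠ t : ℝ in 𝓝[>] 0, C * t ^ ((2 : ℝ) - 1 / 2) < X - r :=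
        hlim.eventually (gt_mem_nhds (by linarith))
      have h3 : ∀ᶠ t : ℝ in 𝓝[>] 0, t ∈ Set.Ioo (0 : ℝ) 1 := Ioo_mem_nhdsGT one_pos
      obtain ⟨t, h4, h5⟩ := (h2.and h3).exists
      exact ⟨t, h5.1, h5.2.le, h4.le⟩
    have hle : r + δ t ≤ X := by
      have := hC t ht0 ht1
      linarith
    have hpos : 0 < r + δ t := by have := hδpos t ht0 ht1; linarith
    refine summable_of_sum_range_le (c := Gf pp (1 + t) / α) (fun n => ?_) (fun N => ?_)
    · have : 0 < X := by linarith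
      exact div_nonneg (hq0 n) (by positivity)
    · have h1 := (hFG' (1 + t) (by linarith)).1 N
      rw [← hrδ t] at h1
      refine le_trans (Finset.sum_le_sum fun n _ => ?_) h1
      exact div_le_div_of_nonneg_left (hq0 n) (by positivity) (pow_le_pow_left₀ hpos.le hle _)
  have hid : ∀ s : ℝ, 1 < s → ∑' n : ℕ, q n / (α * chi pp lam s) ^ (n + 1) = Gf pp s / α := by
    refine hanal pp q α lam r hpp hq0 hα0 hlam hr0.le hsum (fun s hs => ?_) ?_
    · exact mul_lt_mul_of_pos_left (hchigt s hs) hα0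
    · refine ⟨max 2 (1 / α + 1), fun s hs => ?_⟩
      have h2 : 2 ≤ s := le_trans (le_max_left _ _) hs
      have h3 : 1 / α + 1 ≤ s := le_trans (le_max_right _ _) hs
      have h4 : 1 < α * s := by
        have : α * (1 / α + 1) ≤ α * s := mul_le_mul_of_nonneg_left h3 hα0.le
        have h5 : α * (1 / α + 1) = 1 + α := by field_simp
        linarith
      exact ((hFG' s (by linarith)).2 h2 h4).tsum_eq
  refine hfinal q r (Gf pp 1 / α) δ (fun t => (Gf pp 1 - Gf pp (1 + t)) / α) hq0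
    (fun m => hodd α β hα0 hβ0 hαβ m) hr0 hsum hδpos ?_ hδup ?_ ?_ c d ρ hc hρ0 hcd
  · have h1 : (fun t : ℝ => δ t / t ^ 2) = fun t : ℝ => α * ((chi pp lam (1 + t) - chi pp lam 1) / t ^ 2) := by
      funext t; simp only [hδ]; ring
    rw [h1]
    exact Tendsto.const_mul_atTop hα0 hchilow
  · refine ⟨c0 / α, C0 / α, by positivity, fun t ht ht1 => ?_⟩
    obtain ⟨h1, h2⟩ := hcC t ht ht1
    constructor
    · rw [div_mul_eq_mul_div]; exact div_le_div_of_nonneg_right h1 hα0.le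
    · rw [div_mul_eq_mul_div]; exact div_le_div_of_nonneg_right h2 hα0.le
  · intro t ht ht1
    rw [show (fun n : ℕ => q n / (r + δ t) ^ (n + 1)) = fun n : ℕ => q n / (α * chi pp lam (1 + t)) ^ (n + 1) from by
      rw [hrδ t]]
    rw [hid (1 + t) (by linarith)]
    ring

end Pool.Agent.Y938.RD
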