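import Pool.Agent.Y938.RD.Stm

set_option autoImplicit false

/-! Project RD: generating function of the returns of the free product. -/

namespace Pool.Agent.Y938.RD

open Filter Topology
open scoped ENNReal

noncomputable section

theorem nf_one' : nf (1 : Gam) = [] := by
  have h : (Monoid.CoprodI.Word.equiv (M := fun _ : Bool => A)) 1 = Monoid.CoprodI.Word.empty := by
    show (1 : Gam) • (Monoid.CoprodI.Word.empty (M := fun _ : Bool => A)) = Monoid.CoprodI.Word.empty
    rw [one_smul]
  unfold nf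
  rw [h]
  rfl

theorem prod01 (l : List ℝ) (h : ∀ t ∈ l, 0 ≤ t ∧ t ≤ 1) : 0 ≤ l.prod ∧ l.prod ≤ 1 := by
  induction l with
  | nil => simp
  | cons a l ih =>
    have h1 := h a (by simp)
    have h2 := ih (fun t ht => h t (by simp [ht]))
    rw [List.prod_cons]
    exact ⟨mul_nonneg h1.1 h2.1, mul_le_one₀ h1.2 h2.1 h2.2⟩

theorem prod0 (l : List ℝ) (h : ∀ t ∈ l, 0 ≤ t) : 0 ≤ l.prod := by
  induction l with
  | nil => simp
  | cons a l ih =>
    rw [List.prod_cons]
    exact mul_nonneg (h a (by simp)) (ih (fun t ht => h t (by simp [ht])))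

theorem smul_sum_aux (α : ℝ) (ν : A →₀ ℝ) (f : A → ℝ) :
    (α • ν).sum (fun b t => t * f b) = α * ν.sum (fun b t => t * f b) := by
  rw [Finsupp.sum_smul_index (by intro i; ring), Finsupp.mul_sum]
  apply Finsupp.sum_congr
  intro x _
  ring

theorem FG_spec' (h1 : S_gs) (h2 : S_b) (h3 : S_free) (h4 : S_green) (h5 : S_nu) (h6 : S_pp) (h7 : S_G0) :
    S_FG := by
  intro α β hα hβ hαβ s hs
  obtain ⟨hgs0, hgs1, hgsE, hgsB⟩ := h1 s hs
  obtain ⟨-, hsum, hGpos, -, -, -, -, -, -⟩ := h7 pp h6
  have hg : 0 < Gf pp s := hGpos s hs.le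
  set g := Gf pp s with hgdef
  have hy : 0 < g / α := div_pos hg hα
  obtain ⟨ct, hct1, hct0, hctl, hctE⟩ := h2 β (g / α) hβ hy
  set y := g / α with hydef
  let c : Bool → A → ℝ := fun i => if i then ct else fun a => gs s a / g
  let w : Bool → ℝ := fun i => if i then Real.sqrt (β ^ 2 + (1 / y) ^ 2) else α * s
  let m : Bool → (A →₀ ℝ) := fun i => if i then β • nu2 else α • nu1
  have hc1 : ∀ i, c i 1 = 1 := by
    intro i
    cases i
    · show gs s 1 / g = 1
      rw [hgs1]
      exact div_self hg.ne'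
    · exact hct1
  have hc0 : ∀ i a, 0 ≤ c i a := by
    intro i a
    cases i
    · exact div_nonneg (hgs0 a) hg.le
    · exact hct0 a
  have hE : ∀ i a, w i * c i a = (m i).sum (fun b t => t * c i (b⁻¹ * a)) +
      Set.indicator ({1} : Set A) (fun _ => 1 / y) a := by
    intro i a
    cases i
    · show α * s * (gs s a / g) = (α • nu1).sum (fun b t => t * (gs s (b⁻¹ * a) / g)) + _
      rw [smul_sum_aux α nu1 (fun b => gs s (b⁻¹ * a) / g)]
      have e1 : nu1.sum (fun b t => t * (gs s (b⁻¹ * a) / g)) =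
          (nu1.sum (fun b t => t * gs s (b⁻¹ * a))) / g := by
        unfold Finsupp.sum
        rw [Finset.sum_div]
        apply Finset.sum_congr rfl
        intro x _
        ring
      rw [e1]
      have e2 : Set.indicator ({1} : Set A) (fun _ => 1 / y) a =
          (α / g) * Set.indicator ({1} : Set A) (fun _ => (1 : ℝ)) a := by
        by_cases ha : a = 1
        · simp [ha, hydef]
        · simp [ha]
      rw [e2]
      have e3 := hgsE a
      calc α * s * (gs s a / g) = α * (s * gs s a) / g := by ring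
        _ = α * (nu1.sum (fun b t => t * gs s (b⁻¹ * a)) +
            Set.indicator ({1} : Set A) (fun _ => (1 : ℝ)) a) / g := by rw [e3]
        _ = _ := by ring
    · exact hctE a
  have hsq : 1 / y ≤ Real.sqrt (β ^ 2 + (1 / y) ^ 2) := by
    apply Real.le_sqrt_of_sq_le
    nlinarith [sq_nonneg β]
  have hX : w false + w true - 1 / y = α * chi pp (β / α) s := by
    show α * s + Real.sqrt (β ^ 2 + (1 / y) ^ 2) - 1 / y = α * chi pp (β / α) s
    unfold chi
    have e1 : β ^ 2 + (1 / y) ^ 2 = α ^ 2 * ((β / α) ^ 2 + (Gf pp s)⁻¹ ^ 2) := by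
      rw [hydef, ← hgdef]
      field_simp
    rw [e1, Real.sqrt_mul (sq_nonneg α), Real.sqrt_sq hα.le]
    have e2 : 1 / y = α * (Gf pp s)⁻¹ := by
      rw [hydef, ← hgdef]
      field_simp
    rw [e2]
    ring
  have hXs : α * s ≤ α * chi pp (β / α) s := by
    rw [← hX]
    show α * s ≤ α * s + Real.sqrt (β ^ 2 + (1 / y) ^ 2) - 1 / y
    linarith
  have hX0 : 0 < α * chi pp (β / α) s := lt_of_lt_of_le (by positivity) hXs
  obtain ⟨hn0, hn1, -, hn3⟩ := h5 α β hα hβ hαβ
  have hU0 : ∀ x, 0 ≤ Uf y c x := by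
    intro x
    unfold Uf
    apply mul_nonneg hy.le
    apply prod0
    intro t ht
    rw [List.mem_map] at ht
    obtain ⟨p, -, rfl⟩ := ht
    exact hc0 _ _
  have hUE : ∀ x, (α * chi pp (β / α) s) * Uf y c x = Tn (nu α β) (Uf y c) x +
      Set.indicator ({1} : Set Gam) (fun _ => (1 : ℝ)) x := by
    intro x
    rw [← hX, hn3, h3 m c w y hy hc1 hE x]
    rfl
  have hU1 : Uf y c 1 = g / α := by
    unfold Uf
    rw [nf_one']
    simp [hydef]
  have key := h4 Gam (nu α β) hn0 hn1 (α * chi pp (β / α) s) (Uf y c) hX0 hU0 hUE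
  rw [hU1] at key
  refine ⟨key.1, ?_⟩
  intro hs2 hαs
  apply key.2 (lt_of_lt_of_le hαs hXs)
  refine ⟨y, ?_⟩
  intro x
  unfold Uf
  have hc2 : ∀ i a, c i a ≤ 1 := by
    intro i a
    cases i
    · by_cases ha : a = 1
      · rw [ha]
        exact (hc1 false).le
      · show gs s a / g ≤ 1
        rw [div_le_one hg]
        have hgl : 1 / s ≤ g := by
          have := (hsum s hs.le).le_tsum 0 (fun n _ => div_nonneg (h6.nonneg n) (by positivity))
          simp only [h6.zero, zero_add, pow_one] at this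
          exact this
        refine (hgsB a ha).trans (le_trans ?_ hgl)
        apply one_div_le_one_div_of_le (by positivity)
        nlinarith
    · exact hctl a
  have hp := prod01 ((nf x).map (fun p => c p.1 p.2)) (by
    intro t ht
    rw [List.mem_map] at ht
    obtain ⟨p, -, rfl⟩ := ht
    exact ⟨hc0 _ _, hc2 _ _⟩)
  nlinarith [hp.1, hp.2]

end

end Pool.Agent.Y938.RD
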