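import Pool.Agent.Y938.RD.Stm
import Pool.Agent.Y938.RD.FGc

set_option autoImplicit false

/-! Project RD: normalised Green function of the second walk. -/

namespace Pool.Agent.Y938.RD

open Filter Topology
open scoped ENNReal

noncomputable section

theorem b_aux (β y : ℝ) (hβ : 0 < β) (hy : 0 < y) :
    ∃ z : ℝ, 0 ≤ z ∧ z ≤ 1 ∧ Real.sqrt (β ^ 2 + (1 / y) ^ 2) = β / 2 * (z + z) + 1 / y ∧
      Real.sqrt (β ^ 2 + (1 / y) ^ 2) * z = β / 2 * (1 + z ^ 2) := by
  set W := Real.sqrt (β ^ 2 + (1 / y) ^ 2) with hW
  have hu : 0 < 1 / y := by positivity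
  set u := 1 / y with hudef
  have hW2 : W ^ 2 = β ^ 2 + u ^ 2 := Real.sq_sqrt (by positivity)
  have hW0 : 0 ≤ W := Real.sqrt_nonneg _
  refine ⟨(W - u) / β, ?_, ?_, ?_, ?_⟩
  · apply div_nonneg _ hβ.le
    nlinarith [sq_nonneg β, sq_nonneg (W - u)]
  · rw [div_le_one hβ]
    nlinarith [mul_pos hβ hu]
  · field_simp
    ring
  · field_simp
    nlinarith

theorem b_nu2 (β : ℝ) (f : A → ℝ) :
    (β • nu2).sum (fun b t => t * f b) = β / 2 * (f e0 + f e0⁻¹) := by
  rw [smul_sum_aux]
  unfold nu2
  rw [Finsupp.sum_add_index' (by intro i; ring) (by intro i x z; ring), Finsupp.sum_single_index (by ring),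
    Finsupp.sum_single_index (by ring)]
  ring

theorem b_spec' : S_b := by
  classical
  intro β y hβ hy
  obtain ⟨z, hz0, hz1, hW1, hW2⟩ := b_aux β y hβ hy
  set W := Real.sqrt (β ^ 2 + (1 / y) ^ 2) with hW
  let P : A → Prop := fun a => ∀ j : Fin 6, j ≠ 0 → Multiplicative.toAdd a j = 0
  let c : A → ℝ := fun a => if P a then z ^ (Multiplicative.toAdd a 0).natAbs else 0
  have hP1 : ∀ a : A, P (e0⁻¹⁻¹ * a) ↔ P a := by
    intro a
    constructor
    · intro h j hj
      have := h j hj
      simpa [e0, toAdd_mul, hj] using this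
    · intro h j hj
      have := h j hj
      simpa [e0, toAdd_mul, hj] using this
  have hP2 : ∀ a : A, P (e0⁻¹ * a) ↔ P a := by
    intro a
    constructor
    · intro h j hj
      have := h j hj
      simpa [e0, toAdd_mul, hj] using this
    · intro h j hj
      have := h j hj
      simpa [e0, toAdd_mul, hj] using this
  have hc1 : ∀ a : A, (Multiplicative.toAdd (e0⁻¹⁻¹ * a) 0) = Multiplicative.toAdd a 0 + 1 := by
    intro a
    simp [e0, toAdd_mul, add_comm]
  have hc2 : ∀ a : A, (Multiplicative.toAdd (e0⁻¹ * a) 0) = Multiplicative.toAdd a 0 - 1 := by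
    intro a
    simp [e0, toAdd_mul]
    ring
  refine ⟨c, ?_, ?_, ?_, ?_⟩
  · show (if P 1 then z ^ (Multiplicative.toAdd (1 : A) 0).natAbs else 0) = 1
    rw [if_pos (by intro j _; simp)]
    simp
  · intro a
    show 0 ≤ if P a then z ^ (Multiplicative.toAdd a 0).natAbs else 0
    split_ifs
    · positivity
    · exact le_refl _
  · intro a
    show (if P a then z ^ (Multiplicative.toAdd a 0).natAbs else 0) ≤ 1
    split_ifs
    · exact pow_le_one₀ hz0 hz1
    · exact zero_le_one
  · intro a
    rw [b_nu2 β (fun b => c (b⁻¹ * a))]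
    show W * (if P a then z ^ (Multiplicative.toAdd a 0).natAbs else 0) =
      β / 2 * ((if P (e0⁻¹ * a) then z ^ (Multiplicative.toAdd (e0⁻¹ * a) 0).natAbs else 0) +
        (if P (e0⁻¹⁻¹ * a) then z ^ (Multiplicative.toAdd (e0⁻¹⁻¹ * a) 0).natAbs else 0)) + _
    rw [hc1, hc2]
    by_cases hPa : P a
    · rw [if_pos hPa, if_pos ((hP2 a).2 hPa), if_pos ((hP1 a).2 hPa)]
      by_cases h0 : Multiplicative.toAdd a 0 = 0
      · have ha : a = 1 := by
          apply Multiplicative.toAdd.injective
          funext j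
          by_cases hj : j = 0
          · rw [hj, h0]; simp
          · rw [hPa j hj]; simp
        rw [ha]
        simp only [toAdd_one, Pi.zero_apply, Int.natAbs_zero, pow_zero, mul_one, zero_sub, zero_add,
          Set.indicator_of_mem (Set.mem_singleton (1 : A))]
        simpa using hW1
      · have ha : a ≠ 1 := by
          intro h
          apply h0
          rw [h]; simp
        rw [Set.indicator_of_notMem (by simpa using ha), add_zero]
        set k := Multiplicative.toAdd a 0 with hk
        rcases lt_or_gt_of_ne h0 with h | h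
        · obtain ⟨n, hn⟩ : ∃ n : ℕ, k = -((n : ℤ) + 1) := ⟨(-k - 1).toNat, by omega⟩
          have e1 : k.natAbs = n + 1 := by omega
          have e2 : (k - 1).natAbs = n + 2 := by omega
          have e3 : (k + 1).natAbs = n := by omega
          rw [e1, e2, e3]
          calc W * z ^ (n + 1) = z ^ n * (W * z) := by ring
            _ = z ^ n * (β / 2 * (1 + z ^ 2)) := by rw [hW2]
            _ = _ := by ring
        · obtain ⟨n, hn⟩ : ∃ n : ℕ, k = (n : ℤ) + 1 := ⟨(k - 1).toNat, by omega⟩
          have e1 : k.natAbs = n + 1 := by omega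
          have e2 : (k - 1).natAbs = n := by omega
          have e3 : (k + 1).natAbs = n + 2 := by omega
          rw [e1, e2, e3]
          calc W * z ^ (n + 1) = z ^ n * (W * z) := by ring
            _ = z ^ n * (β / 2 * (1 + z ^ 2)) := by rw [hW2]
            _ = _ := by ring
    · rw [if_neg hPa, if_neg (fun h => hPa ((hP2 a).1 h)), if_neg (fun h => hPa ((hP1 a).1 h))]
      have ha : a ≠ 1 := by
        intro h
        apply hPa
        rw [h]
        intro j _
        simp
      rw [Set.indicator_of_notMem (by simpa using ha)]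
      ring

end

end Pool.Agent.Y938.RD
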