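import Pool.Agent.Y938.RD.Stm

set_option autoImplicit false

/-! Project RD: the function `χ` at the critical parameter (job of helper938, by helper302). -/

namespace Pool.Agent.Y938.RD

open Filter Topology

noncomputable section

namespace Chiaux

/-- Taylor remainder of `h ↦ sqrt (lam^2 + h^2)`. -/
theorem rem_bounds {lam H1 H : ℝ} (hl : 0 < lam) (h1 : 0 < H1) (h : H1 < H) :
    0 < Real.sqrt (lam ^ 2 + H ^ 2) - Real.sqrt (lam ^ 2 + H1 ^ 2) -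
        H1 / Real.sqrt (lam ^ 2 + H1 ^ 2) * (H - H1) ∧
    Real.sqrt (lam ^ 2 + H ^ 2) - Real.sqrt (lam ^ 2 + H1 ^ 2) -
        H1 / Real.sqrt (lam ^ 2 + H1 ^ 2) * (H - H1) ≤ (H - H1) ^ 2 / (2 * lam) := by
  obtain ⟨S, hS⟩ : ∃ S, S = Real.sqrt (lam ^ 2 + H ^ 2) := ⟨_, rfl⟩
  obtain ⟨T, hT⟩ : ∃ T, T = Real.sqrt (lam ^ 2 + H1 ^ 2) := ⟨_, rfl⟩
  have hH : 0 < H := h1.trans h
  have hS2 : S ^ 2 = lam ^ 2 + H ^ 2 := by rw [hS, Real.sq_sqrt (by positivity)]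
  have hT2 : T ^ 2 = lam ^ 2 + H1 ^ 2 := by rw [hT, Real.sq_sqrt (by positivity)]
  have hSl : lam ≤ S := by
    rw [hS]; exact Real.le_sqrt_of_sq_le (by nlinarith [sq_nonneg H])
  have hTl : lam ≤ T := by
    rw [hT]; exact Real.le_sqrt_of_sq_le (by nlinarith [sq_nonneg H1])
  have hSp : 0 < S := hl.trans_le hSl
  have hTp : 0 < T := hl.trans_le hTl
  rw [← hS, ← hT]
  have hD : 0 < S * T + (lam ^ 2 + H * H1) := by positivity
  have e1 : S - T - H1 / T * (H - H1) = lam ^ 2 * (H - H1) ^ 2 / (S * T + (lam ^ 2 + H * H1)) / T := by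
    rw [eq_div_iff hTp.ne', eq_div_iff hD.ne']
    have e2 : (S - T - H1 / T * (H - H1)) * T = S * T - (lam ^ 2 + H * H1) := by
      have : (S - T - H1 / T * (H - H1)) * T = S * T - T ^ 2 - H1 * (H - H1) := by
        field_simp
      rw [this, hT2]; ring
    rw [e2]
    have e3 : (S * T - (lam ^ 2 + H * H1)) * (S * T + (lam ^ 2 + H * H1)) =
        S ^ 2 * T ^ 2 - (lam ^ 2 + H * H1) ^ 2 := by ring
    rw [e3, hS2, hT2]; ring
  have hd : 0 < H - H1 := by linarith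
  rw [e1]
  refine ⟨by positivity, ?_⟩
  rw [div_div, div_le_div_iff₀ (by positivity) (by positivity)]
  have h3 : 2 * lam ^ 2 ≤ S * T + (lam ^ 2 + H * H1) := by
    have : lam * lam ≤ S * T := mul_le_mul hSl hTl hl.le hSp.le
    nlinarith [mul_pos hH h1]
  calc lam ^ 2 * (H - H1) ^ 2 * (2 * lam) = (H - H1) ^ 2 * ((2 * lam ^ 2) * lam) := by ring
    _ ≤ (H - H1) ^ 2 * ((S * T + (lam ^ 2 + H * H1)) * T) := by gcongr

end Chiaux

open Chiaux

theorem chi_spec (h0 : S_G0) (h1 : S_G1) (h2 : S_H2) (h3 : S_E2) : S_chi := by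
  intro p hp
  obtain ⟨-, -, hpos, hlt, hge, hhalf, -, -, hgt⟩ := h0 p hp
  obtain ⟨c, Cg, hc, hCg⟩ := h1 p hp
  obtain ⟨hcc, hH2⟩ := h2 p hp
  obtain ⟨hT, hU⟩ := h3 p hp
  obtain ⟨G1, hG1⟩ : ∃ G1, G1 = Gf p 1 := ⟨_, rfl⟩
  rw [← hG1] at hge hgt hcc
  have hG1p : 0 < G1 := by linarith
  obtain ⟨K, hK⟩ : ∃ K, K = cc p / G1 ^ 2 := ⟨_, rfl⟩
  have hK1 : 1 < K := by rw [hK, lt_div_iff₀ (by positivity), one_mul]; exact hcc
  have hKp : 0 < K := by linarith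
  obtain ⟨H1, hH1⟩ : ∃ H1, H1 = G1⁻¹ := ⟨_, rfl⟩
  have hH1p : 0 < H1 := by rw [hH1]; positivity
  have hk : 0 < 1 - 1 / K := by
    rw [sub_pos, div_lt_one hKp]; exact hK1
  have hk1 : 1 - 1 / K < 1 := by
    have : 0 < 1 / K := by positivity
    linarith
  obtain ⟨S1, hS1⟩ : ∃ S1, S1 = H1 / (1 - 1 / K) := ⟨_, rfl⟩
  have hS1H : H1 < S1 := by
    rw [hS1, lt_div_iff₀ hk]
    nlinarith
  have hS1p : 0 < S1 := hH1p.trans hS1H
  have hdiff : 0 < S1 ^ 2 - H1 ^ 2 := by nlinarith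
  obtain ⟨lam, hlam⟩ : ∃ lam, lam = Real.sqrt (S1 ^ 2 - H1 ^ 2) := ⟨_, rfl⟩
  have hlp : 0 < lam := by rw [hlam]; exact Real.sqrt_pos.mpr hdiff
  have hl2 : lam ^ 2 = S1 ^ 2 - H1 ^ 2 := by rw [hlam, Real.sq_sqrt hdiff.le]
  have hsq : Real.sqrt (lam ^ 2 + H1 ^ 2) = S1 := by
    rw [hl2, sub_add_cancel, Real.sqrt_sq hS1p.le]
  have hr : H1 / S1 = 1 - 1 / K := by
    rw [hS1]; field_simp
  have hchi1 : chi p lam 1 = 1 + S1 - H1 := by
    unfold chi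
    rw [← hG1, ← hH1, hsq]
  -- main identity and bounds
  have main : ∀ t : ℝ, 0 < t → ∃ R : ℝ, 0 < R ∧ R ≤ ((Gf p (1 + t))⁻¹ - H1) ^ 2 / (2 * lam) ∧
      0 ≤ (Gf p (1 + t))⁻¹ - H1 ∧ (Gf p (1 + t))⁻¹ - H1 ≤ K * t ∧
      chi p lam (1 + t) - chi p lam 1 = (K * t - ((Gf p (1 + t))⁻¹ - H1)) / K + R := by
    intro t ht
    have hG := hpos (1 + t) (by linarith)
    have hGlt := hlt (1 + t) (by linarith)
    rw [← hG1] at hGlt
    have hH : H1 < (Gf p (1 + t))⁻¹ := by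
      rw [hH1]; exact (inv_lt_inv₀ hG1p hG).mpr hGlt
    obtain ⟨r1, r2⟩ := rem_bounds hlp hH1p hH
    rw [hsq, hr] at r1 r2
    refine ⟨_, r1, r2, by linarith, ?_, ?_⟩
    · have h4 := hH2 (1 + t) (by linarith)
      rw [← hG1] at h4
      have h5 : (1 + t - 1) = t := by ring
      rw [h5] at h4
      rw [hH1, hK]
      have e : (Gf p (1 + t))⁻¹ - G1⁻¹ = (G1 * (G1 - Gf p (1 + t))) / (G1 ^ 2 * Gf p (1 + t)) := by
        field_simp
      rw [e, div_le_iff₀ (by positivity)]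
      calc G1 * (G1 - Gf p (1 + t)) ≤ cc p * t * Gf p (1 + t) := h4
        _ = cc p / G1 ^ 2 * t * (G1 ^ 2 * Gf p (1 + t)) := by field_simp
    · rw [hchi1]
      unfold chi
      field_simp
      ring
  -- second order term
  have epsE : ∀ t : ℝ, 0 < t → K * t - ((Gf p (1 + t))⁻¹ - H1) =
      (Gf p (1 + t) - Gf p 1 + cc p * t) / G1 ^ 2 - (G1 - Gf p (1 + t)) ^ 2 / (G1 ^ 2 * Gf p (1 + t)) := by
    intro t ht
    have hG := hpos (1 + t) (by linarith)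
    rw [hH1, hK, ← hG1]
    field_simp
    ring
  refine ⟨lam, hlp, ?_, ?_, ?_, ?_⟩
  · rw [hchi1]; linarith
  · intro s hs
    obtain ⟨R, hR, -, -, hle, he⟩ := main (s - 1) (by linarith)
    rw [show (1 : ℝ) + (s - 1) = s by ring] at hle he
    have : 0 ≤ (K * (s - 1) - ((Gf p s)⁻¹ - H1)) / K := div_nonneg (by linarith) hKp.le
    linarith
  · have hlow : Tendsto (fun t : ℝ => 1 / (K * G1 ^ 2) * ((Gf p (1 + t) - Gf p 1 + cc p * t) / t ^ 2) +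
        (-(2 * Cg ^ 2 / K))) (𝓝[>] 0) atTop := by
      apply Tendsto.atTop_add _ tendsto_const_nhds
      exact hT.const_mul_atTop (by positivity)
    refine tendsto_atTop_mono' _ ?_ hlow
    filter_upwards [Ioc_mem_nhdsGT (zero_lt_one (α := ℝ))] with t ht
    obtain ⟨ht0, ht1⟩ := ht
    obtain ⟨R, hR, -, -, hle, he⟩ := main t ht0
    have hG := hpos (1 + t) (by linarith)
    have hGlt := hlt (1 + t) (by linarith)
    have hGh := hhalf (1 + t) (by linarith) (by linarith)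
    have hC := (hCg t ht0 ht1).2
    rw [← hG1] at hGlt hC
    have hq : (G1 - Gf p (1 + t)) ^ 2 / (G1 ^ 2 * Gf p (1 + t)) ≤ 2 * Cg ^ 2 * t ^ 2 := by
      rw [div_le_iff₀ (by positivity)]
      have h5 : (G1 - Gf p (1 + t)) ^ 2 ≤ (Cg * t) ^ 2 := by
        apply pow_le_pow_left₀ (by linarith) hC
      have h6 : (1 : ℝ) / 2 ≤ G1 ^ 2 * Gf p (1 + t) := by nlinarith [mul_self_nonneg (G1 - 1)]
      calc (G1 - Gf p (1 + t)) ^ 2 ≤ (Cg * t) ^ 2 := h5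
        _ = 2 * Cg ^ 2 * t ^ 2 * (1 / 2) := by ring
        _ ≤ 2 * Cg ^ 2 * t ^ 2 * (G1 ^ 2 * Gf p (1 + t)) := by gcongr
    rw [le_div_iff₀ (by positivity), he, epsE t ht0]
    have e7 : (1 / (K * G1 ^ 2) * ((Gf p (1 + t) - Gf p 1 + cc p * t) / t ^ 2) +
        (-(2 * Cg ^ 2 / K))) * t ^ 2 =
        ((Gf p (1 + t) - Gf p 1 + cc p * t) / G1 ^ 2 - 2 * Cg ^ 2 * t ^ 2) / K := by
      field_simp
      ring
    rw [e7]
    have h8 : ((Gf p (1 + t) - Gf p 1 + cc p * t) / G1 ^ 2 - 2 * Cg ^ 2 * t ^ 2) / K ≤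
        ((Gf p (1 + t) - Gf p 1 + cc p * t) / G1 ^ 2 -
          (G1 - Gf p (1 + t)) ^ 2 / (G1 ^ 2 * Gf p (1 + t))) / K := by
      apply div_le_div_of_nonneg_right _ hKp.le
      linarith
    linarith
  · intro η hη0 hη1
    obtain ⟨C, hC0, hC⟩ := hU η hη0 hη1
    refine ⟨C + K ^ 2 / (2 * lam), by positivity, ?_⟩
    intro t ht0 ht1
    obtain ⟨R, hR, hR2, hn, hle, he⟩ := main t ht0
    have hG := hpos (1 + t) (by linarith)
    have hCt := hC t ht0 ht1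
    have ht2 : t ^ 2 ≤ t ^ (2 - η) := by
      rw [← Real.rpow_natCast]
      exact Real.rpow_le_rpow_of_exponent_ge ht0 ht1 (by push_cast; linarith)
    have htp : 0 ≤ t ^ (2 - η) := by positivity
    have hq : 0 ≤ (G1 - Gf p (1 + t)) ^ 2 / (G1 ^ 2 * Gf p (1 + t)) := by positivity
    have hG1sq : 1 ≤ G1 ^ 2 := by nlinarith
    have hX : (Gf p (1 + t) - Gf p 1 + cc p * t) / G1 ^ 2 ≤ C * t ^ (2 - η) := by
      rw [div_le_iff₀ (by positivity)]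
      have : 0 ≤ C * t ^ (2 - η) := by positivity
      nlinarith
    have h9 : (K * t - ((Gf p (1 + t))⁻¹ - H1)) / K ≤ C * t ^ (2 - η) := by
      rw [div_le_iff₀ hKp, epsE t ht0]
      have : 0 ≤ C * t ^ (2 - η) := by positivity
      nlinarith
    have h10 : R ≤ K ^ 2 / (2 * lam) * t ^ (2 - η) := by
      calc R ≤ ((Gf p (1 + t))⁻¹ - H1) ^ 2 / (2 * lam) := hR2
        _ ≤ (K * t) ^ 2 / (2 * lam) := by gcongr
        _ = K ^ 2 / (2 * lam) * t ^ 2 := by ring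
        _ ≤ _ := by gcongr
    rw [he, add_mul]
    linarith

end

end Pool.Agent.Y938.RD
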