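import Pool.Agent.Y938.RD.Stm

set_option autoImplicit false

/-! RD5 (job 4874, helper657 for helper938): class estimate cls0 -/

namespace Pool.Agent.Y938.RD

open Filter Topology
open scoped ENNReal

noncomputable section

/-- Cauchy-Schwarz -/
theorem cs_tsum {ι : Type} (a b : ι → ℝ≥0∞) :
    (∑' i, a i * b i) ^ 2 ≤ (∑' i, a i ^ 2) * ∑' i, b i ^ 2 := by
  have h1 : ∑' i, a i * b i ≤
      (∑' i, a i ^ 2) ^ (1 / 2 : ℝ) * (∑' i, b i ^ 2) ^ (1 / 2 : ℝ) := by
    rw [ENNReal.tsum_eq_iSup_sum]
    refine iSup_le fun s => ?_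
    refine (ENNReal.inner_le_Lp_mul_Lq s a b Real.HolderConjugate.two_two).trans ?_
    refine mul_le_mul' (ENNReal.rpow_le_rpow ?_ (by norm_num))
      (ENNReal.rpow_le_rpow ?_ (by norm_num))
    · simp only [ENNReal.rpow_ofNat]
      exact ENNReal.sum_le_tsum s
    · simp only [ENNReal.rpow_ofNat]
      exact ENNReal.sum_le_tsum s
  refine (pow_le_pow_left' h1 2).trans (le_of_eq ?_)
  have h2 : ∀ t : ℝ≥0∞, (t ^ (1 / 2 : ℝ)) ^ 2 = t := by
    intro t
    rw [← ENNReal.rpow_natCast, ← ENNReal.rpow_mul]
    norm_num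
  rw [mul_pow, h2, h2]

open Classical in
/-- at most one term -/
theorem tsum_ite_le {α β : Type} {φ : α → β} (hφ : Function.Injective φ) (l : β) (c : ℝ≥0∞) :
    ∑' x, (if φ x = l then c else 0) ≤ c := by
  have h1 := ENNReal.tsum_comp_le_tsum_of_injective hφ (fun l' => if l' = l then c else 0)
  rw [tsum_ite_eq] at h1
  exact h1

theorem nf_inj (h : S_nf) : Function.Injective nf := by
  intro x y hxy
  rw [← h.2.1 x, ← h.2.1 y, hxy]

theorem ilist_length (l : List Lt) : (ilist l).length = l.length := by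
  simp [ilist]

/-- translation -/
theorem tsum_inv_mul (F : Gam → ℝ≥0∞) (x : Gam) : ∑' u : Gam, F (u⁻¹ * x) = ∑' v, F v := by
  have h1 := Equiv.tsum_eq ((Equiv.inv Gam).trans (Equiv.mulRight x)) F
  exact h1

open Classical in
theorem cls0_spec (h : S_nf) (h2 : S_mul) : S_cls0 := by
  intro k j f g hjk hf
  -- the two factors
  obtain ⟨F, hF⟩ : ∃ F : List Lt → ℝ≥0∞,
      F = fun P => ∑' u : Gam, (if (nf u).take j = P then f u ^ 2 else 0) := ⟨_, rfl⟩
  obtain ⟨Q, hQ⟩ : ∃ Q : List Lt → ℝ≥0∞,
      Q = fun D => ∑' v : Gam, (if (nf v).drop (k - j) = D then g v ^ 2 else 0) := ⟨_, rfl⟩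
  have hFs : ∑' P, F P = ∑' u : Gam, f u ^ 2 := by
    rw [hF]
    simp only
    rw [ENNReal.tsum_comm]
    refine tsum_congr fun u => ?_
    rw [tsum_ite_eq']
  have hQs : ∑' D, Q D = ∑' v : Gam, g v ^ 2 := by
    rw [hQ]
    simp only
    rw [ENNReal.tsum_comm]
    refine tsum_congr fun u => ?_
    rw [tsum_ite_eq']
  -- Cauchy-Schwarz
  have key : ∀ x : Gam, (∑' u : Gam, (if cls0 j u x then f u * g (u⁻¹ * x) else 0)) ^ 2 ≤
      F ((nf x).take j) * Q ((nf x).drop j) := by
    intro x
    have h3 : ∑' u : Gam, (if cls0 j u x then f u * g (u⁻¹ * x) else 0) ≤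
        ∑' u : Gam, (if (nf u).take j = (nf x).take j then f u else 0) *
          (if (nf (u⁻¹ * x)).drop (k - j) = (nf x).drop j then g (u⁻¹ * x) else 0) := by
      refine ENNReal.tsum_le_tsum fun u => ?_
      split_ifs with c1 c2 c3 c3
      · exact le_rfl
      · -- the lengths agree, so the normal form is known
        by_cases hk : (nf u).length = k
        · exfalso
          obtain ⟨P, C, D, hu, hx, hP, hCD⟩ := c1
          apply c3
          have r1 := h.1 u
          have r2 := h.1 x
          rw [hu] at r1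
          rw [hx] at r2
          have e1 := h2.1 P C D r1 r2 hCD
          rw [← hu, ← hx, h.2.1, h.2.1] at e1
          rw [e1, hx]
          have l1 : C.length = k - j := by
            rw [hu, List.length_append, hP] at hk
            omega
          rw [List.drop_left' (by rw [ilist_length, l1]), List.drop_left' hP]
        · rw [hf u hk]
          simp
      · exfalso
        obtain ⟨P, C, D, hu, hx, hP, -⟩ := c1
        apply c2
        rw [hu, hx, List.take_left' hP, List.take_left' hP]
      · exfalso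
        obtain ⟨P, C, D, hu, hx, hP, -⟩ := c1
        apply c2
        rw [hu, hx, List.take_left' hP, List.take_left' hP]
      all_goals exact bot_le
    refine (pow_le_pow_left' h3 2).trans ((cs_tsum _ _).trans ?_)
    refine mul_le_mul' (le_of_eq ?_) (le_of_eq ?_)
    · rw [hF]
      refine tsum_congr fun u => ?_
      split_ifs <;> simp
    · rw [hQ]
      have h4 := tsum_inv_mul (fun v => (if (nf v).drop (k - j) = (nf x).drop j then g v else 0) ^ 2) x
      rw [h4]
      refine tsum_congr fun u => ?_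
      split_ifs <;> simp
  calc ∑' x : Gam, (∑' u : Gam, (if cls0 j u x then f u * g (u⁻¹ * x) else 0)) ^ 2 ≤
        ∑' x : Gam, F ((nf x).take j) * Q ((nf x).drop j) := ENNReal.tsum_le_tsum key
    _ ≤ ∑' q : List Lt × List Lt, F q.1 * Q q.2 := by
        refine ENNReal.tsum_comp_le_tsum_of_injective
          (f := fun x : Gam => ((nf x).take j, (nf x).drop j)) (fun x y hxy => ?_)
          (fun q : List Lt × List Lt => F q.1 * Q q.2)
        apply nf_inj h
        rw [Prod.mk.injEq] at hxy
        rw [← List.take_append_drop j (nf x), ← List.take_append_drop j (nf y), hxy.1, hxy.2]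
    _ = (∑' P, F P) * ∑' D, Q D := by
        rw [ENNReal.tsum_prod (f := fun P D => F P * Q D), ← ENNReal.tsum_mul_right]
        refine tsum_congr fun P => ?_
        rw [ENNReal.tsum_mul_left]
    _ = _ := by rw [hFs, hQs]

end

end Pool.Agent.Y938.RD
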