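import Pool.Agent.Y938.RD.Cls0

set_option autoImplicit false

/-! RD6 (job 4875, helper657 for helper938): class estimate cls1 -/

namespace Pool.Agent.Y938.RD

open Filter Topology
open scoped ENNReal

noncomputable section

/-- the letter at the position `j` of the normal form -/
def hdl (j : ℕ) (u : Gam) : Lt := ((nf u).drop j).headD ⟨false, 1⟩

/-- square root of the weight -/
def vw (a : A) : ℝ≥0∞ := (1 + (sz a : ℝ≥0∞)) ^ 6

theorem vw_ne_zero (a : A) : vw a ≠ 0 := by
  unfold vw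
  exact pow_ne_zero _ (by simp)

theorem vw_ne_top (a : A) : vw a ≠ ⊤ := by
  unfold vw
  exact ENNReal.pow_ne_top (ENNReal.add_ne_top.2 ⟨ENNReal.one_ne_top, ENNReal.natCast_ne_top _⟩)

theorem vw_sq (a : A) : vw a ^ 2 = (1 + (sz a : ℝ≥0∞)) ^ 12 := by
  unfold vw
  rw [← pow_mul]

theorem tsum_ite_le' {α β : Type} {φ : α → β} (hφ : Function.Injective φ) (l : β) (c : ℝ≥0∞)
    [∀ x, Decidable (φ x = l)] : ∑' x, (if φ x = l then c else 0) ≤ c := by
  have h1 := tsum_ite_le hφ l c
  convert h1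

open Classical in
theorem cls1_spec (h : S_nf) (h2 : S_mul) (h3 : S_len) : S_cls1 := by
  intro k j f g hjk hf
  -- the two factors
  obtain ⟨F, hF⟩ : ∃ F : List Lt → Bool → ℝ≥0∞,
      F = fun P i => ∑' u : Gam, (if (nf u).take j = P ∧ (hdl j u).1 = i then
        (1 + (len u : ℝ≥0∞)) ^ 12 * f u ^ 2 else 0) := ⟨_, rfl⟩
  obtain ⟨Q, hQ⟩ : ∃ Q : Bool → A → List Lt → ℝ≥0∞,
      Q = fun i e D => ∑' v : Gam, ∑' b : A, (if (⟨i, b⟩ : Lt) :: D = (nf v).drop (k - j - 1) then
        ((1 + (sz (e * b⁻¹) : ℝ≥0∞)) ^ 12)⁻¹ * g v ^ 2 else 0) := ⟨_, rfl⟩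
  have hFs : ∑' P, ∑' i, F P i = ∑' u : Gam, (1 + (len u : ℝ≥0∞)) ^ 12 * f u ^ 2 := by
    rw [hF]
    simp only
    have e1 : ∀ P : List Lt, ∑' i : Bool, ∑' u : Gam, (if (nf u).take j = P ∧ (hdl j u).1 = i then
        (1 + (len u : ℝ≥0∞)) ^ 12 * f u ^ 2 else 0) =
        ∑' u : Gam, (if (nf u).take j = P then (1 + (len u : ℝ≥0∞)) ^ 12 * f u ^ 2 else 0) := by
      intro P
      rw [ENNReal.tsum_comm]
      refine tsum_congr fun u => ?_
      by_cases hP : (nf u).take j = P
      · simp only [hP, true_and, if_true]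
        rw [tsum_ite_eq']
      · simp [hP]
    rw [tsum_congr e1, ENNReal.tsum_comm]
    refine tsum_congr fun u => ?_
    rw [tsum_ite_eq']
  have hQs : ∀ i : Bool, ∑' e, ∑' D, Q i e D ≤ Kc * ∑' v : Gam, g v ^ 2 := by
    intro i
    rw [hQ]
    simp only
    have e1 : ∑' e : A, ∑' D : List Lt, ∑' v : Gam, ∑' b : A,
        (if (⟨i, b⟩ : Lt) :: D = (nf v).drop (k - j - 1) then
        ((1 + (sz (e * b⁻¹) : ℝ≥0∞)) ^ 12)⁻¹ * g v ^ 2 else 0) =
        ∑' v : Gam, ∑' b : A, ∑' D : List Lt, ∑' e : A,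
        (if (⟨i, b⟩ : Lt) :: D = (nf v).drop (k - j - 1) then
        ((1 + (sz (e * b⁻¹) : ℝ≥0∞)) ^ 12)⁻¹ * g v ^ 2 else 0) := by
      rw [ENNReal.tsum_comm]
      have e2 : ∀ D : List Lt, ∑' e : A, ∑' v : Gam, ∑' b : A,
          (if (⟨i, b⟩ : Lt) :: D = (nf v).drop (k - j - 1) then
          ((1 + (sz (e * b⁻¹) : ℝ≥0∞)) ^ 12)⁻¹ * g v ^ 2 else 0) =
          ∑' v : Gam, ∑' b : A, ∑' e : A, (if (⟨i, b⟩ : Lt) :: D = (nf v).drop (k - j - 1) then
          ((1 + (sz (e * b⁻¹) : ℝ≥0∞)) ^ 12)⁻¹ * g v ^ 2 else 0) := by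
        intro D
        rw [ENNReal.tsum_comm]
        refine tsum_congr fun v => ?_
        rw [ENNReal.tsum_comm]
      rw [tsum_congr e2, ENNReal.tsum_comm]
      refine tsum_congr fun v => ?_
      rw [ENNReal.tsum_comm]
    rw [e1, ← ENNReal.tsum_mul_left]
    refine ENNReal.tsum_le_tsum fun v => ?_
    have e3 : ∀ (b : A) (D : List Lt), ∑' e : A, (if (⟨i, b⟩ : Lt) :: D = (nf v).drop (k - j - 1) then
        ((1 + (sz (e * b⁻¹) : ℝ≥0∞)) ^ 12)⁻¹ * g v ^ 2 else 0) =
        if (⟨i, b⟩ : Lt) :: D = (nf v).drop (k - j - 1) then Kc * g v ^ 2 else 0 := by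
      intro b D
      split_ifs with c
      · rw [ENNReal.tsum_mul_right]
        congr 1
        exact Equiv.tsum_eq (Equiv.mulRight b⁻¹) (fun a : A => ((1 + (sz a : ℝ≥0∞)) ^ 12)⁻¹)
      · simp
    have e4 : ∑' b : A, ∑' D : List Lt, ∑' e : A,
        (if (⟨i, b⟩ : Lt) :: D = (nf v).drop (k - j - 1) then
        ((1 + (sz (e * b⁻¹) : ℝ≥0∞)) ^ 12)⁻¹ * g v ^ 2 else 0) =
        ∑' q : A × List Lt, (if (⟨i, q.1⟩ : Lt) :: q.2 = (nf v).drop (k - j - 1) then
          Kc * g v ^ 2 else 0) := by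
      rw [ENNReal.tsum_prod (f := fun (b : A) (D : List Lt) =>
        if (⟨i, b⟩ : Lt) :: D = (nf v).drop (k - j - 1) then Kc * g v ^ 2 else 0)]
      exact tsum_congr fun b => tsum_congr fun D => e3 b D
    rw [e4]
    refine tsum_ite_le' (φ := fun q : A × List Lt => (⟨i, q.1⟩ : Lt) :: q.2) ?_ _ _
    rintro ⟨b, D⟩ ⟨b', D'⟩ hq
    simp only [List.cons.injEq, Sigma.mk.injEq, heq_eq_eq, true_and] at hq
    exact Prod.ext hq.1 hq.2
  -- Cauchy-Schwarz
  have cs : ∀ (x : Gam) (P D : List Lt) (i : Bool) (e : A), nf x = P ++ (⟨i, e⟩ : Lt) :: D →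
      P.length = j →
      (∑' u : Gam, (if cls1 j u x then f u * g (u⁻¹ * x) else 0)) ^ 2 ≤ F P i * Q i e D := by
    intro x P D i e hx hP
    -- decomposition of the elements of the class
    have dec : ∀ u, cls1 j u x → ∃ (C : List Lt) (a : A), nf u = P ++ (⟨i, a⟩ : Lt) :: C ∧ a ≠ e := by
      rintro u ⟨P', C, D', i', a, e', hu, hx', hP', hae⟩
      rw [hx] at hx'
      obtain ⟨h5, h6⟩ := List.append_inj hx' (by rw [hP, hP'])
      simp only [List.cons.injEq, Sigma.mk.injEq] at h6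
      obtain ⟨⟨h7, h8⟩, h9⟩ := h6
      subst h7
      rw [heq_eq_eq] at h8
      subst h8
      exact ⟨C, a, by rw [hu, h5], hae⟩
    have hhd : ∀ (u : Gam) (C : List Lt) (a : A), nf u = P ++ (⟨i, a⟩ : Lt) :: C →
        hdl j u = ⟨i, a⟩ := by
      intro u C a hu
      unfold hdl
      rw [hu, List.drop_left' hP]
      rfl
    obtain ⟨b1, hb1⟩ : ∃ b1 : Gam → ℝ≥0∞, b1 = fun u =>
        if (nf u).take j = P ∧ (hdl j u).1 = i then
          vw (if cls1 j u x then (hdl j u).2 else 1) * f u else 0 := ⟨_, rfl⟩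
    obtain ⟨b2, hb2⟩ : ∃ b2 : Gam → ℝ≥0∞, b2 = fun u =>
        if cls1 j u x ∧ (nf u).length = k then (vw (hdl j u).2)⁻¹ * g (u⁻¹ * x) else 0 := ⟨_, rfl⟩
    have h4 : ∑' u : Gam, (if cls1 j u x then f u * g (u⁻¹ * x) else 0) ≤ ∑' u, b1 u * b2 u := by
      refine ENNReal.tsum_le_tsum fun u => ?_
      by_cases c1 : cls1 j u x
      · by_cases hk : (nf u).length = k
        · obtain ⟨C, a, hu, -⟩ := dec u c1
          have h5 := hhd u C a hu
          have h6 : (nf u).take j = P := by rw [hu, List.take_left' hP]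
          rw [hb1, hb2]
          simp only [c1, hk, h6, h5, and_self, if_true]
          refine le_of_eq ?_
          calc f u * g (u⁻¹ * x) = 1 * f u * g (u⁻¹ * x) := by rw [one_mul]
            _ = (vw a * (vw a)⁻¹) * f u * g (u⁻¹ * x) := by
                rw [ENNReal.mul_inv_cancel (vw_ne_zero a) (vw_ne_top a)]
            _ = _ := by ring
        · rw [hf u hk]
          simp
      · rw [if_neg c1]
        exact bot_le
    refine (pow_le_pow_left' h4 2).trans ((cs_tsum _ _).trans (mul_le_mul' ?_ ?_))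
    · rw [hF, hb1]
      refine ENNReal.tsum_le_tsum fun u => ?_
      by_cases c2 : (nf u).take j = P ∧ (hdl j u).1 = i
      · simp only [c2, and_self, if_true]
        rw [mul_pow, vw_sq]
        refine mul_le_mul' (pow_le_pow_left' (add_le_add le_rfl ?_) 12) le_rfl
        have h6 : sz (if cls1 j u x then (hdl j u).2 else 1) ≤ len u := by
          split_ifs with c1
          · obtain ⟨C, a, hu, -⟩ := dec u c1
            rw [hhd u C a hu]
            exact h3.2.2.2 u ⟨i, a⟩ (by rw [hu]; simp)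
          · have : sz (1 : A) = 0 := by
              unfold sz
              refine Finset.sum_eq_zero fun j _ => ?_
              rw [toAdd_one]
              rfl
            rw [this]
            exact Nat.zero_le _
        exact_mod_cast h6
      · simp [c2]
    · -- the second factor
      have h5 : ∑' u, b2 u ^ 2 ≤ ∑' u : Gam, (fun v : Gam => ∑' b : A,
          (if (⟨i, b⟩ : Lt) :: D = (nf v).drop (k - j - 1) then
            ((1 + (sz (e * b⁻¹) : ℝ≥0∞)) ^ 12)⁻¹ * g v ^ 2 else 0)) (u⁻¹ * x) := by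
        refine ENNReal.tsum_le_tsum fun u => ?_
        by_cases c2 : cls1 j u x ∧ (nf u).length = k
        · have hb : b2 u = (vw (hdl j u).2)⁻¹ * g (u⁻¹ * x) := by
            rw [hb2]
            simp only [c2, and_self, if_true]
          obtain ⟨c1, hk⟩ := c2
          obtain ⟨C, a, hu, hae⟩ := dec u c1
          have r1 := h.1 u
          have r2 := h.1 x
          rw [hu] at r1
          rw [hx] at r2
          have e1 := h2.2 P C D i a e r1 r2 hae
          rw [← hu, ← hx, h.2.1, h.2.1] at e1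
          have l1 : (ilist C).length = k - j - 1 := by
            rw [hu, List.length_append, List.length_cons, hP] at hk
            rw [ilist_length]
            omega
          have e2 : (nf (u⁻¹ * x)).drop (k - j - 1) = (⟨i, a⁻¹ * e⟩ : Lt) :: D := by
            rw [e1, List.drop_left' l1]
          have e3 : e * (a⁻¹ * e)⁻¹ = a := by
            rw [mul_inv_rev, inv_inv, ← mul_assoc, mul_inv_cancel, one_mul]
          have e5 : ((vw a)⁻¹) ^ 2 = ((1 + (sz a : ℝ≥0∞)) ^ 12)⁻¹ := by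
            rw [← ENNReal.inv_pow, vw_sq]
          refine le_trans (le_of_eq ?_) (ENNReal.le_tsum (a⁻¹ * e))
          rw [if_pos e2.symm, hb, hhd u C a hu, mul_pow, e3]
          exact congrArg (fun t => t * g (u⁻¹ * x) ^ 2) e5
        · have hb : b2 u = 0 := by
            rw [hb2]
            simp only
            rw [if_neg c2]
          rw [hb]
          simp
      refine h5.trans (le_of_eq ?_)
      rw [hQ]
      exact tsum_inv_mul (fun v : Gam => ∑' b : A,
          (if (⟨i, b⟩ : Lt) :: D = (nf v).drop (k - j - 1) then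
            ((1 + (sz (e * b⁻¹) : ℝ≥0∞)) ^ 12)⁻¹ * g v ^ 2 else 0)) x
  -- summation
  have key : ∀ x : Gam, (∑' u : Gam, (if cls1 j u x then f u * g (u⁻¹ * x) else 0)) ^ 2 ≤
      ∑' P : List Lt, ∑' i : Bool, ∑' e : A, ∑' D : List Lt,
        (if nf x = P ++ (⟨i, e⟩ : Lt) :: D then F P i * Q i e D else 0) := by
    intro x
    by_cases hex : ∃ u, cls1 j u x
    · obtain ⟨u, P, C, D, i, a, e, -, hx, hP, -⟩ := hex
      refine (cs x P D i e hx hP).trans ?_
      have h4 : F P i * Q i e D = (if nf x = P ++ (⟨i, e⟩ : Lt) :: D then F P i * Q i e D else 0) := by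
        rw [if_pos hx]
      rw [h4]
      refine (ENNReal.le_tsum (f := fun D : List Lt =>
        (if nf x = P ++ (⟨i, e⟩ : Lt) :: D then F P i * Q i e D else 0)) D).trans ?_
      refine (ENNReal.le_tsum (f := fun e : A => ∑' D : List Lt,
        (if nf x = P ++ (⟨i, e⟩ : Lt) :: D then F P i * Q i e D else 0)) e).trans ?_
      refine (ENNReal.le_tsum (f := fun i : Bool => ∑' e : A, ∑' D : List Lt,
        (if nf x = P ++ (⟨i, e⟩ : Lt) :: D then F P i * Q i e D else 0)) i).trans ?_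
      exact ENNReal.le_tsum (f := fun P : List Lt => ∑' i : Bool, ∑' e : A, ∑' D : List Lt,
        (if nf x = P ++ (⟨i, e⟩ : Lt) :: D then F P i * Q i e D else 0)) P
    · push Not at hex
      have h4 : ∑' u : Gam, (if cls1 j u x then f u * g (u⁻¹ * x) else 0) = 0 := by
        rw [ENNReal.tsum_eq_zero]
        intro u
        rw [if_neg (hex u)]
      rw [h4]
      simp
  refine (ENNReal.tsum_le_tsum key).trans ?_
  have sw : ∑' x : Gam, ∑' P : List Lt, ∑' i : Bool, ∑' e : A, ∑' D : List Lt,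
        (if nf x = P ++ (⟨i, e⟩ : Lt) :: D then F P i * Q i e D else 0) =
      ∑' P : List Lt, ∑' i : Bool, ∑' e : A, ∑' D : List Lt, ∑' x : Gam,
        (if nf x = P ++ (⟨i, e⟩ : Lt) :: D then F P i * Q i e D else 0) := by
    rw [ENNReal.tsum_comm]
    refine tsum_congr fun P => ?_
    rw [ENNReal.tsum_comm]
    refine tsum_congr fun i => ?_
    rw [ENNReal.tsum_comm]
    refine tsum_congr fun e => ?_
    rw [ENNReal.tsum_comm]
  rw [sw]
  calc ∑' P : List Lt, ∑' i : Bool, ∑' e : A, ∑' D : List Lt, ∑' x : Gam,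
        (if nf x = P ++ (⟨i, e⟩ : Lt) :: D then F P i * Q i e D else 0) ≤
      ∑' P : List Lt, ∑' i : Bool, ∑' e : A, ∑' D : List Lt, F P i * Q i e D :=
        ENNReal.tsum_le_tsum fun P => ENNReal.tsum_le_tsum fun i => ENNReal.tsum_le_tsum fun e =>
          ENNReal.tsum_le_tsum fun D => tsum_ite_le' (nf_inj h) _ _
    _ = ∑' P : List Lt, ∑' i : Bool, F P i * ∑' e : A, ∑' D : List Lt, Q i e D := by
        refine tsum_congr fun P => tsum_congr fun i => ?_
        rw [← ENNReal.tsum_mul_left]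
        refine tsum_congr fun e => ?_
        rw [ENNReal.tsum_mul_left]
    _ ≤ ∑' P : List Lt, ∑' i : Bool, F P i * (Kc * ∑' v : Gam, g v ^ 2) :=
        ENNReal.tsum_le_tsum fun P => ENNReal.tsum_le_tsum fun i => mul_le_mul' le_rfl (hQs i)
    _ = (∑' P : List Lt, ∑' i : Bool, F P i) * (Kc * ∑' v : Gam, g v ^ 2) := by
        rw [← ENNReal.tsum_mul_right]
        refine tsum_congr fun P => ?_
        rw [ENNReal.tsum_mul_right]
    _ = _ := by
        rw [hFs]
        ring

end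

end Pool.Agent.Y938.RD
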