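import Pool.Agent.Y938.RD.Stm

set_option autoImplicit false

/-! Project RD: the second order term of `G` at `1` (job of helper938, by helper302). -/

namespace Pool.Agent.Y938.RD

open Filter Topology

noncomputable section

namespace E2aux

theorem p_le {p : ℕ → ℝ} (h : PB p) (n : ℕ) : p n ≤ 1 / ((n : ℝ) + 1) ^ 3 := by
  rcases Nat.even_or_odd' n with ⟨m, rfl | rfl⟩
  · have := h.le m
    push_cast
    exact this
  · rw [h.odd m]; positivity

theorem summable_sq : Summable (fun n : ℕ => 1 / ((n : ℝ) + 1) ^ 2) := by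
  have := (summable_nat_add_iff 1).mpr (Real.summable_one_div_nat_pow.mpr (one_lt_two))
  refine this.congr fun n => ?_
  push_cast; rfl

theorem summable_mul {p : ℕ → ℝ} (h : PB p) : Summable (fun n : ℕ => ((n : ℝ) + 1) * p n) := by
  refine Summable.of_nonneg_of_le (fun n => mul_nonneg (by positivity) (h.nonneg n)) (fun n => ?_) summable_sq
  have h1 := p_le h n
  have hn : (0 : ℝ) < (n : ℝ) + 1 := by positivity
  calc ((n : ℝ) + 1) * p n ≤ ((n : ℝ) + 1) * (1 / ((n : ℝ) + 1) ^ 3) := by gcongr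
    _ = 1 / ((n : ℝ) + 1) ^ 2 := by field_simp

theorem summable_p {p : ℕ → ℝ} (h : PB p) : Summable p := by
  refine Summable.of_nonneg_of_le h.nonneg (fun n => ?_) (summable_mul h)
  have := h.nonneg n
  nlinarith [mul_nonneg (Nat.cast_nonneg (α := ℝ) n) this]

theorem summable_div {p : ℕ → ℝ} (h : PB p) (s : ℝ) (hs : 1 ≤ s) :
    Summable (fun n : ℕ => p n / s ^ (n + 1)) := by
  refine Summable.of_nonneg_of_le (fun n => div_nonneg (h.nonneg n) (by positivity)) (fun n => ?_) (summable_p h)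
  exact div_le_self (h.nonneg n) (one_le_pow₀ hs)

/-- The remainder of the `N`-th term. -/
def g (N : ℕ) (t : ℝ) : ℝ := 1 / (1 + t) ^ N - 1 + N * t

theorem g_nonneg (N : ℕ) {t : ℝ} (ht : 0 < t) : 0 ≤ g N t := by
  have h1 : (0 : ℝ) < 1 + t := by linarith
  have h2 : 1 + (N : ℝ) * (1 / (1 + t) - 1) ≤ (1 + (1 / (1 + t) - 1)) ^ N := by
    apply one_add_mul_le_pow
    have : (0 : ℝ) < 1 / (1 + t) := by positivity
    linarith
  have h3 : (1 + (1 / (1 + t) - 1)) ^ N = 1 / (1 + t) ^ N := by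
    rw [show (1 : ℝ) + (1 / (1 + t) - 1) = 1 / (1 + t) by ring, one_div_pow]
  have h4 : 1 / (1 + t) - 1 ≥ -t := by
    rw [ge_iff_le, le_sub_iff_add_le, le_div_iff₀ h1]
    nlinarith
  have h5 : (N : ℝ) * (1 / (1 + t) - 1) ≥ N * (-t) := mul_le_mul_of_nonneg_left h4 (Nat.cast_nonneg _)
  unfold g
  rw [h3] at h2
  linarith

theorem g_le_lin (N : ℕ) {t : ℝ} (ht : 0 < t) : g N t ≤ N * t := by
  have h1 : (1 : ℝ) ≤ (1 + t) ^ N := one_le_pow₀ (by linarith)
  have h2 : 1 / (1 + t) ^ N ≤ 1 := by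
    rw [div_le_one (by positivity)]; exact h1
  unfold g
  linarith

theorem g_le_sq (N : ℕ) {t : ℝ} (ht : 0 < t) : g N t ≤ (N * t) ^ 2 := by
  have h1 : 1 + (N : ℝ) * t ≤ (1 + t) ^ N := one_add_mul_le_pow (by linarith) N
  have hx : (0 : ℝ) ≤ N * t := by positivity
  have h2 : 1 / (1 + t) ^ N ≤ 1 / (1 + N * t) := one_div_le_one_div_of_le (by positivity) h1
  have h3 : 1 / (1 + (N : ℝ) * t) ≤ 1 - N * t + (N * t) ^ 2 := by
    rw [div_le_iff₀ (by positivity)]
    nlinarith [pow_nonneg hx 3]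
  unfold g
  linarith

theorem g_le_rpow (N : ℕ) (hN : 0 < N) {t η : ℝ} (ht : 0 < t) (h0 : 0 < η) (h1 : η < 1) :
    g N t ≤ ((N : ℝ) * t) ^ (2 - η) := by
  have hx : (0 : ℝ) < N * t := by positivity
  rcases le_total ((N : ℝ) * t) 1 with h | h
  · refine (g_le_sq N ht).trans ?_
    rw [← Real.rpow_natCast]
    exact Real.rpow_le_rpow_of_exponent_ge hx h (by push_cast; linarith)
  · refine (g_le_lin N ht).trans ?_
    calc (N : ℝ) * t = ((N : ℝ) * t) ^ (1 : ℝ) := (Real.rpow_one _).symm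
      _ ≤ _ := Real.rpow_le_rpow_of_exponent_le h (by linarith)

theorem exp_lower {x : ℝ} (h0 : 0 ≤ x) (h1 : x ≤ 1) : 1 - x + x ^ 2 / 4 ≤ Real.exp (-x) := by
  have h := Real.exp_bound (x := -x) (by rw [abs_neg, abs_of_nonneg h0]; exact h1) (n := 3) (by norm_num)
  rw [abs_neg, abs_of_nonneg h0] at h
  simp only [Finset.sum_range_succ, Finset.sum_range_zero, Nat.factorial] at h
  have h2 := (abs_le.mp h).1
  norm_num at h2
  have h3 : x ^ 3 ≤ x ^ 2 := by nlinarith [sq_nonneg x]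
  nlinarith [sq_nonneg x]

theorem g_lower (N : ℕ) {t : ℝ} (ht : 0 < t) (h : (N : ℝ) * t ≤ 1) : ((N : ℝ) * t) ^ 2 / 4 ≤ g N t := by
  have h1 : (1 + t) ^ N ≤ Real.exp (N * t) := by
    rw [Real.exp_nat_mul]
    have := Real.add_one_le_exp t
    gcongr
    linarith
  have h2 : Real.exp (-(N * t)) ≤ 1 / (1 + t) ^ N := by
    rw [Real.exp_neg, ← one_div]
    exact one_div_le_one_div_of_le (by positivity) h1
  have h3 := exp_lower (x := N * t) (by positivity) h
  unfold g
  linarith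

theorem eq_tsum {p : ℕ → ℝ} (h : PB p) {t : ℝ} (ht : 0 < t) :
    Summable (fun n : ℕ => p n * g (n + 1) t) ∧
      Gf p (1 + t) - Gf p 1 + cc p * t = ∑' n : ℕ, p n * g (n + 1) t := by
  have s1 := summable_div h (1 + t) (by linarith)
  have s2 := summable_div h 1 le_rfl
  have s3 := (summable_mul h).mul_right t
  have e : (fun n : ℕ => p n * g (n + 1) t) =
      fun n : ℕ => (p n / (1 + t) ^ (n + 1) - p n / 1 ^ (n + 1)) + ((n : ℝ) + 1) * p n * t := by
    funext n
    unfold g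
    push_cast
    rw [one_pow]
    ring
  refine ⟨?_, ?_⟩
  · rw [e]; exact (s1.sub s2).add s3
  · rw [e, (s1.sub s2).tsum_add s3, s1.tsum_sub s2, tsum_mul_right]
    rfl

theorem partial_atTop {p : ℕ → ℝ} (h : PB p) :
    Tendsto (fun M : ℕ => ∑ n ∈ Finset.range M, p n * ((n : ℝ) + 1) ^ 2) atTop atTop := by
  have hnn : ∀ n : ℕ, 0 ≤ p n * ((n : ℝ) + 1) ^ 2 := fun n => mul_nonneg (h.nonneg n) (by positivity)
  rw [← not_summable_iff_tendsto_nat_atTop_of_nonneg hnn]
  intro hs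
  have h2 : Summable (fun m : ℕ => p (2 * m) * (((2 * m : ℕ) : ℝ) + 1) ^ 2) :=
    hs.comp_injective (i := fun m : ℕ => 2 * m) (fun a b hab => by simpa using hab)
  have h3 : Summable (fun m : ℕ => 1 / 16 * (1 / (m : ℝ))) := by
    refine Summable.of_nonneg_of_le (fun m => by positivity) (fun m => ?_) h2
    rcases Nat.eq_zero_or_pos m with rfl | hm
    · simp only [Nat.cast_zero, div_zero, mul_zero]
      exact mul_nonneg (h.nonneg _) (by positivity)
    · have h4 := h.ge m hm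
      have hm' : (0 : ℝ) < m := by exact_mod_cast hm
      calc 1 / 16 * (1 / (m : ℝ)) = 1 / (64 * (m : ℝ) ^ 3) * (2 * m) ^ 2 := by field_simp; norm_num
        _ ≤ p (2 * m) * (2 * (m : ℝ)) ^ 2 := by gcongr
        _ ≤ p (2 * m) * (((2 * m : ℕ) : ℝ) + 1) ^ 2 := by
            have := h.nonneg (2 * m)
            gcongr
            push_cast
            linarith
  have h5 : Summable (fun m : ℕ => 1 / (m : ℝ)) := by
    have := h3.mul_left 16
    refine this.congr fun m => ?_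
    ring
  exact Real.not_summable_one_div_natCast h5

end E2aux

open E2aux

theorem E2_spec : S_E2 := by
  intro p h
  refine ⟨?_, ?_⟩
  · rw [tendsto_atTop]
    intro B
    obtain ⟨M, hM⟩ := ((tendsto_atTop.mp (partial_atTop h)) (4 * B)).exists
    have hpos : (0 : ℝ) < 1 / ((M : ℝ) + 1) := by positivity
    filter_upwards [Ioc_mem_nhdsGT hpos] with t ht
    obtain ⟨ht0, ht1⟩ := ht
    obtain ⟨hs, he⟩ := eq_tsum h ht0
    rw [he, le_div_iff₀ (by positivity)]
    have h1 : ∑ n ∈ Finset.range M, p n * g (n + 1) t ≤ ∑' n : ℕ, p n * g (n + 1) t :=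
      hs.sum_le_tsum _ (fun n _ => mul_nonneg (h.nonneg n) (g_nonneg _ ht0))
    have h2 : ∑ n ∈ Finset.range M, p n * ((n : ℝ) + 1) ^ 2 * (t ^ 2 / 4) ≤
        ∑ n ∈ Finset.range M, p n * g (n + 1) t := by
      apply Finset.sum_le_sum
      intro n hn
      rw [Finset.mem_range] at hn
      have hn' : ((n + 1 : ℕ) : ℝ) * t ≤ 1 := by
        have h3 : ((n + 1 : ℕ) : ℝ) ≤ (M : ℝ) + 1 := by
          have : ((n + 1 : ℕ) : ℝ) ≤ (M : ℝ) := by exact_mod_cast hn
          linarith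
        calc ((n + 1 : ℕ) : ℝ) * t ≤ ((M : ℝ) + 1) * (1 / ((M : ℝ) + 1)) := by gcongr
          _ = 1 := by field_simp
      have h4 := g_lower (n + 1) ht0 hn'
      calc p n * ((n : ℝ) + 1) ^ 2 * (t ^ 2 / 4) = p n * ((((n + 1 : ℕ) : ℝ) * t) ^ 2 / 4) := by
            push_cast; ring
        _ ≤ p n * g (n + 1) t := mul_le_mul_of_nonneg_left h4 (h.nonneg n)
    rw [← Finset.sum_mul] at h2
    calc B * t ^ 2 = 4 * B * (t ^ 2 / 4) := by ring
      _ ≤ (∑ n ∈ Finset.range M, p n * ((n : ℝ) + 1) ^ 2) * (t ^ 2 / 4) := by gcongr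
      _ ≤ _ := h2.trans h1
  · intro η h0 h1
    have hsum : Summable (fun n : ℕ => p n * ((n : ℝ) + 1) ^ (2 - η)) := by
      have hb : Summable (fun n : ℕ => 1 / ((n : ℝ) + 1) ^ (1 + η)) := by
        have := (summable_nat_add_iff 1).mpr (Real.summable_one_div_nat_rpow.mpr (show 1 < 1 + η by linarith))
        refine this.congr fun n => ?_
        push_cast; rfl
      refine Summable.of_nonneg_of_le (fun n => mul_nonneg (h.nonneg n) (by positivity)) (fun n => ?_) hb
      have hn : (0 : ℝ) < (n : ℝ) + 1 := by positivity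
      calc p n * ((n : ℝ) + 1) ^ (2 - η) ≤ 1 / ((n : ℝ) + 1) ^ 3 * ((n : ℝ) + 1) ^ (2 - η) := by
            have := p_le h n
            gcongr
        _ = 1 / ((n : ℝ) + 1) ^ (1 + η) := by
            rw [one_div, one_div, ← Real.rpow_natCast, ← Real.rpow_neg hn.le, ← Real.rpow_neg hn.le,
              ← Real.rpow_add hn]
            congr 1
            push_cast; ring
    refine ⟨∑' n : ℕ, p n * ((n : ℝ) + 1) ^ (2 - η),
      tsum_nonneg (fun n => mul_nonneg (h.nonneg n) (by positivity)), ?_⟩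
    intro t ht0 ht1
    obtain ⟨hs, he⟩ := eq_tsum h ht0
    rw [he, ← tsum_mul_right]
    refine hs.tsum_le_tsum (fun n => ?_) (hsum.mul_right _)
    have h4 := g_le_rpow (n + 1) (Nat.succ_pos n) ht0 h0 h1
    calc p n * g (n + 1) t ≤ p n * (((n + 1 : ℕ) : ℝ) * t) ^ (2 - η) := mul_le_mul_of_nonneg_left h4 (h.nonneg n)
      _ = p n * ((n : ℝ) + 1) ^ (2 - η) * t ^ (2 - η) := by
          rw [Real.mul_rpow (by positivity) ht0.le]
          push_cast; ring

end

end Pool.Agent.Y938.RD
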