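import Pool.Agent.Y938.RD.Defs

set_option autoImplicit false

/-! Project RD (frozen S19332): statements of the steps. -/

namespace Pool.Agent.Y938.RD

open Filter Topology
open scoped ENNReal

noncomputable section

/-! ### A. Normal forms and lengths -/

/-- Normal forms. -/
def S_nf : Prop :=
  (∀ x : Gam, IsRed (nf x)) ∧ (∀ x : Gam, val (nf x) = x) ∧ (∀ l : List Lt, IsRed l → nf (val l) = l)

/-- Length function. -/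
def S_len : Prop :=
  len 1 = 0 ∧ (∀ (i : Bool) (a : A) (x : Gam), len (inc i a * x) ≤ sz a + len x) ∧
  (∀ x : Gam, (nf x).length ≤ len x) ∧ (∀ x : Gam, ∀ p ∈ nf x, sz p.2 ≤ len x)

/-- The generators generate, and the word length is at least `len`. -/
def S_gen : Prop :=
  Subgroup.closure (gens : Set Gam) = ⊤ ∧
  ∀ x : Gam, len x ≤ sInf {n : ℕ | ∃ l : List Gam, l.length = n ∧
      (∀ y ∈ l, y ∈ gens ∨ y⁻¹ ∈ gens) ∧ l.prod = x}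

/-- Inverse of a list of letters. -/
def ilist (l : List Lt) : List Lt := (l.map (fun p => (⟨p.1, p.2⁻¹⟩ : Lt))).reverse

/-- Normal form of `u⁻¹ x`. -/
def S_mul : Prop :=
  (∀ P C D : List Lt, IsRed (P ++ C) → IsRed (P ++ D) →
    (∀ p ∈ C.head?, ∀ q ∈ D.head?, p.1 ≠ q.1) →
    nf ((val (P ++ C))⁻¹ * val (P ++ D)) = ilist C ++ D) ∧
  (∀ (P C D : List Lt) (i : Bool) (a e : A), IsRed (P ++ (⟨i, a⟩ : Lt) :: C) → IsRed (P ++ (⟨i, e⟩ : Lt) :: D) →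
    a ≠ e → nf ((val (P ++ (⟨i, a⟩ : Lt) :: C))⁻¹ * val (P ++ (⟨i, e⟩ : Lt) :: D)) =
      ilist C ++ (⟨i, a⁻¹ * e⟩ : Lt) :: D)

/-! ### B. Rapid decay of the free product -/

/-- `u` and `x` have common prefix of length `j` and then letters of different factors (or an end). -/
def cls0 (j : ℕ) (u x : Gam) : Prop :=
  ∃ P C D : List Lt, nf u = P ++ C ∧ nf x = P ++ D ∧ P.length = j ∧
    (∀ p ∈ C.head?, ∀ q ∈ D.head?, p.1 ≠ q.1)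

/-- `u` and `x` have common prefix of length `j` and then different letters of the same factor. -/
def cls1 (j : ℕ) (u x : Gam) : Prop :=
  ∃ (P C D : List Lt) (i : Bool) (a e : A), nf u = P ++ (⟨i, a⟩ : Lt) :: C ∧ nf x = P ++ (⟨i, e⟩ : Lt) :: D ∧
    P.length = j ∧ a ≠ e

/-- Every pair is in one of the classes. -/
def S_cls : Prop := ∀ u x : Gam, ∃ j : ℕ, j ≤ (nf u).length ∧ (cls0 j u x ∨ cls1 j u x)

open Classical in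
/-- Estimate of the class `cls0 j`. -/
def S_cls0 : Prop :=
  ∀ (k j : ℕ) (f g : Gam → ℝ≥0∞), j ≤ k → (∀ u, (nf u).length ≠ k → f u = 0) →
    ∑' x : Gam, (∑' u : Gam, (if cls0 j u x then f u * g (u⁻¹ * x) else 0)) ^ 2 ≤
      (∑' u : Gam, f u ^ 2) * (∑' v : Gam, g v ^ 2)

open Classical in
/-- Estimate of the class `cls1 j`. -/
def S_cls1 : Prop :=
  ∀ (k j : ℕ) (f g : Gam → ℝ≥0∞), j ≤ k → (∀ u, (nf u).length ≠ k → f u = 0) →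
    ∑' x : Gam, (∑' u : Gam, (if cls1 j u x then f u * g (u⁻¹ * x) else 0)) ^ 2 ≤
      Kc * (∑' u : Gam, (1 + (len u : ℝ≥0∞)) ^ 12 * f u ^ 2) * (∑' v : Gam, g v ^ 2)

/-- Estimate for functions supported on elements of block length `k`. -/
def S_key : Prop :=
  ∀ (k : ℕ) (f g : Gam → ℝ≥0∞), (∀ u, (nf u).length ≠ k → f u = 0) →
    ∑' x : Gam, (∑' u : Gam, f u * g (u⁻¹ * x)) ^ 2 ≤
      4 * ((k : ℝ≥0∞) + 1) ^ 2 * (Kc * (∑' u : Gam, (1 + (len u : ℝ≥0∞)) ^ 12 * f u ^ 2) * (∑' v : Gam, g v ^ 2))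

/-- The constant is finite and at least one. -/
def S_Kc : Prop := Kc ≠ ⊤ ∧ 1 ≤ Kc

/-- Rapid decay in `[0,∞]`. -/
def S_RD : Prop :=
  ∃ C : ℝ≥0∞, C ≠ ⊤ ∧ ∀ f g : Gam → ℝ≥0∞,
    ∑' x : Gam, (∑' u : Gam, f u * g (u⁻¹ * x)) ^ 2 ≤
      C * (∑' u : Gam, (1 + (len u : ℝ≥0∞)) ^ 16 * f u ^ 2) * (∑' v : Gam, g v ^ 2)

/-- Rapid decay in the form of the frozen statement. -/
def S_RDfin : Prop :=
  ∃ S : Finset Gam, Subgroup.closure (S : Set Gam) = ⊤ ∧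
        ∃ (C : ℝ) (s : ℕ), ∀ f g : Gam →₀ ℝ, ∀ T : Finset Gam,
          ∑ x ∈ T, (f.sum (fun y a => a * g (y⁻¹ * x))) ^ 2 ≤
            C * (f.sum (fun x a => a ^ 2 *
                  (1 + ((sInf {n : ℕ | ∃ l : List Gam, l.length = n ∧
                      (∀ y ∈ l, y ∈ S ∨ y⁻¹ ∈ S) ∧ l.prod = x} : ℕ) : ℝ)) ^ (2 * s)))
              * g.sum (fun _ a => a ^ 2)

/-! ### C. General facts on convolution operators -/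

/-- Return probabilities are nonnegative. -/
def S_ret : Prop :=
  ∀ (G : Type) [Group G] (ν : G →₀ ℝ), (∀ x, 0 ≤ ν x) → ∀ n, 0 ≤ ret ν n

/-- Green functions. -/
def S_green : Prop :=
  ∀ (G : Type) [Group G] (ν : G →₀ ℝ), (∀ x, 0 ≤ ν x) → ν.sum (fun _ a => a) = 1 →
    ∀ (X : ℝ) (U : G → ℝ), 0 < X → (∀ x, 0 ≤ U x) →
      (∀ x, X * U x = Tn ν U x + Set.indicator ({1} : Set G) (fun _ => (1 : ℝ)) x) →
      (∀ N : ℕ, ∑ n ∈ Finset.range N, ret ν n / X ^ (n + 1) ≤ U 1) ∧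
      (1 < X → (∃ M, ∀ x, U x ≤ M) → HasSum (fun n : ℕ => ret ν n / X ^ (n + 1)) (U 1))

/-- Existence of the `ℓ²` norm. -/
def S_rho : Prop :=
  ∀ (G : Type) [Group G] (ν : G →₀ ℝ), (∀ x, 0 ≤ ν x) → ν.sum (fun _ a => a) = 1 →
    ∃ ρ : ℝ, 0 ≤ ρ ∧
      (∀ g : G →₀ ℝ, ∀ T : Finset G,
        ∑ x ∈ T, (ν.sum (fun y a => a * g (y⁻¹ * x))) ^ 2 ≤ ρ ^ 2 * g.sum (fun _ a => a ^ 2)) ∧
      (∀ r : ℝ, 0 ≤ r → r < ρ → ∃ g : G →₀ ℝ, ∃ T : Finset G,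
        r ^ 2 * g.sum (fun _ a => a ^ 2) < ∑ x ∈ T, (ν.sum (fun y a => a * g (y⁻¹ * x))) ^ 2)

/-! ### D. The walk on the free product -/

/-- The measure `nu α β`. -/
def S_nu : Prop :=
  ∀ α β : ℝ, 0 < α → 0 < β → α + β = 1 →
    (∀ x, 0 ≤ nu α β x) ∧ (nu α β).sum (fun _ a => a) = 1 ∧ (∀ x, nu α β x⁻¹ = nu α β x) ∧
    (∀ (h : Gam → ℝ) (x : Gam), Tn (nu α β) h x =
      (α • nu1).sum (fun b t => t * h ((inc false b)⁻¹ * x)) +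
      (β • nu2).sum (fun b t => t * h ((inc true b)⁻¹ * x)))

/-- Odd return probabilities vanish. -/
def S_odd : Prop :=
  ∀ α β : ℝ, 0 < α → 0 < β → α + β = 1 → ∀ m : ℕ, ret (nu α β) (2 * m + 1) = 0

/-- The Green function of a free product. -/
def S_free : Prop :=
  ∀ (m : Bool → (A →₀ ℝ)) (c : Bool → A → ℝ) (w : Bool → ℝ) (y : ℝ), 0 < y → (∀ i, c i 1 = 1) →
    (∀ i a, w i * c i a = (m i).sum (fun b t => t * c i (b⁻¹ * a)) +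
      Set.indicator ({1} : Set A) (fun _ => 1 / y) a) →
    ∀ x : Gam, (w false + w true - 1 / y) * Uf y c x =
      (m false).sum (fun b t => t * Uf y c ((inc false b)⁻¹ * x)) +
      (m true).sum (fun b t => t * Uf y c ((inc true b)⁻¹ * x)) +
      Set.indicator ({1} : Set Gam) (fun _ => (1 : ℝ)) x

/-- The walk on `Z`. -/
def S_kap : Prop :=
  (∀ n k, 0 ≤ kap n k) ∧ (∀ n k, kap n k ≤ 1) ∧ (∀ m : ℕ, kap (2 * m + 1) 0 = 0) ∧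
  (∀ m : ℕ, kap (2 * m) 0 = (Nat.centralBinom m : ℝ) / 4 ^ m)

/-- The return probabilities of the first walk satisfy the bounds. -/
def S_pp : Prop := PB pp

/-- The Green function of the first walk. -/
def S_gs : Prop :=
  ∀ s : ℝ, 1 < s → (∀ a, 0 ≤ gs s a) ∧ gs s 1 = Gf pp s ∧
    (∀ a, s * gs s a = nu1.sum (fun b t => t * gs s (b⁻¹ * a)) + Set.indicator ({1} : Set A) (fun _ => (1 : ℝ)) a) ∧
    (∀ a, a ≠ 1 → gs s a ≤ 1 / (s * (s - 1)))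

/-- The normalised Green function of the second walk. -/
def S_b : Prop :=
  ∀ β y : ℝ, 0 < β → 0 < y → ∃ c : A → ℝ, c 1 = 1 ∧ (∀ a, 0 ≤ c a) ∧ (∀ a, c a ≤ 1) ∧
    ∀ a, Real.sqrt (β ^ 2 + (1 / y) ^ 2) * c a = (β • nu2).sum (fun b t => t * c (b⁻¹ * a)) +
      Set.indicator ({1} : Set A) (fun _ => 1 / y) a

/-- The generating function of the return probabilities of the free product. -/
def S_FG : Prop :=
  ∀ α β : ℝ, 0 < α → 0 < β → α + β = 1 → ∀ s : ℝ, 1 < s →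
    (∀ N : ℕ, ∑ n ∈ Finset.range N, ret (nu α β) n / (α * chi pp (β / α) s) ^ (n + 1) ≤ Gf pp s / α) ∧
    (2 ≤ s → 1 < α * s →
      HasSum (fun n : ℕ => ret (nu α β) n / (α * chi pp (β / α) s) ^ (n + 1)) (Gf pp s / α))

/-! ### E. Analysis of `G` and `χ` -/

/-- Basic facts on `G`. -/
def S_G0 : Prop :=
  ∀ p : ℕ → ℝ, PB p → Summable (fun n : ℕ => ((n : ℝ) + 1) * p n) ∧
    (∀ s : ℝ, 1 ≤ s → Summable (fun n : ℕ => p n / s ^ (n + 1))) ∧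
    (∀ s : ℝ, 1 ≤ s → 0 < Gf p s) ∧ (∀ s : ℝ, 1 < s → Gf p s < Gf p 1) ∧ 1 ≤ Gf p 1 ∧
    (∀ s : ℝ, 1 ≤ s → s ≤ 2 → 1 / 2 ≤ Gf p s) ∧
    (∑' n : ℕ, (n : ℝ) * p n ≤ 1 / 2) ∧ 2 * (Gf p 1 - 1) ≤ ∑' n : ℕ, (n : ℝ) * p n ∧ 1 < Gf p 1

/-- First order bounds. -/
def S_G1 : Prop :=
  ∀ p : ℕ → ℝ, PB p → ∃ c C : ℝ, 0 < c ∧ ∀ t : ℝ, 0 < t → t ≤ 1 →
    c * t ≤ Gf p 1 - Gf p (1 + t) ∧ Gf p 1 - Gf p (1 + t) ≤ C * t

/-- The two inequalities that make the critical parameter work. -/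
def S_H2 : Prop :=
  ∀ p : ℕ → ℝ, PB p → (Gf p 1) ^ 2 < cc p ∧
    ∀ s : ℝ, 1 < s → Gf p 1 * (Gf p 1 - Gf p s) ≤ cc p * (s - 1) * Gf p s

/-- The second order term. -/
def S_E2 : Prop :=
  ∀ p : ℕ → ℝ, PB p →
    Tendsto (fun t : ℝ => (Gf p (1 + t) - Gf p 1 + cc p * t) / t ^ 2) (𝓝[>] 0) atTop ∧
    (∀ η : ℝ, 0 < η → η < 1 → ∃ C : ℝ, 0 ≤ C ∧ ∀ t : ℝ, 0 < t → t ≤ 1 →
      Gf p (1 + t) - Gf p 1 + cc p * t ≤ C * t ^ (2 - η))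

/-- The function `χ` at the critical parameter. -/
def S_chi : Prop :=
  ∀ p : ℕ → ℝ, PB p → ∃ lam : ℝ, 0 < lam ∧ 0 < chi p lam 1 ∧ (∀ s : ℝ, 1 < s → chi p lam 1 < chi p lam s) ∧
    Tendsto (fun t : ℝ => (chi p lam (1 + t) - chi p lam 1) / t ^ 2) (𝓝[>] 0) atTop ∧
    (∀ η : ℝ, 0 < η → η < 1 → ∃ C : ℝ, 0 ≤ C ∧ ∀ t : ℝ, 0 < t → t ≤ 1 →
      chi p lam (1 + t) - chi p lam 1 ≤ C * t ^ (2 - η))

/-- The identity theorem. -/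
def S_anal : Prop :=
  ∀ (p q : ℕ → ℝ) (α lam r : ℝ), PB p → (∀ n, 0 ≤ q n) → 0 < α → 0 < lam → 0 ≤ r →
    (∀ X : ℝ, r < X → Summable (fun n : ℕ => q n / X ^ (n + 1))) →
    (∀ s : ℝ, 1 < s → r < α * chi p lam s) →
    (∃ s0 : ℝ, ∀ s : ℝ, s0 ≤ s → ∑' n : ℕ, q n / (α * chi p lam s) ^ (n + 1) = Gf p s / α) →
    ∀ s : ℝ, 1 < s → ∑' n : ℕ, q n / (α * chi p lam s) ^ (n + 1) = Gf p s / α

/-! ### F. The contradiction -/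

/-- Value at the radius of convergence. -/
def S_fin0 : Prop :=
  ∀ (q : ℕ → ℝ) (r K : ℝ) (δ D : ℝ → ℝ), (∀ n, 0 ≤ q n) → 0 < r →
    (∀ X : ℝ, r < X → Summable (fun n : ℕ => q n / X ^ (n + 1))) →
    (∀ t : ℝ, 0 < t → t ≤ 1 → 0 < δ t) → Tendsto δ (𝓝[>] 0) (𝓝 0) → Tendsto D (𝓝[>] 0) (𝓝 0) →
    (∀ t : ℝ, 0 < t → t ≤ 1 → 0 ≤ D t) →
    (∀ t : ℝ, 0 < t → t ≤ 1 → ∑' n : ℕ, q n / (r + δ t) ^ (n + 1) = K - D t) →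
    HasSum (fun n : ℕ => q n / r ^ (n + 1)) K

/-- Case of a large exponent. -/
def S_fin1 : Prop :=
  ∀ (q : ℕ → ℝ) (r K e : ℝ) (δ D : ℝ → ℝ), (∀ n, 0 ≤ q n) → 0 < r →
    (∀ t : ℝ, 0 < t → t ≤ 1 → 0 < δ t) →
    (∀ η : ℝ, 0 < η → η < 1 → ∃ C : ℝ, 0 ≤ C ∧ ∀ t : ℝ, 0 < t → t ≤ 1 → δ t ≤ C * t ^ (2 - η)) →
    (∃ c C : ℝ, 0 < c ∧ ∀ t : ℝ, 0 < t → t ≤ 1 → c * t ≤ D t ∧ D t ≤ C * t) →
    (∀ t : ℝ, 0 < t → t ≤ 1 → ∑' n : ℕ, q n / (r + δ t) ^ (n + 1) = K - D t) →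
    HasSum (fun n : ℕ => q n / r ^ (n + 1)) K →
    1 / 2 < e → e ≤ 1 → Summable (fun n : ℕ => q n / r ^ (n + 1) * ((n : ℝ) + 1) ^ e) → False

/-- Case of a small exponent. -/
def S_fin2 : Prop :=
  ∀ (q : ℕ → ℝ) (r K : ℝ) (δ D : ℝ → ℝ), (∀ n, 0 ≤ q n) → 0 < r →
    (∀ t : ℝ, 0 < t → t ≤ 1 → 0 < δ t) →
    Tendsto δ (𝓝[>] 0) (𝓝 0) →
    Tendsto (fun t : ℝ => δ t / t ^ 2) (𝓝[>] 0) atTop →
    (∃ c C : ℝ, 0 < c ∧ ∀ t : ℝ, 0 < t → t ≤ 1 → c * t ≤ D t ∧ D t ≤ C * t) →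
    (∀ t : ℝ, 0 < t → t ≤ 1 → ∑' n : ℕ, q n / (r + δ t) ^ (n + 1) = K - D t) →
    HasSum (fun n : ℕ => q n / r ^ (n + 1)) K →
    ∀ (c' : ℝ) (N0 : ℕ), 0 < c' → (∀ n : ℕ, N0 ≤ n → c' * (n : ℝ) ^ (-(3 / 2) : ℝ) ≤ q (2 * n) / r ^ (2 * n)) → False

/-- No asymptotics of the form `c n^{-d} ρ^{2n}`. -/
def S_final : Prop :=
  ∀ (q : ℕ → ℝ) (r K : ℝ) (δ D : ℝ → ℝ), (∀ n, 0 ≤ q n) → (∀ m : ℕ, q (2 * m + 1) = 0) → 0 < r →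
    (∀ X : ℝ, r < X → Summable (fun n : ℕ => q n / X ^ (n + 1))) →
    (∀ t : ℝ, 0 < t → t ≤ 1 → 0 < δ t) →
    Tendsto (fun t : ℝ => δ t / t ^ 2) (𝓝[>] 0) atTop →
    (∀ η : ℝ, 0 < η → η < 1 → ∃ C : ℝ, 0 ≤ C ∧ ∀ t : ℝ, 0 < t → t ≤ 1 → δ t ≤ C * t ^ (2 - η)) →
    (∃ c C : ℝ, 0 < c ∧ ∀ t : ℝ, 0 < t → t ≤ 1 → c * t ≤ D t ∧ D t ≤ C * t) →
    (∀ t : ℝ, 0 < t → t ≤ 1 → ∑' n : ℕ, q n / (r + δ t) ^ (n + 1) = K - D t) →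
    ∀ c d ρ : ℝ, 0 < c → 0 ≤ ρ →
      ¬ Asymptotics.IsEquivalent atTop (fun n : ℕ => q (2 * n)) (fun n : ℕ => c * (n : ℝ) ^ (-d) * ρ ^ (2 * n))

end

end Pool.Agent.Y938.RD
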