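import Mathlib
import Pool.Agent.Y938.RD.Stm

set_option autoImplicit false

/-! Project RD (frozen S19332): the constant `Kc`; rapid decay in `[0,∞]` and in real form. -/

namespace Pool.Agent.Y938.RD.FinC

open Filter Topology
open scoped ENNReal

noncomputable section

/-! ### The constant `Kc` -/

theorem tsum_pi_prod (g : ℤ → ℝ≥0∞) (n : ℕ) :
    ∑' a : Fin n → ℤ, ∏ j, g (a j) = (∑' k : ℤ, g k) ^ n := by
  induction n with
  | zero =>
    simp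
  | succ n ih =>
    rw [← (Fin.consEquiv (fun _ : Fin (n + 1) => ℤ)).tsum_eq]
    rw [ENNReal.tsum_prod']
    have : ∀ (x : ℤ) (y : Fin n → ℤ),
        ∏ j, g ((Fin.consEquiv (fun _ : Fin (n + 1) => ℤ)) (x, y) j) = g x * ∏ j, g (y j) := by
      intro x y
      rw [Fin.prod_univ_succ]
      simp [Fin.consEquiv]
    simp_rw [this, ENNReal.tsum_mul_left, ih, ENNReal.tsum_mul_right]
    rw [pow_succ, mul_comm]

theorem summable_int_sq : Summable (fun k : ℤ => 1 / (1 + (k.natAbs : ℝ)) ^ 2) := by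
  have h0 : Summable (fun n : ℕ => 1 / (1 + (n : ℝ)) ^ 2) := by
    have := (summable_nat_add_iff (f := fun n : ℕ => 1 / (n : ℝ) ^ 2) 1).2
      (Real.summable_one_div_nat_pow.2 (by norm_num : 1 < 2))
    refine this.congr fun n => ?_
    push_cast
    rw [add_comm]
  refine Summable.of_nat_of_neg ?_ ?_
  · refine h0.congr fun n => by simp
  · refine h0.congr fun n => by simp

theorem tsum_int_sq_ne_top : ∑' k : ℤ, ((1 + (k.natAbs : ℝ≥0∞)) ^ 2)⁻¹ ≠ ⊤ := by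
  have h := summable_int_sq.tsum_ofReal_ne_top
  convert h using 3 with k
  rw [one_div, ENNReal.ofReal_inv_of_pos (by positivity), ENNReal.ofReal_pow (by positivity),
    ENNReal.ofReal_add (by norm_num) (by positivity), ENNReal.ofReal_natCast, ENNReal.ofReal_one]

theorem tsum_nat_sq_ne_top : ∑' k : ℕ, (((k : ℝ≥0∞) + 1)⁻¹) ^ 2 ≠ ⊤ := by
  have h0 : Summable (fun n : ℕ => 1 / (1 + (n : ℝ)) ^ 2) := by
    have := (summable_nat_add_iff (f := fun n : ℕ => 1 / (n : ℝ) ^ 2) 1).2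
      (Real.summable_one_div_nat_pow.2 (by norm_num : 1 < 2))
    refine this.congr fun n => ?_
    push_cast
    rw [add_comm]
  have h := h0.tsum_ofReal_ne_top
  convert h using 3 with k
  rw [one_div, ENNReal.ofReal_inv_of_pos (by positivity), ENNReal.ofReal_pow (by positivity),
    ENNReal.ofReal_add (by norm_num) (by positivity), ENNReal.inv_pow]
  simp [add_comm]

theorem Kc_ne_top : Kc ≠ ⊤ := by
  have h1 : Kc ≤ ∑' a : Fin 6 → ℤ, ∏ j, ((1 + ((a j).natAbs : ℝ≥0∞)) ^ 2)⁻¹ := by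
    unfold Kc
    rw [← (Multiplicative.ofAdd : (Fin 6 → ℤ) ≃ A).tsum_eq]
    refine ENNReal.tsum_le_tsum fun a => ?_
    rw [← ENNReal.prod_inv_distrib]
    · apply ENNReal.inv_le_inv.2
      have hj : ∀ j : Fin 6, (1 + ((a j).natAbs : ℝ≥0∞)) ^ 2 ≤ (1 + (sz (Multiplicative.ofAdd a) : ℝ≥0∞)) ^ 2 := by
        intro j
        gcongr
        unfold sz
        exact Finset.single_le_sum (f := fun j : Fin 6 => (Multiplicative.toAdd (Multiplicative.ofAdd a) j).natAbs)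
          (fun i _ => Nat.zero_le _) (Finset.mem_univ j)
      calc ∏ j : Fin 6, (1 + ((a j).natAbs : ℝ≥0∞)) ^ 2
          ≤ ∏ j : Fin 6, (1 + (sz (Multiplicative.ofAdd a) : ℝ≥0∞)) ^ 2 :=
            Finset.prod_le_prod' fun j _ => hj j
        _ = (1 + (sz (Multiplicative.ofAdd a) : ℝ≥0∞)) ^ 12 := by
            rw [Finset.prod_const, Finset.card_univ, Fintype.card_fin, ← pow_mul]
    · intro i _ j _ _
      left
      positivity
  refine ne_top_of_le_ne_top ?_ h1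
  rw [tsum_pi_prod (fun k : ℤ => ((1 + (k.natAbs : ℝ≥0∞)) ^ 2)⁻¹)]
  exact ENNReal.pow_ne_top tsum_int_sq_ne_top

theorem one_le_Kc : 1 ≤ Kc := by
  unfold Kc
  have h := ENNReal.le_tsum (f := fun a : A => ((1 + (sz a : ℝ≥0∞)) ^ 12)⁻¹) 1
  refine le_trans ?_ h
  have : sz 1 = 0 := by unfold sz; simp
  rw [this]
  simp

theorem Kc_spec : S_Kc := ⟨Kc_ne_top, one_le_Kc⟩

/-! ### Cauchy–Schwarz in `[0,∞]` -/

theorem cs_tsum {ι : Type} (a b : ι → ℝ≥0∞) :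
    (∑' i, a i * b i) ^ 2 ≤ (∑' i, a i ^ 2) * (∑' i, b i ^ 2) := by
  have h1 : ∑' i, a i * b i ≤ (∑' i, a i ^ 2) ^ (1 / 2 : ℝ) * (∑' i, b i ^ 2) ^ (1 / 2 : ℝ) := by
    rw [ENNReal.tsum_eq_iSup_sum]
    refine iSup_le fun s => ?_
    have h := ENNReal.inner_le_Lp_mul_Lq s a b (Real.HolderConjugate.two_two)
    refine h.trans ?_
    have e1 : ∀ c : ι → ℝ≥0∞, ∑ i ∈ s, c i ^ (2 : ℝ) ≤ ∑' i, c i ^ 2 := by
      intro c
      have : ∀ i, c i ^ (2 : ℝ) = c i ^ 2 := fun i => by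
        rw [← ENNReal.rpow_natCast]; norm_num
      simp_rw [this]
      exact ENNReal.sum_le_tsum s
    exact mul_le_mul' (ENNReal.rpow_le_rpow (e1 a) (by norm_num)) (ENNReal.rpow_le_rpow (e1 b) (by norm_num))
  calc (∑' i, a i * b i) ^ 2 ≤ ((∑' i, a i ^ 2) ^ (1 / 2 : ℝ) * (∑' i, b i ^ 2) ^ (1 / 2 : ℝ)) ^ 2 := by
        gcongr
    _ = (∑' i, a i ^ 2) * (∑' i, b i ^ 2) := by
        rw [mul_pow, ← ENNReal.rpow_natCast, ← ENNReal.rpow_natCast, ← ENNReal.rpow_mul, ← ENNReal.rpow_mul]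
        norm_num

theorem cs_weight (P : ℕ → ℝ≥0∞) :
    (∑' k, P k) ^ 2 ≤ (∑' k : ℕ, (((k : ℝ≥0∞) + 1)⁻¹) ^ 2) * ∑' k : ℕ, ((k : ℝ≥0∞) + 1) ^ 2 * P k ^ 2 := by
  have h := cs_tsum (fun k : ℕ => ((k : ℝ≥0∞) + 1)⁻¹) (fun k : ℕ => ((k : ℝ≥0∞) + 1) * P k)
  have e1 : ∀ k : ℕ, ((k : ℝ≥0∞) + 1)⁻¹ * (((k : ℝ≥0∞) + 1) * P k) = P k := by
    intro k
    rw [← mul_assoc, ENNReal.inv_mul_cancel (by simp) (by finiteness), one_mul]
  simp_rw [e1, mul_pow] at h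
  exact h

theorem tsum_blk (c : ℕ) (t : ℝ≥0∞) : ∑' k : ℕ, (if c = k then t else 0) = t := by
  rw [tsum_eq_single c (fun k hk => if_neg (Ne.symm hk)), if_pos rfl]

theorem RD_spec (h1 : S_key) (h2 : S_Kc) (h3 : S_len) : S_RD := by
  set C2 : ℝ≥0∞ := ∑' k : ℕ, (((k : ℝ≥0∞) + 1)⁻¹) ^ 2 with hC2
  refine ⟨4 * C2 * Kc, ?_, ?_⟩
  · exact ENNReal.mul_ne_top (ENNReal.mul_ne_top (by norm_num) tsum_nat_sq_ne_top) h2.1
  intro f g
  set F : ℕ → Gam → ℝ≥0∞ := fun k u => if (nf u).length = k then f u else 0 with hF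
  set P : ℕ → Gam → ℝ≥0∞ := fun k x => ∑' u : Gam, F k u * g (u⁻¹ * x) with hP
  set GG : ℝ≥0∞ := ∑' v : Gam, g v ^ 2 with hGG
  have hsum : ∀ x : Gam, ∑' u : Gam, f u * g (u⁻¹ * x) = ∑' k, P k x := by
    intro x
    rw [hP]
    simp only
    rw [ENNReal.tsum_comm]
    refine tsum_congr fun u => ?_
    rw [ENNReal.tsum_mul_right]
    congr 1
    exact (tsum_blk _ _).symm
  have hk : ∀ k : ℕ, ∑' x : Gam, P k x ^ 2 ≤
      4 * ((k : ℝ≥0∞) + 1) ^ 2 * (Kc * (∑' u : Gam, (1 + (len u : ℝ≥0∞)) ^ 12 * F k u ^ 2) * GG) := by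
    intro k
    exact h1 k (F k) g (fun u hu => if_neg hu)
  have hlen : ∀ (k : ℕ) (u : Gam), ((k : ℝ≥0∞) + 1) ^ 4 * ((1 + (len u : ℝ≥0∞)) ^ 12 * F k u ^ 2) ≤
      (1 + (len u : ℝ≥0∞)) ^ 16 * F k u ^ 2 := by
    intro k u
    by_cases hu : (nf u).length = k
    · have h4 : (k : ℝ≥0∞) + 1 ≤ 1 + (len u : ℝ≥0∞) := by
        rw [add_comm]
        gcongr
        rw [← hu]
        exact h3.2.2.1 u
      calc ((k : ℝ≥0∞) + 1) ^ 4 * ((1 + (len u : ℝ≥0∞)) ^ 12 * F k u ^ 2)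
          ≤ (1 + (len u : ℝ≥0∞)) ^ 4 * ((1 + (len u : ℝ≥0∞)) ^ 12 * F k u ^ 2) := by gcongr
        _ = (1 + (len u : ℝ≥0∞)) ^ 16 * F k u ^ 2 := by ring
    · have : F k u = 0 := if_neg hu
      rw [this]; simp
  calc ∑' x : Gam, (∑' u : Gam, f u * g (u⁻¹ * x)) ^ 2
      = ∑' x : Gam, (∑' k, P k x) ^ 2 := by simp_rw [hsum]
    _ ≤ ∑' x : Gam, C2 * ∑' k : ℕ, ((k : ℝ≥0∞) + 1) ^ 2 * P k x ^ 2 :=
        ENNReal.tsum_le_tsum fun x => cs_weight (fun k => P k x)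
    _ = C2 * ∑' k : ℕ, ((k : ℝ≥0∞) + 1) ^ 2 * ∑' x : Gam, P k x ^ 2 := by
        rw [ENNReal.tsum_mul_left, ENNReal.tsum_comm]
        congr 1
        refine tsum_congr fun k => ?_
        rw [ENNReal.tsum_mul_left]
    _ ≤ C2 * ∑' k : ℕ, ((k : ℝ≥0∞) + 1) ^ 2 * (4 * ((k : ℝ≥0∞) + 1) ^ 2 *
          (Kc * (∑' u : Gam, (1 + (len u : ℝ≥0∞)) ^ 12 * F k u ^ 2) * GG)) := by
        gcongr with k
        exact hk k
    _ = C2 * ∑' k : ℕ, (4 * Kc * GG) * (∑' u : Gam, ((k : ℝ≥0∞) + 1) ^ 4 * ((1 + (len u : ℝ≥0∞)) ^ 12 * F k u ^ 2)) := by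
        congr 1
        refine tsum_congr fun k => ?_
        rw [ENNReal.tsum_mul_left]
        ring
    _ ≤ C2 * ∑' k : ℕ, (4 * Kc * GG) * (∑' u : Gam, (1 + (len u : ℝ≥0∞)) ^ 16 * F k u ^ 2) := by
        refine mul_le_mul' le_rfl (ENNReal.tsum_le_tsum fun k => mul_le_mul' le_rfl
          (ENNReal.tsum_le_tsum fun u => hlen k u))
    _ = C2 * ((4 * Kc * GG) * ∑' u : Gam, (1 + (len u : ℝ≥0∞)) ^ 16 * f u ^ 2) := by
        rw [ENNReal.tsum_mul_left, ENNReal.tsum_comm]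
        congr 2
        refine tsum_congr fun u => ?_
        rw [ENNReal.tsum_mul_left]
        congr 1
        have : ∀ k, F k u ^ 2 = if (nf u).length = k then f u ^ 2 else 0 := by
          intro k
          rw [hF]
          simp only
          split_ifs <;> simp
        simp_rw [this]
        exact tsum_blk _ _
    _ = 4 * C2 * Kc * (∑' u : Gam, (1 + (len u : ℝ≥0∞)) ^ 16 * f u ^ 2) * GG := by ring

/-! ### The real form -/

theorem RDfin_spec (h1 : S_RD) (h2 : S_gen) : S_RDfin := by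
  obtain ⟨C, hC, hRD⟩ := h1
  obtain ⟨hgen, hwl⟩ := h2
  refine ⟨gens, hgen, C.toReal, 8, ?_⟩
  intro f g T
  set wl : Gam → ℕ := fun x => sInf {n : ℕ | ∃ l : List Gam, l.length = n ∧
      (∀ y ∈ l, y ∈ gens ∨ y⁻¹ ∈ gens) ∧ l.prod = x} with hwldef
  set F : Gam → ℝ≥0∞ := fun u => ENNReal.ofReal |f u| with hF
  set Gg : Gam → ℝ≥0∞ := fun v => ENNReal.ofReal |g v| with hGg
  have hx : ∀ x : Gam, ENNReal.ofReal ((f.sum (fun y a => a * g (y⁻¹ * x))) ^ 2) ≤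
      (∑' u : Gam, F u * Gg (u⁻¹ * x)) ^ 2 := by
    intro x
    rw [← sq_abs, ENNReal.ofReal_pow (abs_nonneg _)]
    gcongr
    calc ENNReal.ofReal |f.sum (fun y a => a * g (y⁻¹ * x))|
        ≤ ENNReal.ofReal (∑ y ∈ f.support, |f y| * |g (y⁻¹ * x)|) := by
          apply ENNReal.ofReal_le_ofReal
          rw [Finsupp.sum]
          refine (Finset.abs_sum_le_sum_abs _ _).trans (le_of_eq ?_)
          exact Finset.sum_congr rfl fun y _ => abs_mul _ _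
      _ = ∑ y ∈ f.support, F y * Gg (y⁻¹ * x) := by
          rw [ENNReal.ofReal_sum_of_nonneg (fun y _ => by positivity)]
          exact Finset.sum_congr rfl fun y _ => ENNReal.ofReal_mul (abs_nonneg _)
      _ ≤ ∑' u : Gam, F u * Gg (u⁻¹ * x) := ENNReal.sum_le_tsum _
  have hA : ∑' u : Gam, (1 + (len u : ℝ≥0∞)) ^ 16 * F u ^ 2 ≤
      ENNReal.ofReal (f.sum (fun x a => a ^ 2 * (1 + (wl x : ℝ)) ^ (2 * 8))) := by
    rw [tsum_eq_sum (s := f.support), Finsupp.sum, ENNReal.ofReal_sum_of_nonneg (fun y _ => by positivity)]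
    · refine Finset.sum_le_sum fun u _ => ?_
      rw [ENNReal.ofReal_mul (sq_nonneg _), ← sq_abs (f u), ENNReal.ofReal_pow (abs_nonneg _),
        ENNReal.ofReal_pow (by positivity), ENNReal.ofReal_add (by norm_num) (by positivity),
        mul_comm]
      simp only [ENNReal.ofReal_one, ENNReal.ofReal_natCast]
      gcongr
      · exact hwl u
    · intro u hu
      have : f u = 0 := Finsupp.notMem_support_iff.1 hu
      simp [hF, this]
  have hB : ∑' v : Gam, Gg v ^ 2 = ENNReal.ofReal (g.sum (fun _ a => a ^ 2)) := by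
    rw [tsum_eq_sum (s := g.support), Finsupp.sum, ENNReal.ofReal_sum_of_nonneg (fun y _ => by positivity)]
    · refine Finset.sum_congr rfl fun u _ => ?_
      rw [← sq_abs (g u), ENNReal.ofReal_pow (abs_nonneg _)]
    · intro u hu
      have : g u = 0 := Finsupp.notMem_support_iff.1 hu
      simp [hGg, this]
  have hAn : 0 ≤ f.sum (fun x a => a ^ 2 * (1 + (wl x : ℝ)) ^ (2 * 8)) :=
    Finset.sum_nonneg fun y _ => by positivity
  have hBn : 0 ≤ g.sum (fun _ a => a ^ 2) := Finset.sum_nonneg fun y _ => by positivity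
  have hfin : ENNReal.ofReal (∑ x ∈ T, (f.sum (fun y a => a * g (y⁻¹ * x))) ^ 2) ≤
      ENNReal.ofReal (C.toReal * (f.sum (fun x a => a ^ 2 * (1 + (wl x : ℝ)) ^ (2 * 8))) *
        g.sum (fun _ a => a ^ 2)) := by
    rw [ENNReal.ofReal_sum_of_nonneg (fun y _ => sq_nonneg _)]
    calc ∑ x ∈ T, ENNReal.ofReal ((f.sum (fun y a => a * g (y⁻¹ * x))) ^ 2)
        ≤ ∑ x ∈ T, (∑' u : Gam, F u * Gg (u⁻¹ * x)) ^ 2 := Finset.sum_le_sum fun x _ => hx x
      _ ≤ ∑' x : Gam, (∑' u : Gam, F u * Gg (u⁻¹ * x)) ^ 2 := ENNReal.sum_le_tsum _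
      _ ≤ C * (∑' u : Gam, (1 + (len u : ℝ≥0∞)) ^ 16 * F u ^ 2) * (∑' v : Gam, Gg v ^ 2) := hRD F Gg
      _ ≤ C * ENNReal.ofReal (f.sum (fun x a => a ^ 2 * (1 + (wl x : ℝ)) ^ (2 * 8))) *
            ENNReal.ofReal (g.sum (fun _ a => a ^ 2)) := by
          rw [hB]
          gcongr
      _ = _ := by
          rw [ENNReal.ofReal_mul (mul_nonneg ENNReal.toReal_nonneg hAn),
            ENNReal.ofReal_mul ENNReal.toReal_nonneg, ENNReal.ofReal_toReal hC]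
  exact (ENNReal.ofReal_le_ofReal_iff (mul_nonneg (mul_nonneg ENNReal.toReal_nonneg hAn) hBn)).1 hfin

end

end Pool.Agent.Y938.RD.FinC
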