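import Pool.Agent.Y938.RD.Stm

set_option autoImplicit false

/-! Project RD: general facts on convolution operators. -/

namespace Pool.Agent.Y938.RD

open Filter Topology

noncomputable section

theorem Tn_apply {G : Type} [Group G] (ν : G →₀ ℝ) (h : G → ℝ) (x : G) :
    Tn ν h x = ∑ y ∈ ν.support, ν y * h (y⁻¹ * x) := rfl

theorem Tn_nonneg {G : Type} [Group G] {ν : G →₀ ℝ} (hν : ∀ x, 0 ≤ ν x) {h : G → ℝ}
    (hh : ∀ x, 0 ≤ h x) (x : G) : 0 ≤ Tn ν h x := by
  rw [Tn_apply]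
  exact Finset.sum_nonneg fun y _ => mul_nonneg (hν y) (hh _)

theorem Tn_iter_nonneg {G : Type} [Group G] {ν : G →₀ ℝ} (hν : ∀ x, 0 ≤ ν x) {h : G → ℝ}
    (hh : ∀ x, 0 ≤ h x) (n : ℕ) : ∀ x : G, 0 ≤ (Tn ν)^[n] h x := by
  induction n with
  | zero => exact hh
  | succ n ih =>
    intro x
    rw [Function.iterate_succ_apply']
    exact Tn_nonneg hν ih x

theorem Tn_le {G : Type} [Group G] {ν : G →₀ ℝ} (hν : ∀ x, 0 ≤ ν x)
    (h1 : ν.sum (fun _ a => a) = 1) {h : G → ℝ} {M : ℝ}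
    (hh : ∀ x, h x ≤ M) (x : G) : Tn ν h x ≤ M := by
  rw [Tn_apply]
  have h1' : ∑ y ∈ ν.support, ν y = 1 := h1
  calc ∑ y ∈ ν.support, ν y * h (y⁻¹ * x) ≤ ∑ y ∈ ν.support, ν y * M :=
        Finset.sum_le_sum fun y _ => mul_le_mul_of_nonneg_left (hh _) (hν y)
    _ = M := by rw [← Finset.sum_mul, h1', one_mul]

theorem Tn_iter_le {G : Type} [Group G] {ν : G →₀ ℝ} (hν : ∀ x, 0 ≤ ν x)
    (h1 : ν.sum (fun _ a => a) = 1) {h : G → ℝ} {M : ℝ}
    (hh : ∀ x, h x ≤ M) (n : ℕ) : ∀ x : G, (Tn ν)^[n] h x ≤ M := by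
  induction n with
  | zero => exact hh
  | succ n ih =>
    intro x
    rw [Function.iterate_succ_apply']
    exact Tn_le hν h1 ih x

theorem Tn_lin {G : Type} [Group G] (ν : G →₀ ℝ) (c : ℝ) (h h' : G → ℝ) :
    Tn ν (fun x => c * (h x + h' x)) = fun x => c * (Tn ν h x + Tn ν h' x) := by
  funext x
  simp only [Tn_apply]
  rw [← Finset.sum_add_distrib, Finset.mul_sum]
  exact Finset.sum_congr rfl fun y _ => by ring

theorem Tn_iter_lin {G : Type} [Group G] (ν : G →₀ ℝ) (c : ℝ) (h h' : G → ℝ) (n : ℕ) :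
    (Tn ν)^[n] (fun x => c * (h x + h' x)) =
      fun x => c * ((Tn ν)^[n] h x + (Tn ν)^[n] h' x) := by
  induction n with
  | zero => rfl
  | succ n ih =>
    rw [Function.iterate_succ_apply', ih, Tn_lin]
    funext x
    rw [Function.iterate_succ_apply', Function.iterate_succ_apply']

/-- Return probabilities are nonnegative. -/
theorem ret_spec : S_ret := by
  intro G _ ν hν n
  refine Tn_iter_nonneg hν ?_ n 1
  intro x
  exact Set.indicator_nonneg (fun _ _ => zero_le_one) x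

/-- the expansion of a Green function -/
theorem green_exp {G : Type} [Group G] (ν : G →₀ ℝ) {X : ℝ} {U : G → ℝ} (hX : 0 < X)
    (hU : ∀ x, X * U x = Tn ν U x + Set.indicator ({1} : Set G) (fun _ => (1 : ℝ)) x) (N : ℕ) :
    U 1 = ∑ n ∈ Finset.range N, ret ν n / X ^ (n + 1) + (Tn ν)^[N] U 1 / X ^ N := by
  have hUf : U = fun x => X⁻¹ * (Tn ν U x + Set.indicator ({1} : Set G) (fun _ => (1 : ℝ)) x) := by
    funext x
    rw [← hU x]
    field_simp
  induction N with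
  | zero => simp
  | succ N ih =>
    rw [Finset.sum_range_succ]
    have h1 : (Tn ν)^[N] U 1 = X⁻¹ * ((Tn ν)^[N + 1] U 1 + ret ν N) := by
      conv_lhs => rw [hUf]
      rw [Tn_iter_lin]
      rfl
    rw [h1] at ih
    rw [ih, pow_succ]
    field_simp
    ring

/-- Green functions. -/
theorem green_spec : S_green := by
  intro G _ ν hν h1 X U hX hU0 hU
  have hexp := green_exp ν hX hU
  refine ⟨fun N => ?_, fun hX1 hM => ?_⟩
  · have h2 := hexp N
    have h3 : 0 ≤ (Tn ν)^[N] U 1 / X ^ N :=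
      div_nonneg (Tn_iter_nonneg hν hU0 N 1) (by positivity)
    linarith
  · obtain ⟨M, hM⟩ := hM
    have hr : ∀ n : ℕ, 0 ≤ ret ν n / X ^ (n + 1) := fun n =>
      div_nonneg (ret_spec G ν hν n) (by positivity)
    rw [hasSum_iff_tendsto_nat_of_nonneg hr]
    have h2 : Tendsto (fun N : ℕ => (Tn ν)^[N] U 1 / X ^ N) atTop (𝓝 0) := by
      have h3 : Tendsto (fun N : ℕ => M * (X⁻¹) ^ N) atTop (𝓝 (M * 0)) :=
        (tendsto_pow_atTop_nhds_zero_of_lt_one (by positivity) (inv_lt_one_of_one_lt₀ hX1)).const_mul M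
      rw [mul_zero] at h3
      refine squeeze_zero (fun N => div_nonneg (Tn_iter_nonneg hν hU0 N 1) (by positivity))
        (fun N => ?_) h3
      rw [inv_pow, ← div_eq_mul_inv]
      exact div_le_div_of_nonneg_right (Tn_iter_le hν h1 hM N 1) (by positivity)
    have h4 : (fun N : ℕ => ∑ n ∈ Finset.range N, ret ν n / X ^ (n + 1))
        = fun N : ℕ => U 1 - (Tn ν)^[N] U 1 / X ^ N := by
      funext N
      have := hexp N
      linarith
    rw [h4]
    simpa using h2.const_sub (U 1)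

/-- The operator is a contraction. -/
theorem contr {G : Type} [Group G] (ν : G →₀ ℝ) (hν : ∀ x, 0 ≤ ν x)
    (h1 : ν.sum (fun _ a => a) = 1) (g : G →₀ ℝ) (T : Finset G) :
    ∑ x ∈ T, (ν.sum (fun y a => a * g (y⁻¹ * x))) ^ 2 ≤ g.sum (fun _ a => a ^ 2) := by
  classical
  have h1' : ∑ y ∈ ν.support, ν y = 1 := h1
  have e1 : ∀ x ∈ T, (ν.sum (fun y a => a * g (y⁻¹ * x))) ^ 2
      ≤ ∑ y ∈ ν.support, ν y * g (y⁻¹ * x) ^ 2 := by
    intro x _
    have := Finset.sum_sq_le_sum_mul_sum_of_sq_le_mul ν.support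
      (r := fun y => ν y * g (y⁻¹ * x)) (f := fun y => ν y) (g := fun y => ν y * g (y⁻¹ * x) ^ 2)
      (fun y _ => hν y) (fun y _ => mul_nonneg (hν y) (sq_nonneg _)) (fun y _ => le_of_eq (by ring))
    rw [h1', one_mul] at this
    exact this
  refine (Finset.sum_le_sum e1).trans ?_
  rw [Finset.sum_comm]
  have e2 : ∀ y ∈ ν.support, ∑ x ∈ T, ν y * g (y⁻¹ * x) ^ 2 ≤ ν y * g.sum (fun _ a => a ^ 2) := by
    intro y _
    rw [← Finset.mul_sum]
    refine mul_le_mul_of_nonneg_left ?_ (hν y)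
    have e3 : ∑ x ∈ T, g (y⁻¹ * x) ^ 2 = ∑ z ∈ T.image (fun x => y⁻¹ * x), g z ^ 2 := by
      rw [Finset.sum_image]
      intro a _ b _ hab
      exact mul_left_cancel hab
    rw [e3]
    have e4 : ∑ z ∈ T.image (fun x => y⁻¹ * x), g z ^ 2
        = ∑ z ∈ (T.image (fun x => y⁻¹ * x)).filter (fun z => z ∈ g.support), g z ^ 2 := by
      symm
      apply Finset.sum_filter_of_ne
      intro z _ hz
      rw [Finsupp.mem_support_iff]
      intro h0
      exact hz (by rw [h0]; norm_num)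
    rw [e4]
    refine Finset.sum_le_sum_of_subset_of_nonneg ?_ (fun _ _ _ => sq_nonneg _)
    intro z hz
    exact (Finset.mem_filter.mp hz).2
  refine (Finset.sum_le_sum e2).trans ?_
  rw [← Finset.sum_mul, h1', one_mul]

/-- Existence of the `ℓ²` norm. -/
theorem rho_spec : S_rho := by
  intro G _ ν hν h1
  set R : Set ℝ := {r | 0 ≤ r ∧ ∀ g : G →₀ ℝ, ∀ T : Finset G,
        ∑ x ∈ T, (ν.sum (fun y a => a * g (y⁻¹ * x))) ^ 2 ≤ r ^ 2 * g.sum (fun _ a => a ^ 2)} with hR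
  have h1R : (1 : ℝ) ∈ R := ⟨zero_le_one, fun g T => by
    rw [one_pow, one_mul]; exact contr ν hν h1 g T⟩
  have hbdd : BddBelow R := ⟨0, fun r hr => hr.1⟩
  refine ⟨sInf R, le_csInf ⟨1, h1R⟩ (fun r hr => hr.1), fun g T => ?_, fun r hr hlt => ?_⟩
  · have hb : 0 ≤ g.sum (fun _ a => a ^ 2) := Finset.sum_nonneg fun _ _ => sq_nonneg _
    have hρ : 0 ≤ sInf R := le_csInf ⟨1, h1R⟩ (fun r hr => hr.1)
    have h2 : Tendsto (fun e : ℝ => (sInf R + e) ^ 2 * g.sum (fun _ a => a ^ 2)) (𝓝[>] 0)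
        (𝓝 ((sInf R + 0) ^ 2 * g.sum (fun _ a => a ^ 2))) := by
      have : Continuous (fun e : ℝ => (sInf R + e) ^ 2 * g.sum (fun _ a => a ^ 2)) := by fun_prop
      exact (this.tendsto 0).mono_left nhdsWithin_le_nhds
    rw [add_zero] at h2
    refine ge_of_tendsto h2 ?_
    filter_upwards [self_mem_nhdsWithin] with e he
    have he' : (0 : ℝ) < e := he
    obtain ⟨r, hrR, hr⟩ := exists_lt_of_csInf_lt ⟨1, h1R⟩ (show sInf R < sInf R + e by linarith)
    refine (hrR.2 g T).trans (mul_le_mul_of_nonneg_right ?_ hb)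
    exact pow_le_pow_left₀ hrR.1 hr.le 2
  · have hnot : r ∉ R := fun h => absurd (csInf_le hbdd h) (not_le.mpr hlt)
    by_contra hcon
    push Not at hcon
    exact hnot ⟨hr, hcon⟩

end

end Pool.Agent.Y938.RD
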