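import Pool.Agent.Y938.RD.Stm

/-!
# RD4: classes of pairs and the combination of the class estimates (helper688)
-/

set_option autoImplicit false

namespace Pool.Agent.Y938.RD

open Filter Topology
open scoped ENNReal

lemma lcp (L M : List Lt) : ∃ P C D : List Lt, L = P ++ C ∧ M = P ++ D ∧
    (C = [] ∨ D = [] ∨ ∃ (p q : Lt) (C' D' : List Lt), C = p :: C' ∧ D = q :: D' ∧ p ≠ q) := by
  classical
  induction L generalizing M with
  | nil => exact ⟨[], [], M, rfl, rfl, Or.inl rfl⟩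
  | cons a L ih =>
    cases M with
    | nil => exact ⟨[], a :: L, [], rfl, rfl, Or.inr (Or.inl rfl)⟩
    | cons b M =>
      by_cases hab : a = b
      · subst hab
        obtain ⟨P, C, D, h1, h2, h3⟩ := ih M
        exact ⟨a :: P, C, D, by rw [h1]; rfl, by rw [h2]; rfl, h3⟩
      · exact ⟨[], a :: L, b :: M, rfl, rfl, Or.inr (Or.inr ⟨a, b, L, M, rfl, rfl, hab⟩)⟩

/-- Every pair is in one of the classes. -/
theorem cls_spec (_h : S_nf) : S_cls := by
  intro u x
  obtain ⟨P, C, D, h1, h2, h3⟩ := lcp (nf u) (nf x)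
  refine ⟨P.length, ?_, ?_⟩
  · rw [h1, List.length_append]
    omega
  rcases h3 with h3 | h3 | ⟨p, q, C', D', h3, h4, hpq⟩
  · refine Or.inl ⟨P, C, D, h1, h2, rfl, ?_⟩
    intro p hp
    rw [h3] at hp
    simp at hp
  · refine Or.inl ⟨P, C, D, h1, h2, rfl, ?_⟩
    intro p _ q hq
    rw [h3] at hq
    simp at hq
  · by_cases hi : p.1 = q.1
    · obtain ⟨i, a⟩ := p
      obtain ⟨i', e⟩ := q
      have hi' : i = i' := hi
      subst hi'
      refine Or.inr ⟨P, C', D', i, a, e, by rw [h1, h3], by rw [h2, h4], rfl, ?_⟩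
      rintro rfl
      exact hpq rfl
    · refine Or.inl ⟨P, C, D, h1, h2, rfl, ?_⟩
      intro p' hp' q' hq'
      rw [h3] at hp'
      rw [h4] at hq'
      simp only [List.head?_cons, Option.mem_def, Option.some.injEq] at hp' hq'
      rw [← hp', ← hq']
      exact hi

lemma sq_sum {ι : Type} (s : Finset ι) (f : ι → ℝ≥0∞) :
    (∑ i ∈ s, f i) ^ 2 ≤ (s.card : ℝ≥0∞) * ∑ i ∈ s, f i ^ 2 := by
  have h := ENNReal.rpow_sum_le_const_mul_sum_rpow s f (p := 2) (by norm_num)
  have h1 : (2 : ℝ) - 1 = 1 := by norm_num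
  rw [h1, ENNReal.rpow_one] at h
  have h2 : ∀ z : ℝ≥0∞, z ^ (2 : ℝ) = z ^ 2 := fun z => by
    rw [← ENNReal.rpow_natCast]
    norm_num
  simpa only [h2] using h

open Classical in
/-- Estimate for functions supported on elements of block length `k`. -/
theorem key_spec (h1 : S_cls) (h2 : S_cls0) (h3 : S_cls1) (h4 : S_Kc) : S_key := by
  intro k f g hf
  set B : ℝ≥0∞ := Kc * (∑' u : Gam, (1 + (len u : ℝ≥0∞)) ^ 12 * f u ^ 2) * (∑' v : Gam, g v ^ 2)
    with hB
  let A : ℕ × Bool → Gam → ℝ≥0∞ := fun t x => ∑' u : Gam,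
    (if (if t.2 then cls1 t.1 u x else cls0 t.1 u x) then f u * g (u⁻¹ * x) else 0)
  set T : Finset (ℕ × Bool) := Finset.range (k + 1) ×ˢ Finset.univ with hT
  have hTc : (T.card : ℝ≥0∞) = 2 * ((k : ℝ≥0∞) + 1) := by
    rw [hT, Finset.card_product, Finset.card_range, Finset.card_univ, Fintype.card_bool]
    push_cast
    ring
  -- the estimates of the classes
  have hA : ∀ t ∈ T, ∑' x : Gam, A t x ^ 2 ≤ B := by
    rintro ⟨j, b⟩ ht
    have hj : j ≤ k := Nat.lt_succ_iff.1 (Finset.mem_range.1 (Finset.mem_product.1 ht).1)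
    cases b with
    | true =>
      have := h3 k j f g hj hf
      simpa [A] using this
    | false =>
      have h5 := h2 k j f g hj hf
      have h6 : (∑' u : Gam, f u ^ 2) * (∑' v : Gam, g v ^ 2) ≤ B := by
        rw [hB]
        refine mul_le_mul_left ?_ _
        calc ∑' u : Gam, f u ^ 2 ≤ ∑' u : Gam, (1 + (len u : ℝ≥0∞)) ^ 12 * f u ^ 2 := by
              refine ENNReal.tsum_le_tsum fun u => ?_
              have h7 : (1 : ℝ≥0∞) ≤ (1 + (len u : ℝ≥0∞)) ^ 12 := one_le_pow₀ le_self_add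
              calc f u ^ 2 = 1 * f u ^ 2 := (one_mul _).symm
                _ ≤ _ := mul_le_mul_left h7 _
          _ = 1 * ∑' u : Gam, (1 + (len u : ℝ≥0∞)) ^ 12 * f u ^ 2 := (one_mul _).symm
          _ ≤ _ := mul_le_mul_left h4.2 _
      refine le_trans ?_ h6
      simpa [A] using h5
  -- the decomposition
  have hdec : ∀ x : Gam, ∑' u : Gam, f u * g (u⁻¹ * x) ≤ ∑ t ∈ T, A t x := by
    intro x
    rw [← Summable.tsum_finsetSum (fun _ _ => ENNReal.summable)]
    refine ENNReal.tsum_le_tsum fun u => ?_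
    by_cases hu : (nf u).length = k
    · obtain ⟨j, hj, hc⟩ := h1 u x
      rw [hu] at hj
      rcases hc with hc | hc
      · have hm : ((j, false) : ℕ × Bool) ∈ T :=
          Finset.mem_product.2 ⟨Finset.mem_range.2 (Nat.lt_succ_iff.2 hj), Finset.mem_univ _⟩
        refine le_trans ?_ (Finset.single_le_sum (f := fun t : ℕ × Bool =>
          (if (if t.2 then cls1 t.1 u x else cls0 t.1 u x) then f u * g (u⁻¹ * x) else 0))
          (fun _ _ => zero_le) hm)
        simp [hc]
      · have hm : ((j, true) : ℕ × Bool) ∈ T :=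
          Finset.mem_product.2 ⟨Finset.mem_range.2 (Nat.lt_succ_iff.2 hj), Finset.mem_univ _⟩
        refine le_trans ?_ (Finset.single_le_sum (f := fun t : ℕ × Bool =>
          (if (if t.2 then cls1 t.1 u x else cls0 t.1 u x) then f u * g (u⁻¹ * x) else 0))
          (fun _ _ => zero_le) hm)
        simp [hc]
    · rw [hf u hu, zero_mul]
      exact zero_le
  calc ∑' x : Gam, (∑' u : Gam, f u * g (u⁻¹ * x)) ^ 2
      ≤ ∑' x : Gam, (T.card : ℝ≥0∞) * ∑ t ∈ T, A t x ^ 2 :=
        ENNReal.tsum_le_tsum fun x => (pow_le_pow_left₀ (zero_le) (hdec x) 2).trans (sq_sum T _)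
    _ = (T.card : ℝ≥0∞) * ∑ t ∈ T, ∑' x : Gam, A t x ^ 2 := by
        rw [ENNReal.tsum_mul_left]
        congr 1
        exact Summable.tsum_finsetSum (fun _ _ => ENNReal.summable)
    _ ≤ (T.card : ℝ≥0∞) * ∑ t ∈ T, B := by
        refine mul_le_mul_right (Finset.sum_le_sum hA) _
    _ = 4 * ((k : ℝ≥0∞) + 1) ^ 2 * B := by
        rw [Finset.sum_const, nsmul_eq_mul, hTc]
        ring

end Pool.Agent.Y938.RD
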