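import Pool.Agent.Y938.RD.Stm

/-! Project RD, job RD2 (helper555): the length function on the free product. -/

set_option autoImplicit false

namespace Pool.Agent.Y938.RD

theorem inc_one (i : Bool) : inc i 1 = 1 := map_one (Monoid.CoprodI.of (M := fun _ : Bool => A))

theorem inc_mul (i : Bool) (a b : A) : inc i (a * b) = inc i a * inc i b :=
  map_mul (Monoid.CoprodI.of (M := fun _ : Bool => A)) a b

theorem inc_inv (i : Bool) (a : A) : inc i a⁻¹ = (inc i a)⁻¹ :=
  map_inv (Monoid.CoprodI.of (M := fun _ : Bool => A)) a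

theorem sz_one : sz 1 = 0 := by simp [sz]

theorem sz_mul (a b : A) : sz (a * b) ≤ sz a + sz b := by
  rw [sz, sz, sz, ← Finset.sum_add_distrib]
  refine Finset.sum_le_sum fun j _ => ?_
  rw [toAdd_mul, Pi.add_apply]
  exact Int.natAbs_add_le _ _

theorem sz_inv (a : A) : sz a⁻¹ = sz a := by
  simp [sz]

theorem sz_pos {a : A} (h : a ≠ 1) : 1 ≤ sz a := by
  by_contra hcon
  have h0 : sz a = 0 := by omega
  apply h
  apply Multiplicative.toAdd.injective
  funext j
  have := (Finset.sum_eq_zero_iff.1 h0) j (Finset.mem_univ j)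
  simpa using this

theorem isRed_nil : IsRed [] := ⟨by simp, List.IsChain.nil⟩

theorem isRed_tail {p : Lt} {l : List Lt} (h : IsRed (p :: l)) : IsRed l :=
  ⟨fun q hq => h.1 q (List.mem_cons_of_mem _ hq), h.2.tail⟩

theorem isRed_cons {i : Bool} {a : A} {l : List Lt} (ha : a ≠ 1) (hl : IsRed l)
    (h : ∀ q ∈ l.head?, i ≠ q.1) : IsRed ((⟨i, a⟩ : Lt) :: l) := by
  refine ⟨?_, ?_⟩
  · intro p hp
    rcases List.mem_cons.1 hp with rfl | hp
    · exact ha
    · exact hl.1 p hp
  · cases l with
    | nil => exact List.IsChain.singleton _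
    | cons q l => exact List.IsChain.cons_cons (h q rfl) hl.2

theorem val_cons (p : Lt) (l : List Lt) : val (p :: l) = inc p.1 p.2 * val l := by
  simp [val]

theorem len_val (h : S_nf) {l : List Lt} (hl : IsRed l) :
    len (val l) = (l.map (fun p => sz p.2)).sum := by
  rw [len, h.2.2 l hl]

theorem len_mul (h : S_nf) (i : Bool) (a : A) (x : Gam) : len (inc i a * x) ≤ sz a + len x := by
  have hx := h.2.1 x
  have hr := h.1 x
  generalize hl : nf x = l at hx hr
  rw [← hx, len_val h hr]
  by_cases ha : a = 1
  · rw [ha, inc_one, one_mul, len_val h hr]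
    omega
  cases l with
  | nil =>
    have h1 : inc i a * val [] = val [(⟨i, a⟩ : Lt)] := by rw [val_cons]
    rw [h1, len_val h (isRed_cons ha isRed_nil (by simp))]
    simp
  | cons p l =>
    obtain ⟨i', b⟩ := p
    by_cases hi : i = i'
    · subst hi
      have h1 : inc i a * val ((⟨i, b⟩ : Lt) :: l) = inc i (a * b) * val l := by
        rw [val_cons, inc_mul, mul_assoc]
      have hl' := isRed_tail hr
      by_cases hab : a * b = 1
      · rw [h1, hab, inc_one, one_mul, len_val h hl']
        simp only [List.map_cons, List.sum_cons]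
        omega
      · have h2 : inc i (a * b) * val l = val ((⟨i, a * b⟩ : Lt) :: l) := by rw [val_cons]
        have hred : IsRed ((⟨i, a * b⟩ : Lt) :: l) := by
          refine isRed_cons hab hl' ?_
          cases l with
          | nil => simp
          | cons q l =>
            intro q' hq'
            have : q' = q := by simpa using hq'.symm
            subst this
            exact (List.isChain_cons_cons.1 hr.2).1
        rw [h1, h2, len_val h hred]
        simp only [List.map_cons, List.sum_cons]
        have := sz_mul a b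
        omega
    · have h1 : inc i a * val ((⟨i', b⟩ : Lt) :: l) = val ((⟨i, a⟩ : Lt) :: (⟨i', b⟩ : Lt) :: l) := by
        rw [val_cons (⟨i, a⟩ : Lt)]
      have hred : IsRed ((⟨i, a⟩ : Lt) :: (⟨i', b⟩ : Lt) :: l) := by
        refine isRed_cons ha hr ?_
        intro q hq
        have : q = ⟨i', b⟩ := by simpa using hq.symm
        subst this
        exact hi
      rw [h1, len_val h hred]
      simp

theorem len_spec (h : S_nf) : S_len := by
  refine ⟨?_, len_mul h, ?_, ?_⟩
  · have h1 : (1 : Gam) = val [] := by simp [val]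
    rw [h1, len_val h isRed_nil]
    simp
  · intro x
    rw [len]
    have hr := (h.1 x).1
    generalize nf x = l at hr
    induction l with
    | nil => simp
    | cons p l ih =>
      have h1 := sz_pos (hr p (by simp))
      have h2 := ih (fun q hq => hr q (List.mem_cons_of_mem _ hq))
      simp only [List.length_cons, List.map_cons, List.sum_cons]
      omega
  · intro x p hp
    rw [len]
    exact List.single_le_sum (by simp) _ (List.mem_map_of_mem hp)

theorem inc_mem (i : Bool) (a : A) : inc i a ∈ Subgroup.closure (gens : Set Gam) := by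
  have ha : a = ∏ j : Fin 6, (Multiplicative.ofAdd (Pi.single j (1 : ℤ)) : A) ^
      (Multiplicative.toAdd a j) := by
    apply Multiplicative.toAdd.injective
    rw [toAdd_prod]
    funext k
    simp [Finset.sum_apply, Pi.single_apply]
  have hK : a ∈ (Subgroup.closure (gens : Set Gam)).comap
      (Monoid.CoprodI.of (M := fun _ : Bool => A) (i := i)) := by
    rw [ha]
    refine Subgroup.prod_mem _ fun j _ => Subgroup.zpow_mem _ ?_ _
    rw [Subgroup.mem_comap]
    refine Subgroup.subset_closure ?_
    simp only [gens, Finset.coe_image, Finset.coe_univ, Set.image_univ, Set.mem_range]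
    exact ⟨(i, j), rfl⟩
  exact hK

theorem gens_sz {y : Gam} (hy : y ∈ gens) : ∃ (i : Bool) (a : A), y = inc i a ∧ sz a = 1 := by
  simp only [gens, Finset.mem_image, Finset.mem_univ, true_and] at hy
  obtain ⟨⟨i, j⟩, rfl⟩ := hy
  refine ⟨i, _, rfl, ?_⟩
  simp only [sz, toAdd_ofAdd]
  rw [Finset.sum_eq_single j]
  · simp
  · intro k _ hk
    simp [hk]
  · simp

theorem gen_spec (h : S_nf) (h2 : S_len) : S_gen := by
  have htop : Subgroup.closure (gens : Set Gam) = ⊤ := by
    rw [eq_top_iff]
    intro x _
    rw [← h.2.1 x, val]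
    refine Subgroup.list_prod_mem _ ?_
    intro y hy
    obtain ⟨p, _, rfl⟩ := List.mem_map.1 hy
    exact inc_mem p.1 p.2
  refine ⟨htop, fun x => le_csInf ?_ ?_⟩
  · have hx : x ∈ (Subgroup.closure (gens : Set Gam)).toSubmonoid := by
      rw [htop]
      exact Subgroup.mem_top x
    rw [Subgroup.closure_toSubmonoid] at hx
    obtain ⟨l, hl, hp⟩ := Submonoid.exists_list_of_mem_closure hx
    exact ⟨l.length, l, rfl, fun y hy => by simpa using hl y hy, hp⟩
  · rintro n ⟨l, rfl, hl, rfl⟩
    induction l with
    | nil => simp [h2.1]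
    | cons y l ih =>
      have ih' := ih (fun z hz => hl z (List.mem_cons_of_mem _ hz))
      obtain ⟨i, a, rfl, ha⟩ : ∃ (i : Bool) (a : A), y = inc i a ∧ sz a = 1 := by
        rcases hl y (by simp) with hy | hy
        · exact gens_sz hy
        · obtain ⟨i, a, h1, h3⟩ := gens_sz hy
          refine ⟨i, a⁻¹, ?_, by rw [sz_inv, h3]⟩
          rw [inc_inv, ← h1, inv_inv]
      have := h2.2.1 i a l.prod
      simp only [List.prod_cons, List.length_cons]
      omega

end Pool.Agent.Y938.RD
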