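import Pool.Agent.Y938.RD.Stm

set_option autoImplicit false

/-! Project RD: the normal form of `u⁻¹ x`. -/

namespace Pool.Agent.Y938.RD

noncomputable section

namespace MulAux

theorem val_append (l l' : List Lt) : val (l ++ l') = val l * val l' := by
  unfold val
  rw [List.map_append, List.prod_append]

theorem val_cons (p : Lt) (l : List Lt) : val (p :: l) = inc p.1 p.2 * val l := by
  unfold val
  rw [List.map_cons, List.prod_cons]

theorem val_ilist (l : List Lt) : val (ilist l) = (val l)⁻¹ := by
  induction l with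
  | nil => simp [val, ilist]
  | cons p l ih =>
    have h1 : ilist (p :: l) = ilist l ++ [⟨p.1, p.2⁻¹⟩] := by simp [ilist]
    rw [h1, val_append, ih, val_cons, val_cons p l, mul_inv_rev]
    have h2 : val ([] : List Lt) = 1 := by simp [val]
    rw [h2, mul_one]
    have h3 : inc p.1 p.2⁻¹ = (inc p.1 p.2)⁻¹ := map_inv _ _
    simp only [h3]

theorem head_ilist (l : List Lt) {x : Lt} (hx : x ∈ (ilist l).getLast?) :
    ∃ p ∈ l.head?, x.1 = p.1 := by
  unfold ilist at hx
  rw [List.getLast?_reverse, List.head?_map] at hx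
  cases l with
  | nil => simp at hx
  | cons p l =>
    refine ⟨p, by simp, ?_⟩
    simp only [List.head?_cons, Option.map_some, Option.mem_def, Option.some.injEq] at hx
    rw [← hx]

theorem red_ilist {l : List Lt} (h : IsRed l) : IsRed (ilist l) := by
  refine ⟨?_, ?_⟩
  · intro p hp
    unfold ilist at hp
    rw [List.mem_reverse, List.mem_map] at hp
    obtain ⟨q, hq, rfl⟩ := hp
    exact inv_ne_one.2 (h.1 q hq)
  · unfold ilist
    rw [List.isChain_reverse, List.isChain_map]
    exact h.2.imp (fun a b hab => Ne.symm hab)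

theorem red_right {P C : List Lt} (h : IsRed (P ++ C)) : IsRed C :=
  ⟨fun p hp => h.1 p (List.mem_append_right _ hp), (List.isChain_append.1 h.2).2.1⟩

theorem red_tail {p : Lt} {C : List Lt} (h : IsRed (p :: C)) :
    IsRed C ∧ ∀ q ∈ C.head?, p.1 ≠ q.1 := by
  refine ⟨⟨fun q hq => h.1 q (List.mem_cons_of_mem _ hq), ?_⟩, ?_⟩
  · have := List.isChain_append.1 (show ([p] ++ C).IsChain (fun p q : Lt => p.1 ≠ q.1) from h.2)
    exact this.2.1
  · have := List.isChain_append.1 (show ([p] ++ C).IsChain (fun p q : Lt => p.1 ≠ q.1) from h.2)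
    intro q hq
    exact this.2.2 p (by simp) q hq

theorem red_append {B D : List Lt} (h1 : IsRed B) (h2 : IsRed D)
    (h : ∀ x ∈ B.getLast?, ∀ y ∈ D.head?, x.1 ≠ y.1) : IsRed (B ++ D) := by
  refine ⟨fun p hp => ?_, List.isChain_append.2 ⟨h1.2, h2.2, h⟩⟩
  rcases List.mem_append.1 hp with hp | hp
  · exact h1.1 p hp
  · exact h2.1 p hp

end MulAux

open MulAux in
theorem mul_spec (h : S_nf) : S_mul := by
  refine ⟨?_, ?_⟩
  · intro P C D hC hD hh
    have h1 : (val (P ++ C))⁻¹ * val (P ++ D) = val (ilist C ++ D) := by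
      rw [val_append, val_append, val_append, val_ilist]
      group
    rw [h1]
    refine h.2.2 _ (red_append (red_ilist (red_right hC)) (red_right hD) ?_)
    intro x hx y hy
    obtain ⟨p, hp, he⟩ := head_ilist C hx
    rw [he]
    exact hh p hp y hy
  · intro P C D i a e hC hD hae
    have h1 : (val (P ++ (⟨i, a⟩ : Lt) :: C))⁻¹ * val (P ++ (⟨i, e⟩ : Lt) :: D) =
        val (ilist C ++ (⟨i, a⁻¹ * e⟩ : Lt) :: D) := by
      rw [val_append, val_append, val_append, val_ilist, val_cons, val_cons, val_cons]
      have h2 : inc i (a⁻¹ * e) = (inc i a)⁻¹ * inc i e := by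
        unfold inc
        rw [map_mul, map_inv]
      simp only [h2]
      group
    rw [h1]
    have hC' := red_tail (red_right hC)
    have hD' := red_tail (red_right hD)
    refine h.2.2 _ (red_append (red_ilist hC'.1) ?_ ?_)
    · have h3 : IsRed ([(⟨i, a⁻¹ * e⟩ : Lt)] ++ D) := by
        refine red_append ⟨?_, ?_⟩ hD'.1 ?_
        · intro p hp
          rw [List.mem_singleton] at hp
          rw [hp]
          intro hcon
          exact hae (inv_mul_eq_one.1 hcon)
        · simp
        · intro x hx y hy
          have hx' : x = ⟨i, a⁻¹ * e⟩ := by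
            simpa using hx.symm
          rw [hx']
          exact hD'.2 y hy
      exact h3
    · intro x hx y hy
      obtain ⟨p, hp, he⟩ := head_ilist C hx
      rw [he]
      have hy' : y = ⟨i, a⁻¹ * e⟩ := by
        simpa using hy.symm
      rw [hy']
      exact (hC'.2 p hp).symm

end

end Pool.Agent.Y938.RD
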