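import Pool.Agent.Y938.RD.Stm

/-! Project RD, job RD1 (helper555): normal forms. -/

set_option autoImplicit false

namespace Pool.Agent.Y938.RD

theorem val_eq_prod (w : Monoid.CoprodI.Word (fun _ : Bool => A)) : val w.toList = w.prod := rfl

theorem nf_spec : S_nf := by
  refine ⟨fun x => ⟨?_, ?_⟩, fun x => ?_, fun l hl => ?_⟩
  · intro p hp
    exact (Monoid.CoprodI.Word.equiv x).ne_one p hp
  · exact (Monoid.CoprodI.Word.equiv x).chain_ne
  · rw [nf, val_eq_prod]
    exact Monoid.CoprodI.Word.equiv.symm_apply_apply x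
  · have h : (⟨l, hl.1, hl.2⟩ : Monoid.CoprodI.Word (fun _ : Bool => A))
        = Monoid.CoprodI.Word.equiv (val l) := by
      rw [← Equiv.symm_apply_eq]
      rfl
    rw [nf, ← h]

end Pool.Agent.Y938.RD
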