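import Mathlib
import Pool.Agent.Y938.RD.Stm

set_option autoImplicit false

/-! Project RD (frozen S19332): the measure on the free product and its odd return probabilities. -/

namespace Pool.Agent.Y938.RD.NuC

open Filter Topology
open scoped ENNReal

noncomputable section

theorem nu1_sum_mul (F : A → ℝ) :
    nu1.sum (fun b t => t * F b) = ∑ e : Fin 6 → Bool, (1 / 64 : ℝ) * F (eps e) := by
  unfold nu1
  rw [← Finsupp.sum_finsetSum_index (h := fun b t => t * F b)]
  · refine Finset.sum_congr rfl fun e _ => ?_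
    rw [Finsupp.sum_single_index]
    simp
  · intro b; simp
  · intro b t s; ring

theorem nu2_sum_mul (F : A → ℝ) :
    nu2.sum (fun b t => t * F b) = (1 / 2 : ℝ) * F e0 + (1 / 2 : ℝ) * F e0⁻¹ := by
  unfold nu2
  rw [Finsupp.sum_add_index' (h := fun b t => t * F b)]
  · rw [Finsupp.sum_single_index, Finsupp.sum_single_index] <;> simp
  · intro b; simp
  · intro b t s; ring

theorem nu1_nonneg (a : A) : 0 ≤ nu1 a := by
  unfold nu1
  rw [Finsupp.finsetSum_apply]
  refine Finset.sum_nonneg fun e _ => ?_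
  rw [Finsupp.single_apply]
  split_ifs <;> norm_num

theorem nu2_nonneg (a : A) : 0 ≤ nu2 a := by
  unfold nu2
  rw [Finsupp.add_apply, Finsupp.single_apply, Finsupp.single_apply]
  split_ifs <;> norm_num

theorem eps_inv (e : Fin 6 → Bool) : (eps e)⁻¹ = eps (fun j => !(e j)) := by
  unfold eps
  rw [← ofAdd_neg]
  congr 1
  funext j
  show (-(if e j = true then (1 : ℤ) else -1)) = if (!(e j)) = true then (1 : ℤ) else -1
  rcases hj : e j <;> simp

theorem nu1_inv : nu1.mapDomain (fun a => a⁻¹) = nu1 := by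
  unfold nu1
  rw [Finsupp.mapDomain_finsetSum]
  have : ∀ e : Fin 6 → Bool, Finsupp.mapDomain (fun a : A => a⁻¹) (Finsupp.single (eps e) (1 / 64 : ℝ)) =
      Finsupp.single (eps (fun j => !(e j))) (1 / 64 : ℝ) := by
    intro e
    rw [Finsupp.mapDomain_single, eps_inv]
  rw [Finset.sum_congr rfl (fun e _ => this e)]
  have hinv : Function.Involutive (fun (e : Fin 6 → Bool) (j : Fin 6) => !(e j)) := by
    intro e; funext j; simp
  exact Fintype.sum_bijective _ hinv.bijective _ _ (fun e => rfl)

theorem nu2_inv : nu2.mapDomain (fun a => a⁻¹) = nu2 := by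
  unfold nu2
  rw [Finsupp.mapDomain_add, Finsupp.mapDomain_single, Finsupp.mapDomain_single, inv_inv, add_comm]

theorem map_inc_nonneg (i : Bool) (m : A →₀ ℝ) (hm : ∀ a, 0 ≤ m a) (x : Gam) :
    0 ≤ (m.mapDomain (inc i)) x := by
  classical
  rw [Finsupp.mapDomain, Finsupp.sum_apply, Finsupp.sum]
  refine Finset.sum_nonneg fun a _ => ?_
  rw [Finsupp.single_apply]
  split_ifs
  · exact hm a
  · exact le_refl _

theorem nu_sum_mul (α β : ℝ) (F : Gam → ℝ) :
    (nu α β).sum (fun y t => t * F y) =
      (α • nu1).sum (fun b t => t * F (inc false b)) + (β • nu2).sum (fun b t => t * F (inc true b)) := by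
  unfold nu
  rw [Finsupp.sum_add_index' (h := fun y t => t * F y)]
  · rw [← Finsupp.mapDomain_smul, ← Finsupp.mapDomain_smul]
    rw [Finsupp.sum_mapDomain_index, Finsupp.sum_mapDomain_index]
    · intro b; simp
    · intro b t s; ring
    · intro b; simp
    · intro b t s; ring
  · intro b; simp
  · intro b t s; ring

theorem smul_sum_mul (c : ℝ) (m : A →₀ ℝ) (F : A → ℝ) :
    (c • m).sum (fun b t => t * F b) = c * m.sum (fun b t => t * F b) := by
  rw [Finsupp.sum_smul_index (fun b => by simp), Finsupp.sum, Finsupp.sum, Finset.mul_sum]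
  refine Finset.sum_congr rfl fun b _ => by ring

theorem nu_formula (α β : ℝ) (F : Gam → ℝ) :
    (nu α β).sum (fun y t => t * F y) =
      α * (∑ e : Fin 6 → Bool, (1 / 64 : ℝ) * F (inc false (eps e))) +
      β * ((1 / 2 : ℝ) * F (inc true e0) + (1 / 2 : ℝ) * F (inc true e0⁻¹)) := by
  rw [nu_sum_mul, smul_sum_mul, smul_sum_mul, nu1_sum_mul (fun b => F (inc false b)),
    nu2_sum_mul (fun b => F (inc true b))]

theorem inc_inv (i : Bool) (a : A) : (inc i a)⁻¹ = inc i a⁻¹ := by
  unfold inc
  rw [map_inv]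

theorem map_inc_inv (i : Bool) (m : A →₀ ℝ) (hm : m.mapDomain (fun a => a⁻¹) = m) :
    (m.mapDomain (inc i)).mapDomain (fun x : Gam => x⁻¹) = m.mapDomain (inc i) := by
  rw [← Finsupp.mapDomain_comp]
  have : (fun x : Gam => x⁻¹) ∘ (inc i) = (inc i) ∘ (fun a : A => a⁻¹) := by
    funext a
    simp only [Function.comp]
    exact inc_inv i a
  rw [this, Finsupp.mapDomain_comp, hm]

theorem nu_spec : S_nu := by
  intro α β hα hβ hαβ
  refine ⟨?_, ?_, ?_, ?_⟩
  · intro x
    unfold nu
    rw [Finsupp.add_apply, Finsupp.smul_apply, Finsupp.smul_apply, smul_eq_mul, smul_eq_mul]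
    exact add_nonneg (mul_nonneg hα.le (map_inc_nonneg _ _ nu1_nonneg x))
      (mul_nonneg hβ.le (map_inc_nonneg _ _ nu2_nonneg x))
  · have h := nu_formula α β (fun _ => 1)
    simp only [mul_one] at h
    rw [h]
    simp only [Finset.sum_const, Finset.card_univ, Fintype.card_fun, Fintype.card_bool, Fintype.card_fin]
    norm_num
    linarith
  · intro x
    have h : (nu α β).mapDomain (fun x : Gam => x⁻¹) = nu α β := by
      unfold nu
      rw [Finsupp.mapDomain_add, Finsupp.mapDomain_smul, Finsupp.mapDomain_smul,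
        map_inc_inv false nu1 nu1_inv, map_inc_inv true nu2 nu2_inv]
    have h2 := Finsupp.mapDomain_apply (f := fun x : Gam => x⁻¹) inv_injective (nu α β) x
    rw [h] at h2
    exact h2
  · intro h x
    unfold Tn
    exact nu_sum_mul α β (fun y => h (y⁻¹ * x))

/-- Parity of the coordinate `0`. -/
def parA : A →* Multiplicative (ZMod 2) where
  toFun a := Multiplicative.ofAdd ((Multiplicative.toAdd a 0 : ℤ) : ZMod 2)
  map_one' := by simp
  map_mul' a b := by
    simp only [toAdd_mul, Pi.add_apply, Int.cast_add, ofAdd_add]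

/-- Parity on the free product. -/
def parG : Gam →* Multiplicative (ZMod 2) := Monoid.CoprodI.lift (fun _ : Bool => parA)

theorem parG_inc (i : Bool) (a : A) : parG (inc i a) = parA a := by
  unfold parG inc
  exact Monoid.CoprodI.lift_of (fi := fun _ : Bool => parA) a

theorem parA_eps (e : Fin 6 → Bool) : parA (eps e) = Multiplicative.ofAdd (1 : ZMod 2) := by
  show Multiplicative.ofAdd (((if e 0 then (1 : ℤ) else -1) : ℤ) : ZMod 2) = _
  congr 1
  cases e 0 <;> simp

theorem parA_e0 : parA e0 = Multiplicative.ofAdd (1 : ZMod 2) := by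
  show Multiplicative.ofAdd (((Pi.single (M := fun _ : Fin 6 => ℤ) 0 (1 : ℤ)) 0 : ℤ) : ZMod 2) = _
  simp

theorem par_step (x : Gam) (b : A) (i : Bool) (hb : parA b = Multiplicative.ofAdd (1 : ZMod 2)) (n : ℕ)
    (h : parG ((inc i b)⁻¹ * x) = Multiplicative.ofAdd (n : ZMod 2)) :
    parG x = Multiplicative.ofAdd ((n + 1 : ℕ) : ZMod 2) := by
  rw [map_mul, map_inv, parG_inc, hb] at h
  have h2 : parG x = Multiplicative.ofAdd (1 : ZMod 2) * Multiplicative.ofAdd (n : ZMod 2) := by
    rw [← h]; group
  rw [h2, ← ofAdd_add]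
  congr 1
  push_cast
  ring

theorem iter_par (α β : ℝ) (n : ℕ) : ∀ x : Gam,
    ((Tn (nu α β))^[n] (Set.indicator ({1} : Set Gam) (fun _ => (1 : ℝ)))) x ≠ 0 →
      parG x = Multiplicative.ofAdd (n : ZMod 2) := by
  induction n with
  | zero =>
    intro x hx
    simp only [Function.iterate_zero, id] at hx
    have : x = 1 := by
      by_contra hne
      exact hx (Set.indicator_of_notMem (by simpa using hne) _)
    rw [this, map_one]
    simp
  | succ n ih =>
    intro x hx
    rw [Function.iterate_succ_apply'] at hx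
    set H := ((Tn (nu α β))^[n] (Set.indicator ({1} : Set Gam) (fun _ => (1 : ℝ)))) with hH
    by_contra hne
    apply hx
    unfold Tn
    rw [nu_formula α β (fun y => H (y⁻¹ * x))]
    have key : ∀ (b : A) (i : Bool), parA b = Multiplicative.ofAdd (1 : ZMod 2) →
        H ((inc i b)⁻¹ * x) = 0 := by
      intro b i hb
      by_contra h0
      exact hne (par_step x b i hb n (ih _ h0))
    have he0' : parA e0⁻¹ = Multiplicative.ofAdd (1 : ZMod 2) := by
      rw [map_inv, parA_e0]
      decide
    rw [key _ _ parA_e0, key _ _ he0']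
    rw [Finset.sum_eq_zero (fun e _ => by rw [key _ _ (parA_eps e), mul_zero])]
    ring

theorem odd_spec (_h : S_nu) : S_odd := by
  intro α β _ _ _ m
  by_contra hne
  have := iter_par α β (2 * m + 1) 1 hne
  rw [map_one] at this
  have h2 : ((2 * m + 1 : ℕ) : ZMod 2) = 1 := by
    push_cast
    have : (2 : ZMod 2) = 0 := by decide
    rw [this]; ring
  rw [h2] at this
  exact absurd this (by decide)

end

end Pool.Agent.Y938.RD.NuC
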