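import Mathlib
import Pool.Agent.Y938.RD.Stm

set_option autoImplicit false

/-! Project RD: simple random walk on `Z` and the product walk on `Z^6`. -/

namespace Pool.Agent.Y938.RD

open Filter Topology

noncomputable section

theorem kap_zero (k : ℤ) : kap 0 k = if k = 0 then 1 else 0 := rfl

theorem kap_succ (n : ℕ) (k : ℤ) : kap (n + 1) k = (kap n (k - 1) + kap n (k + 1)) / 2 := rfl

theorem kap_nonneg (n : ℕ) : ∀ k, 0 ≤ kap n k := by
  induction n with
  | zero => intro k; rw [kap_zero]; split_ifs <;> norm_num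
  | succ n ih => intro k; rw [kap_succ]; have := ih (k - 1); have := ih (k + 1); positivity

theorem kap_le_one (n : ℕ) : ∀ k, kap n k ≤ 1 := by
  induction n with
  | zero => intro k; rw [kap_zero]; split_ifs <;> norm_num
  | succ n ih => intro k; rw [kap_succ]; have := ih (k - 1); have := ih (k + 1); linarith

theorem kap_low (n : ℕ) : ∀ k : ℤ, k < -(n : ℤ) → kap n k = 0 := by
  induction n with
  | zero => intro k hk; rw [kap_zero, if_neg (by push_cast at hk; omega)]
  | succ n ih =>
    intro k hk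
    push_cast at hk
    rw [kap_succ, ih (k - 1) (by omega), ih (k + 1) (by omega)]
    norm_num

theorem kap_odd (n : ℕ) : ∀ k : ℤ, ¬ Even ((n : ℤ) + k) → kap n k = 0 := by
  induction n with
  | zero =>
    intro k hk
    rw [kap_zero, if_neg]
    rintro rfl
    apply hk
    simp
  | succ n ih =>
    intro k hk
    rw [Int.not_even_iff] at hk
    push_cast at hk
    rw [kap_succ, ih (k - 1) (by rw [Int.not_even_iff]; omega),
      ih (k + 1) (by rw [Int.not_even_iff]; omega)]
    norm_num

theorem kap_choose (n : ℕ) : ∀ j : ℕ, kap n (2 * (j : ℤ) - n) = (n.choose j : ℝ) / 2 ^ n := by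
  induction n with
  | zero =>
    intro j
    rw [kap_zero]
    rcases Nat.eq_zero_or_pos j with rfl | hj
    · simp
    · rw [if_neg (by push_cast; omega), Nat.choose_eq_zero_of_lt hj]
      simp
  | succ n ih =>
    intro j
    rw [kap_succ]
    rcases j with _ | i
    · have e1 : (2 * ((0 : ℕ) : ℤ) - ((n + 1 : ℕ) : ℤ) - 1) = -(n : ℤ) - 2 := by push_cast; ring
      have e2 : (2 * ((0 : ℕ) : ℤ) - ((n + 1 : ℕ) : ℤ) + 1) = 2 * ((0 : ℕ) : ℤ) - n := by
        push_cast; ring
      rw [e1, e2, kap_low n _ (by omega), ih 0]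
      simp only [Nat.choose_zero_right, Nat.cast_one]
      rw [pow_succ]
      field_simp
      ring
    · have e1 : (2 * ((i + 1 : ℕ) : ℤ) - ((n + 1 : ℕ) : ℤ) - 1) = 2 * (i : ℤ) - n := by
        push_cast; ring
      have e2 : (2 * ((i + 1 : ℕ) : ℤ) - ((n + 1 : ℕ) : ℤ) + 1) = 2 * ((i + 1 : ℕ) : ℤ) - n := by
        push_cast; ring
      rw [e1, e2, ih i, ih (i + 1), Nat.choose_succ_succ, pow_succ]
      push_cast
      field_simp

theorem kap_spec : S_kap := by
  refine ⟨kap_nonneg, kap_le_one, fun m => kap_odd _ _ ?_, fun m => ?_⟩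
  · rw [Int.not_even_iff]
    push_cast
    omega
  · have := kap_choose (2 * m) m
    have e : 2 * (m : ℤ) - ((2 * m : ℕ) : ℤ) = 0 := by push_cast; ring
    rw [e] at this
    rw [this, Nat.centralBinom, pow_mul]
    norm_num

/-- `u_m = centralBinom m / 4^m` -/
def um (m : ℕ) : ℝ := (Nat.centralBinom m : ℝ) / 4 ^ m

theorem um_succ (m : ℕ) : um (m + 1) * (2 * m + 2) = um m * (2 * m + 1) := by
  have h : ((m : ℝ) + 1) * (Nat.centralBinom (m + 1) : ℝ) =
      2 * (2 * m + 1) * (Nat.centralBinom m : ℝ) := by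
    exact_mod_cast Nat.succ_mul_centralBinom_succ m
  unfold um
  rw [pow_succ]
  field_simp
  linarith

theorem um_nonneg (m : ℕ) : 0 ≤ um m := by unfold um; positivity

theorem um_upper (m : ℕ) : um m ^ 2 * (2 * m + 1) ≤ 1 := by
  induction m with
  | zero => simp [um]
  | succ m ih =>
    have h := um_succ m
    have hm : (0 : ℝ) < 2 * m + 2 := by positivity
    have e : um (m + 1) ^ 2 * (2 * m + 2) ^ 2 = um m ^ 2 * (2 * m + 1) ^ 2 := by
      have : (um (m + 1) * (2 * m + 2)) ^ 2 = (um m * (2 * m + 1)) ^ 2 := by rw [h]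
      nlinarith [this]
    push_cast
    have h2 : um (m + 1) ^ 2 * (2 * ((m : ℝ) + 1) + 1) * (2 * m + 2) ^ 2 ≤ 1 * (2 * m + 2) ^ 2 := by
      have h3 : um (m + 1) ^ 2 * (2 * ((m : ℝ) + 1) + 1) * (2 * m + 2) ^ 2 =
          (um m ^ 2 * (2 * m + 1)) * ((2 * m + 1) * (2 * m + 3)) := by
        calc um (m + 1) ^ 2 * (2 * ((m : ℝ) + 1) + 1) * (2 * m + 2) ^ 2
            = (um (m + 1) ^ 2 * (2 * m + 2) ^ 2) * (2 * m + 3) := by ring
          _ = _ := by rw [e]; ring
      rw [h3]
      have h4 : (0 : ℝ) ≤ (2 * m + 1) * (2 * m + 3) := by positivity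
      nlinarith [mul_le_mul_of_nonneg_right ih h4]
    exact le_of_mul_le_mul_right h2 (by positivity)

theorem um_lower (m : ℕ) (hm : 1 ≤ m) : 1 ≤ um m ^ 2 * (4 * m) := by
  induction m, hm using Nat.le_induction with
  | base =>
    unfold um
    have : Nat.centralBinom 1 = 2 := by decide
    rw [this]
    norm_num
  | succ m hm ih =>
    have h := um_succ m
    have e : um (m + 1) ^ 2 * (2 * m + 2) ^ 2 = um m ^ 2 * (2 * m + 1) ^ 2 := by
      have : (um (m + 1) * (2 * m + 2)) ^ 2 = (um m * (2 * m + 1)) ^ 2 := by rw [h]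
      nlinarith [this]
    push_cast
    have h2 : 1 * ((m : ℝ) + 1) ≤ um (m + 1) ^ 2 * (4 * ((m : ℝ) + 1)) * ((m : ℝ) + 1) := by
      have h3 : um (m + 1) ^ 2 * (4 * ((m : ℝ) + 1)) * ((m : ℝ) + 1) =
          um m ^ 2 * (2 * m + 1) ^ 2 := by
        rw [← e]; ring
      rw [h3]
      have hm' : (0 : ℝ) ≤ (m : ℝ) + 1 := by positivity
      have h5 := mul_le_mul_of_nonneg_right ih hm'
      nlinarith [sq_nonneg (um m)]
    exact le_of_mul_le_mul_right h2 (by positivity)

theorem pp_spec (h : S_kap) : S_pp := by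
  obtain ⟨h0, h1, h2, h3⟩ := h
  refine ⟨?_, ?_, ?_, ?_, ?_⟩
  · simp [pp, kap_zero]
  · intro m; simp [pp, h2 m]
  · intro n; exact pow_nonneg (h0 _ _) 6
  · intro m
    have e : pp (2 * m) = (um m ^ 2) ^ 3 := by
      unfold pp um; rw [h3 m]; ring
    rw [e]
    have hu := um_upper m
    have hp : (0 : ℝ) < 2 * m + 1 := by positivity
    have : um m ^ 2 ≤ 1 / (2 * m + 1) := by rw [le_div_iff₀ hp]; exact hu
    calc (um m ^ 2) ^ 3 ≤ (1 / (2 * (m : ℝ) + 1)) ^ 3 := by
          exact pow_le_pow_left₀ (sq_nonneg _) this 3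
      _ = 1 / (2 * (m : ℝ) + 1) ^ 3 := by rw [div_pow, one_pow]
  · intro m hm
    have e : pp (2 * m) = (um m ^ 2) ^ 3 := by
      unfold pp um; rw [h3 m]; ring
    rw [e]
    have hu := um_lower m hm
    have hp : (0 : ℝ) < 4 * m := by
      have : (1 : ℝ) ≤ m := by exact_mod_cast hm
      linarith
    have : 1 / (4 * (m : ℝ)) ≤ um m ^ 2 := by rw [div_le_iff₀ hp]; exact hu
    calc 1 / (64 * (m : ℝ) ^ 3) = (1 / (4 * (m : ℝ))) ^ 3 := by
          rw [div_pow, one_pow, mul_pow]; norm_num
      _ ≤ (um m ^ 2) ^ 3 := pow_le_pow_left₀ (by positivity) this 3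

theorem w1_nonneg (n : ℕ) (a : A) : 0 ≤ w1 n a :=
  Finset.prod_nonneg fun _ _ => kap_nonneg _ _

theorem w1_le_one (n : ℕ) (a : A) : w1 n a ≤ 1 :=
  Finset.prod_le_one (fun _ _ => kap_nonneg _ _) fun _ _ => kap_le_one _ _

theorem w1_zero (a : A) : w1 0 a = Set.indicator ({1} : Set A) (fun _ => (1 : ℝ)) a := by
  unfold w1
  by_cases ha : a = 1
  · subst ha
    rw [Set.indicator_of_mem (by simp)]
    exact Finset.prod_eq_one fun j _ => by rw [kap_zero, if_pos (by simp)]
  · rw [Set.indicator_of_notMem (by simpa using ha)]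
    have : ∃ j, Multiplicative.toAdd a j ≠ 0 := by
      by_contra hcon
      push Not at hcon
      apply ha
      have : Multiplicative.toAdd a = 0 := funext hcon
      exact toAdd_eq_zero.1 this
    obtain ⟨j, hj⟩ := this
    exact Finset.prod_eq_zero (Finset.mem_univ j) (by rw [kap_zero, if_neg hj])

theorem w1_succ (n : ℕ) (a : A) :
    w1 (n + 1) a = ∑ e : Fin 6 → Bool, (1 / 64 : ℝ) * w1 n ((eps e)⁻¹ * a) := by
  have h1 : w1 (n + 1) a = ∏ j : Fin 6, ∑ b ∈ (Finset.univ : Finset Bool),
      (1 / 2 : ℝ) * kap n (Multiplicative.toAdd a j - (if b then (1 : ℤ) else -1)) := by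
    unfold w1
    refine Finset.prod_congr rfl fun j _ => ?_
    rw [kap_succ, Fintype.sum_bool]
    simp only [if_true, Bool.false_eq_true, if_false, sub_neg_eq_add]
    ring
  rw [h1, Finset.prod_univ_sum, Fintype.piFinset_univ]
  refine Finset.sum_congr rfl fun e _ => ?_
  rw [Finset.prod_mul_distrib, Finset.prod_const, Finset.card_univ, Fintype.card_fin]
  congr 1
  · norm_num
  · unfold w1
    refine Finset.prod_congr rfl fun j _ => ?_
    congr 1
    unfold eps
    simp only [toAdd_mul, toAdd_inv, toAdd_ofAdd, Pi.add_apply, Pi.neg_apply]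
    ring

theorem nu1_sum (F : A → ℝ) :
    nu1.sum (fun b t => t * F b) = ∑ e : Fin 6 → Bool, (1 / 64 : ℝ) * F (eps e) := by
  unfold nu1
  rw [← Finsupp.sum_finsetSum_index (fun _ => by simp) (fun _ _ _ => by ring)]
  exact Finset.sum_congr rfl fun e _ => by rw [Finsupp.sum_single_index (by simp)]

theorem geo_summable {s : ℝ} (hs : 1 < s) : Summable (fun n : ℕ => 1 / s ^ (n + 1)) := by
  have h := (summable_geometric_of_lt_one (r := 1 / s) (by positivity)
    (by rw [div_lt_one (by linarith)]; exact hs)).mul_left (1 / s)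
  refine h.congr fun n => ?_
  rw [div_pow, one_pow, pow_succ]
  field_simp

theorem w1_summable {s : ℝ} (hs : 1 < s) (a : A) : Summable (fun n : ℕ => w1 n a / s ^ (n + 1)) := by
  refine Summable.of_nonneg_of_le (fun n => ?_) (fun n => ?_) (geo_summable hs)
  · have := w1_nonneg n a; positivity
  · have : 0 < s ^ (n + 1) := by positivity
    exact div_le_div_of_nonneg_right (w1_le_one n a) this.le

theorem gs_spec (_h : S_kap) (_hp : S_pp) : S_gs := by
  intro s hs
  have hs0 : 0 < s := by linarith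
  refine ⟨?_, ?_, ?_, ?_⟩
  · intro a
    exact tsum_nonneg fun n => div_nonneg (w1_nonneg n a) (by positivity)
  · unfold gs Gf
    refine tsum_congr fun n => ?_
    congr 1
    unfold w1 pp
    rw [Finset.prod_congr rfl (g := fun _ => kap n 0) fun j _ => by simp]
    simp
  · intro a
    have e1 : s * gs s a = ∑' n : ℕ, w1 n a / s ^ n := by
      unfold gs
      rw [← tsum_mul_left]
      refine tsum_congr fun n => ?_
      rw [pow_succ]
      field_simp
    have hsum : Summable (fun n : ℕ => w1 n a / s ^ n) := by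
      refine ((w1_summable hs a).mul_left s).congr fun n => ?_
      rw [pow_succ]
      field_simp
    rw [e1, hsum.tsum_eq_zero_add, nu1_sum, pow_zero, div_one, w1_zero, add_comm]
    congr 1
    have e2 : ∀ n : ℕ, w1 (n + 1) a / s ^ (n + 1) =
        ∑ e : Fin 6 → Bool, (1 / 64 : ℝ) * (w1 n ((eps e)⁻¹ * a) / s ^ (n + 1)) := by
      intro n
      rw [w1_succ, Finset.sum_div]
      exact Finset.sum_congr rfl fun e _ => by rw [mul_div_assoc]
    rw [tsum_congr e2, Summable.tsum_finsetSum fun e _ => (w1_summable hs _).mul_left _]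
    refine Finset.sum_congr rfl fun e _ => ?_
    rw [tsum_mul_left]
    rfl
  · intro a ha
    unfold gs
    rw [(w1_summable hs a).tsum_eq_zero_add, w1_zero, Set.indicator_of_notMem (by simpa using ha),
      zero_div, zero_add]
    have h3 : ∀ n : ℕ, 1 / s ^ (n + 1 + 1) = 1 / s ^ 2 * (1 / s) ^ n := by
      intro n
      rw [pow_succ, pow_succ, div_pow, one_pow]
      field_simp
    have h4 : Summable (fun n : ℕ => 1 / s ^ (n + 1 + 1)) :=
      (geo_summable hs).comp_injective (i := fun n => n + 1) (fun _ _ h => by simpa using h)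
    calc ∑' n : ℕ, w1 (n + 1) a / s ^ (n + 1 + 1) ≤ ∑' n : ℕ, 1 / s ^ (n + 1 + 1) := by
          refine Summable.tsum_le_tsum (fun n => ?_) ?_ h4
          · exact div_le_div_of_nonneg_right (w1_le_one _ a) (by positivity)
          · exact (w1_summable hs a).comp_injective (i := fun n => n + 1)
              (fun _ _ h => by simpa using h)
      _ = 1 / s ^ 2 * (1 - 1 / s)⁻¹ := by
          rw [tsum_congr h3, tsum_mul_left, tsum_geometric_of_lt_one (by positivity)
            (by rw [div_lt_one hs0]; exact hs)]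
      _ = 1 / (s * (s - 1)) := by
          have : s - 1 ≠ 0 := by linarith
          have h6 : (1 - 1 / s) = (s - 1) / s := by field_simp
          rw [h6, inv_div]
          field_simp
      _ ≤ 1 / (s * (s - 1)) := le_rfl

end

end Pool.Agent.Y938.RD
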