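import Mathlib

set_option autoImplicit false

/-! Project RD (frozen S19332): a random walk on a group with Property RD whose return probabilities are not
asymptotic to `c n^{-d} ρ^{2n}`.  Group `Gam = Z^6 * Z^6`. Definitions. -/

namespace Pool.Agent.Y938.RD

open Filter Topology
open scoped ENNReal

noncomputable section

/-- The factor `Z^6` (written multiplicatively). -/
abbrev A : Type := Multiplicative (Fin 6 → ℤ)

/-- The free product `Z^6 * Z^6`. -/
abbrev Gam : Type := Monoid.CoprodI (fun _ : Bool => A)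

/-- Letters: index of the factor and element of `Z^6`. -/
abbrev Lt : Type := Σ _ : Bool, A

/-- The embedding of the factor `i`. -/
abbrev inc (i : Bool) (a : A) : Gam := Monoid.CoprodI.of (M := fun _ : Bool => A) (i := i) a

/-- Reduced lists of letters. -/
def IsRed (l : List Lt) : Prop := (∀ p ∈ l, p.2 ≠ 1) ∧ l.IsChain (fun p q => p.1 ≠ q.1)

/-- The product in the free product of a list of letters. -/
def val (l : List Lt) : Gam := (l.map (fun p => inc p.1 p.2)).prod

/-- The normal form. -/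
def nf (x : Gam) : List Lt := (Monoid.CoprodI.Word.equiv x).toList

/-- `ℓ¹` size of an element of `Z^6`. -/
def sz (a : A) : ℕ := ∑ j : Fin 6, (Multiplicative.toAdd a j).natAbs

/-- Length of an element of the free product: the sum of the sizes of the letters of its normal form. -/
def len (x : Gam) : ℕ := ((nf x).map (fun p => sz p.2)).sum

/-- The standard generating set. -/
def gens : Finset Gam :=
  (Finset.univ : Finset (Bool × Fin 6)).image (fun q => inc q.1 (Multiplicative.ofAdd (Pi.single q.2 (1 : ℤ))))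

/-- The constant `Σ_a (1+|a|)^{-12}` over `Z^6`. -/
def Kc : ℝ≥0∞ := ∑' a : A, ((1 + (sz a : ℝ≥0∞)) ^ 12)⁻¹

/-- The convolution operator of the frozen statement. -/
def Tn {G : Type} [Group G] (ν : G →₀ ℝ) : (G → ℝ) → (G → ℝ) :=
  fun (h : G → ℝ) (x : G) => ν.sum (fun y a => a * h (y⁻¹ * x))

/-- The return probabilities `ν^{(n)}(e)`. -/
def ret {G : Type} [Group G] (ν : G →₀ ℝ) (n : ℕ) : ℝ :=
  ((Tn ν)^[n] (Set.indicator ({1} : Set G) (fun _ => (1 : ℝ)))) 1

/-- The vector `(±1,…,±1)` of `Z^6`. -/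
def eps (e : Fin 6 → Bool) : A := Multiplicative.ofAdd (fun j => if e j then (1 : ℤ) else -1)

/-- First measure on `Z^6`: uniform on `{±1}^6`. -/
def nu1 : A →₀ ℝ := ∑ e : Fin 6 → Bool, Finsupp.single (eps e) (1 / 64 : ℝ)

/-- First coordinate vector. -/
def e0 : A := Multiplicative.ofAdd (Pi.single 0 (1 : ℤ))

/-- Second measure on `Z^6`: simple random walk in the first coordinate. -/
def nu2 : A →₀ ℝ := Finsupp.single e0 (1 / 2 : ℝ) + Finsupp.single e0⁻¹ (1 / 2 : ℝ)

/-- The measure on the free product. -/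
def nu (α β : ℝ) : Gam →₀ ℝ :=
  α • (nu1.mapDomain (inc false)) + β • (nu2.mapDomain (inc true))

/-- Simple random walk on `Z`. -/
def kap : ℕ → ℤ → ℝ
  | 0, k => if k = 0 then 1 else 0
  | n + 1, k => (kap n (k - 1) + kap n (k + 1)) / 2

/-- The `n`-step law of the walk `nu1`. -/
def w1 (n : ℕ) (a : A) : ℝ := ∏ j : Fin 6, kap n (Multiplicative.toAdd a j)

/-- The Green function of the walk `nu1`. -/
def gs (s : ℝ) (a : A) : ℝ := ∑' n : ℕ, w1 n a / s ^ (n + 1)

/-- The return probabilities of the walk `nu1`. -/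
def pp (n : ℕ) : ℝ := (kap n 0) ^ 6

/-- The function `y Π c(letters)` on the free product. -/
def Uf (y : ℝ) (c : Bool → A → ℝ) (x : Gam) : ℝ := y * ((nf x).map (fun p => c p.1 p.2)).prod

/-- The bounds for the return probabilities used in the analytic part. -/
structure PB (p : ℕ → ℝ) : Prop where
  zero : p 0 = 1
  odd : ∀ m : ℕ, p (2 * m + 1) = 0
  nonneg : ∀ n : ℕ, 0 ≤ p n
  le : ∀ m : ℕ, p (2 * m) ≤ 1 / (2 * (m : ℝ) + 1) ^ 3
  ge : ∀ m : ℕ, 1 ≤ m → 1 / (64 * (m : ℝ) ^ 3) ≤ p (2 * m)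

/-- `G(s) = Σ p_n s^{-n-1}`. -/
def Gf (p : ℕ → ℝ) (s : ℝ) : ℝ := ∑' n : ℕ, p n / s ^ (n + 1)

/-- `c_1 = Σ (n+1) p_n = -G'(1)`. -/
def cc (p : ℕ → ℝ) : ℝ := ∑' n : ℕ, ((n : ℝ) + 1) * p n

/-- `χ(s) = s + sqrt(λ^2 + 1/G(s)^2) - 1/G(s)`. -/
def chi (p : ℕ → ℝ) (lam s : ℝ) : ℝ := s + Real.sqrt (lam ^ 2 + (Gf p s)⁻¹ ^ 2) - (Gf p s)⁻¹

end

end Pool.Agent.Y938.RD
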