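import Mathlib
import Pool.Agent.Y938.RD.Stm

set_option autoImplicit false

/-! Project RD: the Green function of a free product (normal form computation). -/

namespace Pool.Agent.Y938.RD

open Filter Topology

noncomputable section

theorem val_cons (i : Bool) (b : A) (l : List Lt) :
    val ((⟨i, b⟩ : Lt) :: l) = inc i b * val l := by
  simp [val]

theorem isRed_cons {i : Bool} {b : A} {l : List Lt} (hb : b ≠ 1) (hl : IsRed l)
    (hh : ∀ q ∈ l.head?, q.1 ≠ i) : IsRed ((⟨i, b⟩ : Lt) :: l) := by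
  refine ⟨?_, ?_⟩
  · intro p hp
    rcases List.mem_cons.1 hp with rfl | hp
    · exact hb
    · exact hl.1 p hp
  · rw [List.isChain_cons]
    exact ⟨fun q hq => (hh q hq).symm, hl.2⟩

theorem isRed_tail {i : Bool} {g : A} {l : List Lt} (h : IsRed ((⟨i, g⟩ : Lt) :: l)) :
    IsRed l ∧ g ≠ 1 ∧ ∀ q ∈ l.head?, q.1 ≠ i := by
  refine ⟨⟨fun p hp => h.1 p (List.mem_cons_of_mem _ hp), ?_⟩, h.1 ⟨i, g⟩ (by simp), ?_⟩
  · have := h.2
    rw [List.isChain_cons] at this
    exact this.2
  · intro q hq
    have := h.2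
    rw [List.isChain_cons] at this
    exact (this.1 q hq).symm

theorem Uf_inc (h : S_nf) (y : ℝ) (c : Bool → A → ℝ) (hc : ∀ i, c i 1 = 1) (i : Bool) (x' : Gam)
    (hh : ∀ q ∈ (nf x').head?, q.1 ≠ i) (b : A) :
    Uf y c (inc i b * x') = c i b * Uf y c x' := by
  by_cases hb : b = 1
  · subst hb
    have : inc i (1 : A) = 1 := map_one _
    rw [this, one_mul, hc, one_mul]
  · have hn : nf (inc i b * x') = (⟨i, b⟩ : Lt) :: nf x' := by
      have h1 := h.2.2 _ (isRed_cons hb (h.1 x') hh)
      rw [val_cons, h.2.1 x'] at h1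
      exact h1
    unfold Uf
    rw [hn, List.map_cons, List.prod_cons]
    ring

theorem sum_inc (h : S_nf) (y : ℝ) (c : Bool → A → ℝ) (hc : ∀ i, c i 1 = 1) (i : Bool) (x' : Gam)
    (hh : ∀ q ∈ (nf x').head?, q.1 ≠ i) (μ : A →₀ ℝ) (g : A) :
    μ.sum (fun b t => t * Uf y c ((inc i b)⁻¹ * (inc i g * x'))) =
      μ.sum (fun b t => t * c i (b⁻¹ * g)) * Uf y c x' := by
  unfold Finsupp.sum
  rw [Finset.sum_mul]
  refine Finset.sum_congr rfl fun b _ => ?_
  have e : (inc i b)⁻¹ * (inc i g * x') = inc i (b⁻¹ * g) * x' := by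
    have h1 : inc i (b⁻¹ * g) = (inc i b)⁻¹ * inc i g := by
      unfold inc
      rw [map_mul, map_inv]
    rw [h1, mul_assoc]
  show μ b * Uf y c ((inc i b)⁻¹ * (inc i g * x')) = μ b * c i (b⁻¹ * g) * Uf y c x'
  rw [e, Uf_inc h y c hc i x' hh]
  ring

/-- The factor of the first letter. -/
theorem sum_head (h : S_nf) (m : Bool → (A →₀ ℝ)) (c : Bool → A → ℝ) (w : Bool → ℝ) (y : ℝ)
    (hc : ∀ i, c i 1 = 1)
    (hm : ∀ i a, w i * c i a = (m i).sum (fun b t => t * c i (b⁻¹ * a)) +
      Set.indicator ({1} : Set A) (fun _ => 1 / y) a)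
    (x : Gam) (i : Bool) (g : A) (l : List Lt) (hx : nf x = (⟨i, g⟩ : Lt) :: l) :
    (m i).sum (fun b t => t * Uf y c ((inc i b)⁻¹ * x)) = w i * Uf y c x := by
  have hr := h.1 x
  rw [hx] at hr
  obtain ⟨hl, hg, hh⟩ := isRed_tail hr
  have hxl : x = inc i g * val l := by
    have := h.2.1 x
    rw [hx, val_cons] at this
    exact this.symm
  have hnl : nf (val l) = l := h.2.2 l hl
  have hh' : ∀ q ∈ (nf (val l)).head?, q.1 ≠ i := by
    rw [hnl]; exact hh
  have e1 : Uf y c x = c i g * Uf y c (val l) := by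
    conv_lhs => rw [hxl]
    exact Uf_inc h y c hc i (val l) hh' g
  rw [e1]
  conv_lhs => rw [hxl]
  rw [sum_inc h y c hc i (val l) hh' (m i) g]
  have := hm i g
  rw [Set.indicator_of_notMem (by simpa using hg), add_zero] at this
  rw [← this]
  ring

/-- The other factors. -/
theorem sum_other (h : S_nf) (m : Bool → (A →₀ ℝ)) (c : Bool → A → ℝ) (w : Bool → ℝ) (y : ℝ)
    (hc : ∀ i, c i 1 = 1)
    (hm : ∀ i a, w i * c i a = (m i).sum (fun b t => t * c i (b⁻¹ * a)) +
      Set.indicator ({1} : Set A) (fun _ => 1 / y) a)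
    (x : Gam) (i : Bool) (hx : ∀ q ∈ (nf x).head?, q.1 ≠ i) :
    (m i).sum (fun b t => t * Uf y c ((inc i b)⁻¹ * x)) = (w i - 1 / y) * Uf y c x := by
  have h1 := sum_inc h y c hc i x hx (m i) 1
  have e : inc i (1 : A) * x = x := by
    have : inc i (1 : A) = 1 := map_one _
    rw [this, one_mul]
  rw [e] at h1
  rw [h1]
  have := hm i 1
  rw [Set.indicator_of_mem (by simp), hc] at this
  have h2 : (m i).sum (fun b t => t * c i (b⁻¹ * 1)) = w i - 1 / y := by linarith
  rw [h2]

theorem free_spec (h : S_nf) : S_free := by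
  intro m c w y hy hc hm x
  by_cases hx : x = 1
  · subst hx
    have hn : nf (1 : Gam) = [] := by
      have h1 := h.2.2 [] ⟨by simp, by simp⟩
      simpa [val] using h1
    have hh : ∀ i : Bool, ∀ q ∈ (nf (1 : Gam)).head?, q.1 ≠ i := by
      intro i q hq
      rw [hn] at hq
      simp at hq
    have hU : Uf y c 1 = y := by
      unfold Uf
      rw [hn]
      simp
    rw [sum_other h m c w y hc hm 1 false (hh false), sum_other h m c w y hc hm 1 true (hh true),
      Set.indicator_of_mem (by simp), hU]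
    field_simp
    ring
  · have hne : nf x ≠ [] := by
      intro h0
      apply hx
      have := h.2.1 x
      rw [h0] at this
      rw [← this]
      simp [val]
    obtain ⟨⟨j, g⟩, l, hl⟩ := List.exists_cons_of_ne_nil hne
    have hj : (m j).sum (fun b t => t * Uf y c ((inc j b)⁻¹ * x)) = w j * Uf y c x :=
      sum_head h m c w y hc hm x j g l hl
    have ho : ∀ i : Bool, i ≠ j → (m i).sum (fun b t => t * Uf y c ((inc i b)⁻¹ * x)) =
        (w i - 1 / y) * Uf y c x := by
      intro i hi
      refine sum_other h m c w y hc hm x i ?_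
      intro q hq
      rw [hl] at hq
      simp only [List.head?_cons, Option.mem_def, Option.some.injEq] at hq
      subst hq
      exact fun e => hi e.symm
    rw [Set.indicator_of_notMem (by simpa using hx)]
    cases j with
    | false =>
      rw [hj, ho true (by simp)]
      ring
    | true =>
      rw [hj, ho false (by simp)]
      ring

end

end Pool.Agent.Y938.RD
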